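import Pool.Agent.Lib.MP_b0b8df_co.Lin.Stm

/-!
# MP_b0b8df_co, linear range: Erdos-Ko-Rado with uniqueness
-/

set_option autoImplicit false

namespace Pool.Agent.Lib.MP_b0b8df_co.Lin

open Finset

theorem p_EKR (hshadow : S_shadow) (hdeg : S_deg) (hmiss : S_miss) : S_EKR := by
  classical
  intro n k F hk hkn hF hint hcard
  have hle : F.card ≤ (n - 1).choose (k - 1) := by
    apply erdos_ko_rado
    · intro A hA B hB
      exact hint A hA B hB
    · intro A hA
      exact hF A hA
    · omega
  have heq : (n - 1).choose (k - 1) = F.card := le_antisymm hcard hle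
  rcases Nat.lt_or_ge k 2 with hk2 | hk2
  · -- `k = 1`
    have hk1 : k = 1 := by omega
    subst hk1
    have hpos : 0 < F.card := by
      rw [← heq]; simp
    obtain ⟨A, hA⟩ := Finset.card_pos.1 hpos
    obtain ⟨x, hx⟩ := Finset.card_eq_one.1 (hF A hA)
    refine ⟨x, fun B hB => ?_⟩
    have h := hint A hA B hB
    rw [hx, Finset.disjoint_singleton_left] at h
    push Not at h
    exact h
  · obtain ⟨x, hx⟩ := hdeg n k F hk2 (by omega) hF heq
    obtain ⟨s, rfl⟩ : ∃ s, k = s + 1 := ⟨k - 1, by omega⟩
    obtain ⟨r, rfl⟩ : ∃ r, n = r + s + 1 + 1 := ⟨n - s - 2, by omega⟩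
    obtain ⟨ℬ, ℳ, hB, hM, hBc, hMc⟩ := hmiss (r + s + 1) (s + 1) F x hk hF
    refine ⟨x, ?_⟩
    by_contra hcon
    push Not at hcon
    obtain ⟨A0, hA0, hxA0⟩ := hcon
    have hpos : 0 < ℬ.card := by
      rw [hBc]
      exact Finset.card_pos.2 ⟨A0, Finset.mem_filter.2 ⟨hA0, hxA0⟩⟩
    have hMB : ℳ.card = ℬ.card := by
      have h1 : (r + s + 1).choose (s + 1 - 1) = F.card := heq
      omega
    have hlt : ℬ.card < (r + s).choose r := by
      rw [hBc]
      have h1 : r + s + 1 + 1 - 2 = r + s := by omega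
      have h2 : s + 1 - 1 = s := by omega
      rw [h1, h2] at hx
      rwa [Nat.choose_symm_add]
    -- the complements
    have hinj : Function.Injective (fun B : Finset (Fin (r + s + 1)) => Bᶜ) :=
      fun B C h => compl_injective h
    set ℬ' : Finset (Finset (Fin (r + s + 1))) := ℬ.image (fun B => Bᶜ) with hB'
    have hcB' : ℬ'.card = ℬ.card := Finset.card_image_of_injective _ hinj
    have hcard' : ∀ B ∈ ℬ', B.card = r := by
      intro B hBm
      rw [hB', Finset.mem_image] at hBm
      obtain ⟨C, hC, rfl⟩ := hBm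
      have h1 : C.card = s + 1 := by
        have h2 := hF _ ((hB C).1 hC)
        rwa [Finset.card_map] at h2
      rw [Finset.card_compl, Fintype.card_fin, h1]
      omega
    have hne : ℬ'.Nonempty := by
      rw [← Finset.card_pos, hcB']; exact hpos
    have hsh := hshadow r s ℬ' (by omega) (by omega) hcard' hne (by rw [hcB']; exact hlt)
    have hsub : ((univ : Finset (Fin (r + s + 1))).powersetCard s).filter
        (fun D => ∃ A ∈ ℬ', D ⊆ A) ⊆ ℳ := by
      intro D hD
      rw [Finset.mem_filter, Finset.mem_powersetCard] at hD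
      obtain ⟨⟨_, hDc⟩, A, hA, hDA⟩ := hD
      rw [hB', Finset.mem_image] at hA
      obtain ⟨B, hBm, rfl⟩ := hA
      rw [hM]
      refine ⟨by omega, fun hin => ?_⟩
      apply hint _ hin _ ((hB B).1 hBm)
      rw [Finset.disjoint_insert_left]
      constructor
      · intro h
        rw [Finset.mem_map] at h
        obtain ⟨y, _, hy⟩ := h
        exact Fin.succAbove_ne x y hy
      · rw [Finset.disjoint_map]
        rw [Finset.disjoint_left]
        intro y hy hyB
        exact (Finset.mem_compl.1 (hDA hy)) hyB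
    have h3 := Finset.card_le_card hsub
    rw [hcB'] at hsh
    omega

end Pool.Agent.Lib.MP_b0b8df_co.Lin
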