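import Pool.Agent.Lib.MP_b0b8df_co.Lin.Stm

/-! `μ_q(g) ≥ μ_p(g) ^ (log q / log p)`. -/

set_option autoImplicit false

namespace Pool.Agent.Lib.MP_b0b8df_co.Lin

open Finset

private lemma F1_conc {α : ℝ} (h0 : 0 ≤ α) (h1 : α ≤ 1) {x y v : ℝ} (hx : 0 ≤ x) (hxy : x ≤ y)
    (hv : 0 ≤ v) : x ^ α + (y + v) ^ α ≤ y ^ α + (x + v) ^ α := by
  rcases eq_or_lt_of_le hv with h | hv'
  · rw [← h, add_zero, add_zero, add_comm]
  have hL : 0 < y + v - x := by linarith
  have hc := Real.concaveOn_rpow h0 h1
  have hyv : y + v ∈ Set.Ici (0 : ℝ) := by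
    rw [Set.mem_Ici]; linarith
  have hA : 0 ≤ v / (y + v - x) := div_nonneg hv hL.le
  have hB : 0 ≤ (y - x) / (y + v - x) := div_nonneg (by linarith) hL.le
  have ha := hc.2 (Set.mem_Ici.2 hx) hyv hA hB (by field_simp; ring)
  have hb := hc.2 (Set.mem_Ici.2 hx) hyv hB hA (by field_simp; ring)
  have e1 : v / (y + v - x) * x + (y - x) / (y + v - x) * (y + v) = y := by
    field_simp; ring
  have e2 : (y - x) / (y + v - x) * x + v / (y + v - x) * (y + v) = x + v := by
    field_simp; ring
  have e3 : v / (y + v - x) + (y - x) / (y + v - x) = 1 := by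
    field_simp; ring
  simp only [smul_eq_mul] at ha hb
  rw [e1] at ha
  rw [e2] at hb
  calc x ^ α + (y + v) ^ α
      = (v / (y + v - x) + (y - x) / (y + v - x)) * (x ^ α + (y + v) ^ α) := by
        rw [e3, one_mul]
    _ = (v / (y + v - x) * x ^ α + (y - x) / (y + v - x) * (y + v) ^ α) +
        ((y - x) / (y + v - x) * x ^ α + v / (y + v - x) * (y + v) ^ α) := by ring
    _ ≤ y ^ α + (x + v) ^ α := add_le_add ha hb

theorem p_F1 : S_F1 := by
  intro β _ U g p q hp hpq hq hb hm
  have hp1 : p < 1 := lt_of_le_of_lt hpq hq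
  have hq0 : 0 < q := lt_of_lt_of_le hp hpq
  have hlp : Real.log p < 0 := Real.log_neg hp hp1
  have hlq : Real.log q < 0 := Real.log_neg hq0 hq
  have hlpq : Real.log p ≤ Real.log q := Real.log_le_log hp hpq
  obtain ⟨α, hα⟩ : ∃ α, α = Real.log q / Real.log p := ⟨_, rfl⟩
  rw [← hα]
  have h0 : 0 < α := by rw [hα]; exact div_pos_of_neg_of_neg hlq hlp
  have h1 : α ≤ 1 := by rw [hα, div_le_one_of_neg hlp]; exact hlpq
  have hpα : p ^ α = q := by
    rw [Real.rpow_def_of_pos hp, hα, mul_div_cancel₀ _ hlp.ne, Real.exp_log hq0]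
  clear hα
  induction U using Finset.induction_on generalizing g with
  | empty =>
    rw [ex_empty, ex_empty]
    rcases hb ∅ with h | h
    · rw [h, Real.zero_rpow h0.ne']
    · rw [h, Real.one_rpow]
  | insert x U hx ih =>
    rw [ex_insert hx, ex_insert hx]
    have hb' : Bool01 (fun S => g (insert x S)) := fun S => hb _
    have hm' : Monotone (fun S => g (insert x S)) :=
      fun S T h => hm (Finset.insert_subset_insert x h)
    have ihA := ih (fun S => g (insert x S)) hb' hm'
    have ihB := ih g hb hm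
    have hb0 : 0 ≤ ex p U g :=
      ex_nonneg hp.le hp1.le (fun S _ => by rcases hb S with h | h <;> rw [h]; norm_num)
    have hba : ex p U g ≤ ex p U (fun S => g (insert x S)) :=
      ex_mono hp.le hp1.le (fun S _ => hm (Finset.subset_insert x S))
    generalize ex p U (fun S => g (insert x S)) = a at *
    generalize ex p U g = b at *
    have key : (p * a + (1 - p) * b) ^ α ≤ q * a ^ α + (1 - q) * b ^ α := by
      have := F1_conc h0.le h1 (x := p * b) (y := b) (v := p * (a - b)) (by positivity)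
        (by nlinarith) (mul_nonneg hp.le (by linarith))
      have e1 : b + p * (a - b) = p * a + (1 - p) * b := by ring
      have e2 : p * b + p * (a - b) = p * a := by ring
      rw [e1, e2, Real.mul_rpow hp.le hb0, Real.mul_rpow hp.le (hb0.trans hba), hpα] at this
      linarith
    have hq1 : 0 ≤ 1 - q := by linarith
    calc (p * a + (1 - p) * b) ^ α ≤ q * a ^ α + (1 - q) * b ^ α := key
      _ ≤ _ := add_le_add (mul_le_mul_of_nonneg_left ihA hq0.le)
          (mul_le_mul_of_nonneg_left ihB hq1)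

end Pool.Agent.Lib.MP_b0b8df_co.Lin
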