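import Pool.Agent.Lib.MP_b0b8df_co.Lin.Stm

/-! Frankl bound at `q = d / (d + 1)`. -/

set_option autoImplicit false

namespace Pool.Agent.Lib.MP_b0b8df_co.Lin

open Finset

theorem p_F2 (hpush : S_push) : S_F2 := by
  intro α _ _ d J g hd hb hw
  have hd0 : (0 : ℝ) < (d : ℝ) + 1 := by positivity
  set w : Fin (d + 1) → ℝ := fun _ => 1 / ((d : ℝ) + 1) with hwd
  have hsum : ∑ o, w o = 1 := by
    simp only [hwd, Finset.sum_const, Finset.card_univ, Fintype.card_fin, nsmul_eq_mul]
    push_cast
    field_simp
  have hP : ∀ i : Fin (d + 1), ∑ o with o ≠ i, w o = (d : ℝ) / (d + 1) := by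
    intro i
    have : (univ.filter (fun o : Fin (d + 1) => o ≠ i)).card = d := by
      rw [Finset.filter_ne', Finset.card_erase_of_mem (mem_univ _)]
      simp
    rw [Finset.sum_const, this, nsmul_eq_mul]
    ring
  have h1 : ∀ i : Fin (d + 1), ∑ c : α → Fin (d + 1),
      (∏ e, w (c e)) * g (J.filter fun e => c e ≠ i) = ex ((d : ℝ) / (d + 1)) J g := by
    intro i
    have := hpush α (Fin (d + 1)) w (fun o => o ≠ i) J g hsum
    rw [hP i] at this
    exact this
  have h2 : ∑ c : α → Fin (d + 1), (∏ e, w (c e)) = 1 := by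
    have := hpush α (Fin (d + 1)) w (fun _ => True) J (fun _ => 1) hsum
    rw [ex_const] at this
    simpa using this
  have hle : ∀ S, g S ≤ 1 := fun S => by rcases hb S with h | h <;> simp [h]
  have h3 : ∀ c : α → Fin (d + 1), ∑ i, g (J.filter fun e => c e ≠ i) ≤ d := by
    intro c
    by_contra hc
    push Not at hc
    have hall : ∀ i, g (J.filter fun e => c e ≠ i) = 1 := by
      intro i
      rcases hb (J.filter fun e => c e ≠ i) with h | h
      · exfalso
        have : ∑ i, g (J.filter fun e => c e ≠ i) ≤ d := by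
          rw [← Finset.add_sum_erase _ _ (mem_univ i), h, zero_add]
          calc ∑ x ∈ univ.erase i, g (J.filter fun e => c e ≠ x)
              ≤ ∑ j ∈ (univ : Finset (Fin (d + 1))).erase i, (1 : ℝ) :=
                Finset.sum_le_sum fun j _ => hle _
            _ = d := by
                rw [Finset.sum_const, Finset.card_erase_of_mem (mem_univ _)]
                simp
        linarith
      · exact h
    obtain ⟨e, he⟩ := hw (fun i => J.filter fun e => c e ≠ i)
      (fun i => Finset.filter_subset _ _) hall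
    have := he (c e)
    simp at this
  have h4 : ((d : ℝ) + 1) * ex ((d : ℝ) / (d + 1)) J g ≤ d := by
    have e1 : ((d : ℝ) + 1) * ex ((d : ℝ) / (d + 1)) J g =
        ∑ i : Fin (d + 1), ∑ c : α → Fin (d + 1),
          (∏ e, w (c e)) * g (J.filter fun e => c e ≠ i) := by
      rw [Finset.sum_congr rfl (fun i _ => h1 i)]
      simp
    rw [e1, Finset.sum_comm]
    calc ∑ c : α → Fin (d + 1), ∑ i : Fin (d + 1),
          (∏ e, w (c e)) * g (J.filter fun e => c e ≠ i)
        = ∑ c : α → Fin (d + 1), (∏ e, w (c e)) * ∑ i, g (J.filter fun e => c e ≠ i) := by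
          simp only [Finset.mul_sum]
      _ ≤ ∑ c : α → Fin (d + 1), (∏ e, w (c e)) * (d : ℝ) := by
          apply Finset.sum_le_sum
          intro c _
          refine mul_le_mul_of_nonneg_left (h3 c) (Finset.prod_nonneg fun e _ => ?_)
          rw [hwd]
          positivity
      _ = d := by rw [← Finset.sum_mul, h2, one_mul]
  rw [le_div_iff₀ hd0]
  linarith

end Pool.Agent.Lib.MP_b0b8df_co.Lin
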