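import Pool.Agent.Lib.MP_b0b8df_co.Lin.Stm

/-! Frankl bound for all `q ≤ d / (d + 1)`. -/

set_option autoImplicit false

namespace Pool.Agent.Lib.MP_b0b8df_co.Lin

open Finset

theorem p_F7 (hF1 : S_F1) (hF2 : S_F2) : S_F7 := by
  intro β _ _ d J g q hd hq0 hqd hb hm hw
  have hd' : (1 : ℝ) ≤ d := by exact_mod_cast hd
  have hd0 : (0 : ℝ) < (d : ℝ) + 1 := by linarith
  obtain ⟨Q, hQ⟩ : ∃ Q : ℝ, Q = (d : ℝ) / (d + 1) := ⟨_, rfl⟩
  have hQ1 : Q < 1 := by rw [hQ, div_lt_one hd0]; linarith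
  have hqQ : q ≤ Q := by rw [hQ, le_div_iff₀ hd0]; linarith
  have hQ0 : 0 < Q := lt_of_lt_of_le hq0 hqQ
  have hq1 : q < 1 := lt_of_le_of_lt hqQ hQ1
  have h1 := hF1 β J g q Q hq0 hqQ hQ1 hb hm
  have h2 := hF2 β d J g hd hb hw
  rw [← hQ] at h2
  have hlq : Real.log q < 0 := Real.log_neg hq0 hq1
  have hlQ : Real.log Q < 0 := Real.log_neg hQ0 hQ1
  have hα : 0 < Real.log Q / Real.log q := div_pos_of_neg_of_neg hlQ hlq
  have hqα : q ^ (Real.log Q / Real.log q) = Q := by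
    rw [Real.rpow_def_of_pos hq0, mul_div_cancel₀ _ hlq.ne, Real.exp_log hQ0]
  by_contra hc
  push Not at hc
  have := Real.rpow_lt_rpow hq0.le hc hα
  rw [hqα] at this
  linarith

end Pool.Agent.Lib.MP_b0b8df_co.Lin
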