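import Pool.Agent.Lib.MP_b0b8df_co.Lin.Stm

/-!
# MP_b0b8df_co, linear range: the first inequality
-/

set_option autoImplicit false

namespace Pool.Agent.Lib.MP_b0b8df_co.Lin

open Finset

private lemma G1_card {N w : ℕ} : ((univ : Finset (Fin N)).filter fun e => e.val < w).card ≤ w := by
  have h := Finset.card_le_card_of_injOn (s := (univ : Finset (Fin N)).filter fun e => e.val < w)
    (t := Finset.range w) (fun e => e.val)
    (fun e he => by
      have := (Finset.mem_filter.1 he).2
      exact Finset.mem_coe.2 (Finset.mem_range.2 this))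
    (fun a _ b _ hab => Fin.ext hab)
  rwa [Finset.card_range] at h

theorem p_G1 (hblock : S_block) (hperm : S_perm) : S_G1 := by
  intro N k' m d w 𝒢 ℳ hk hm hw hkd hG hM h
  obtain ⟨S0, A, hS0, hA, hint, hS0w, hAw⟩ := hblock N k' m d w hk hm hw hkd
  have key : (univ.filter fun σ : Equiv.Perm (Fin N) => S0.map σ.toEmbedding ∈ 𝒢) ⊆
      univ.biUnion (fun i : Fin d =>
        univ.filter fun σ : Equiv.Perm (Fin N) => (A i).map σ.toEmbedding ∈ ℳ) := by
    intro σ hσ
    rw [Finset.mem_filter] at hσ
    have hi : ∃ i, (A i).map σ.toEmbedding ∈ ℳ := by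
      refine h (S0.map σ.toEmbedding) (fun i => (A i).map σ.toEmbedding) hσ.2 ?_ ?_ ?_
      · intro i
        rw [Finset.card_map]
        exact hA i
      · intro e
        rcases hint (σ.symm e) with h1 | ⟨i, h1⟩
        · left
          rw [Finset.mem_map_equiv]
          exact h1
        · right
          refine ⟨i, ?_⟩
          rw [Finset.mem_map_equiv]
          exact h1
      · refine le_trans (Finset.card_le_card (t :=
          ((univ : Finset (Fin N)).filter fun e => e.val < w).map σ.toEmbedding) ?_) ?_
        · intro e he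
          rw [Finset.mem_map_equiv, Finset.mem_filter]
          refine ⟨Finset.mem_univ _, ?_⟩
          rw [Finset.mem_union, Finset.mem_biUnion] at he
          rcases he with he | ⟨i, _, he⟩
          · rw [Finset.mem_map_equiv] at he
            exact hS0w _ he
          · rw [Finset.mem_map_equiv] at he
            exact hAw i _ he
        · rw [Finset.card_map]
          exact G1_card
    obtain ⟨i, hi⟩ := hi
    rw [Finset.mem_biUnion]
    exact ⟨i, Finset.mem_univ _, Finset.mem_filter.2 ⟨Finset.mem_univ _, hi⟩⟩
  have hcard := (Finset.card_le_card key).trans Finset.card_biUnion_le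
  have h1 := hperm N k' S0 𝒢 hS0 hG
  have h2 : ∀ i : Fin d, (univ.filter fun σ : Equiv.Perm (Fin N) =>
      (A i).map σ.toEmbedding ∈ ℳ).card * N.choose m = ℳ.card * N.factorial := fun i =>
    hperm N m (A i) ℳ (hA i) hM
  have h3 : (∑ i : Fin d, (univ.filter fun σ : Equiv.Perm (Fin N) =>
      (A i).map σ.toEmbedding ∈ ℳ).card) * N.choose m = d * (ℳ.card * N.factorial) := by
    rw [Finset.sum_mul, Finset.sum_congr rfl fun i _ => h2 i, Finset.sum_const, Finset.card_univ,
      Fintype.card_fin, smul_eq_mul]
  have hN : 0 < N.factorial := Nat.factorial_pos N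
  apply Nat.le_of_mul_le_mul_right _ hN
  calc 𝒢.card * N.choose m * N.factorial
      = (𝒢.card * N.factorial) * N.choose m := by ring
    _ = (univ.filter fun σ : Equiv.Perm (Fin N) => S0.map σ.toEmbedding ∈ 𝒢).card *
        N.choose k' * N.choose m := by rw [h1]
    _ ≤ (∑ i : Fin d, (univ.filter fun σ : Equiv.Perm (Fin N) =>
        (A i).map σ.toEmbedding ∈ ℳ).card) * N.choose k' * N.choose m := by gcongr
    _ = (∑ i : Fin d, (univ.filter fun σ : Equiv.Perm (Fin N) =>
        (A i).map σ.toEmbedding ∈ ℳ).card) * N.choose m * N.choose k' := by ring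
    _ = d * (ℳ.card * N.factorial) * N.choose k' := by rw [h3]
    _ = d * ℳ.card * N.choose k' * N.factorial := by ring

end Pool.Agent.Lib.MP_b0b8df_co.Lin
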