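import Pool.Agent.Lib.MP_b0b8df_co.Lin.Stm
import Mathlib.Combinatorics.SetFamily.KruskalKatona

/-!
# MP_b0b8df_co, linear range: the piece G2
-/

set_option autoImplicit false

namespace Pool.Agent.Lib.MP_b0b8df_co.Lin

open Finset
open scoped FinsetFamily

private lemma G2_shadow_card {N k h : ℕ} (ℬ : Finset (Finset (Fin N)))
    (hkh : k + h ≤ N) (hℬ : ∀ B ∈ ℬ, B.card = k) :
    (∂^[h] (ℬ.image compl)).card ≤
      (((univ : Finset (Fin N)).powersetCard (k + h)).filter fun S => ∃ B ∈ ℬ, B ⊆ S).card := by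
  classical
  apply Finset.card_le_card_of_injOn (fun s => sᶜ)
  · intro s hs
    rw [Finset.mem_coe, Finset.mem_shadow_iterate_iff_exists_mem_card_add] at hs
    obtain ⟨A, hA, hsA, hc⟩ := hs
    rw [Finset.mem_image] at hA
    obtain ⟨B, hB, rfl⟩ := hA
    rw [Finset.card_compl, Fintype.card_fin, hℬ B hB] at hc
    rw [Finset.mem_coe, Finset.mem_filter, Finset.mem_powersetCard]
    refine ⟨⟨Finset.subset_univ _, ?_⟩, B, hB, ?_⟩
    · rw [Finset.card_compl, Fintype.card_fin]
      omega
    · intro x hx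
      rw [Finset.mem_compl]
      intro hxs
      exact (Finset.mem_compl.1 (hsA hxs)) hx
  · exact compl_injective.injOn

theorem p_G2 (hG2a : S_G2a) (hG2num : S_G2num) : S_G2 := by
  classical
  intro lam Λ hlam hΛ
  obtain ⟨ε, N0, hε, hε1, hnum⟩ := hG2num lam Λ hlam hΛ
  refine ⟨ε, max N0 1, hε, ?_⟩
  intro N k h ℬ hN hk hh hkh hℬ hne hcard
  have hN0 : N0 ≤ N := le_trans (le_max_left _ _) hN
  have hN1 : 1 ≤ N := le_trans (le_max_right _ _) hN
  obtain ⟨r, hr⟩ : ∃ r, r = N - k := ⟨_, rfl⟩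
  have hrk : N = r + k := by omega
  have hhr : h ≤ r := by omega
  have hrN : r ≤ N := by omega
  have hkr : N.choose k = N.choose r := by
    rw [hr]; exact (Nat.choose_symm (by omega)).symm
  have hkr2 : N.choose (k + h) = N.choose (r - h) := by
    have : r - h = N - (k + h) := by omega
    rw [this]; exact (Nat.choose_symm hkh).symm
  -- the complement family
  obtain ⟨b, hb⟩ : ∃ b, b = ℬ.card := ⟨_, rfl⟩
  have hb1 : 1 ≤ b := by rw [hb]; exact hne.card_pos
  have hb' : (ℬ.image compl).card = b := by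
    rw [hb]; exact Finset.card_image_of_injective _ compl_injective
  have hsz : ((ℬ.image compl : Finset (Finset (Fin N))) : Set (Finset (Fin N))).Sized r := by
    intro A hA
    rw [Finset.mem_coe, Finset.mem_image] at hA
    obtain ⟨B, hB, rfl⟩ := hA
    rw [Finset.card_compl, Fintype.card_fin, hℬ B hB, hr]
  rw [← hb] at hcard
  have hCpos : 0 < N.choose r := Nat.choose_pos hrN
  have hbC : b < N.choose r := by
    rw [hkr] at hcard
    have h1 : (0 : ℝ) < N.choose r := by exact_mod_cast hCpos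
    have h2 : (b : ℝ) < N.choose r := by
      calc (b : ℝ) ≤ ε * N.choose r := hcard
        _ < 1 * N.choose r := mul_lt_mul_of_pos_right hε1 h1
        _ = N.choose r := one_mul _
    exact_mod_cast h2
  -- the choice of t
  obtain ⟨t, ht⟩ : ∃ t, t = Nat.findGreatest (fun t => r ≤ t ∧ t.choose r ≤ b) N := ⟨_, rfl⟩
  have hPr : r ≤ r ∧ r.choose r ≤ b := ⟨le_rfl, by rw [Nat.choose_self]; exact hb1⟩
  have htspec : r ≤ t ∧ t.choose r ≤ b := by
    rw [ht]
    exact Nat.findGreatest_spec (P := fun t => r ≤ t ∧ t.choose r ≤ b) hrN hPr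
  have htN : t ≤ N := by rw [ht]; exact Nat.findGreatest_le N
  have htN' : t < N := by
    rcases Nat.lt_or_ge t N with h1 | h1
    · exact h1
    · have : t = N := le_antisymm htN h1
      rw [this] at htspec
      omega
  have htb : b < (t + 1).choose r := by
    by_contra hcon
    have hcon' : (t + 1).choose r ≤ b := by omega
    have h1 := Nat.findGreatest_is_greatest (P := fun t => r ≤ t ∧ t.choose r ≤ b) (n := N)
      (k := t + 1) (by rw [← ht]; omega) (by omega)
    exact h1 ⟨by omega, hcon'⟩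
  obtain ⟨hrt, htCb⟩ := htspec
  -- the Lovasz form of Kruskal-Katona
  have hKK := Finset.kruskal_katona_lovasz_form (𝒜 := ℬ.image compl) hhr hrt htN hsz
    (by rw [hb']; exact htCb)
  have hsh := G2_shadow_card (h := h) ℬ hkh hℬ
  obtain ⟨g, hg⟩ : ∃ g, g = (((univ : Finset (Fin N)).powersetCard (k + h)).filter
    fun S => ∃ B ∈ ℬ, B ⊆ S).card := ⟨_, rfl⟩
  rw [← hg] at hsh ⊢
  have hgt : t.choose (r - h) ≤ g := hKK.trans hsh
  -- the numerical part
  have hmain := hnum N t r h k hN0 hrk hk hh hhr hrt htN' (by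
    rw [hkr] at hcard
    have : (t.choose r : ℝ) ≤ b := by exact_mod_cast htCb
    linarith)
  have hA := hG2a N t r h htN hN1 hhr hrt
  rw [← hb, hkr, hkr2]
  have hid : (t + 1).choose r * (t + 1 - r) = t.choose r * (t + 1) := by
    have := Nat.choose_mul_succ_eq t r
    rw [this]
  have hidR : ((t + 1).choose r : ℝ) * ((t : ℝ) + 1 - r) = t.choose r * ((t : ℝ) + 1) := by
    have h1 : (((t + 1).choose r * (t + 1 - r) : ℕ) : ℝ) = ((t.choose r * (t + 1) : ℕ) : ℝ) := by
      rw [hid]
    rw [Nat.cast_mul, Nat.cast_sub (by omega), Nat.cast_mul] at h1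
    push_cast at h1
    exact h1
  have hy : (0 : ℝ) ≤ (1 + ((N : ℝ) - t) / N) ^ h := by
    have h1 : (0 : ℝ) ≤ ((N : ℝ) - t) / N := by
      apply div_nonneg
      · have : (t : ℝ) ≤ N := by exact_mod_cast htN
        linarith
      · positivity
    positivity
  set y : ℝ := (1 + ((N : ℝ) - t) / N) ^ h with hydef
  have ht1 : (0 : ℝ) < (t : ℝ) + 1 := by positivity
  have htr : (0 : ℝ) < (t : ℝ) + 1 - r := by
    have : (r : ℝ) ≤ t := by exact_mod_cast hrt
    linarith
  have hbR : (b : ℝ) ≤ (t + 1).choose r := by exact_mod_cast htb.le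
  have hbq : (b : ℝ) * (((t : ℝ) + 1 - r) / (t + 1)) ≤ t.choose r := by
    rw [← mul_div_assoc, div_le_iff₀ ht1, ← hidR]
    exact mul_le_mul_of_nonneg_right hbR htr.le
  have hb0 : (0 : ℝ) ≤ b := by positivity
  have hC0 : (0 : ℝ) ≤ (N.choose (r - h) : ℝ) := by positivity
  calc Λ * ((b : ℝ) * N.choose (r - h))
      ≤ (((t : ℝ) + 1 - r) / (t + 1) * y) * ((b : ℝ) * N.choose (r - h)) := by
        apply mul_le_mul_of_nonneg_right hmain
        positivity
    _ = ((b : ℝ) * (((t : ℝ) + 1 - r) / (t + 1))) * (N.choose (r - h) * y) := by ring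
    _ ≤ (t.choose r : ℝ) * (N.choose (r - h) * y) := by
        apply mul_le_mul_of_nonneg_right hbq
        positivity
    _ = (t.choose r : ℝ) * N.choose (r - h) * y := by ring
    _ ≤ (t.choose (r - h) : ℝ) * N.choose r := hA
    _ ≤ (g : ℝ) * N.choose r := by
        apply mul_le_mul_of_nonneg_right
        · exact_mod_cast hgt
        · positivity

end Pool.Agent.Lib.MP_b0b8df_co.Lin
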