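import Pool.Agent.Lib.MP_b0b8df_co.Lin.Stm

set_option autoImplicit false

namespace Pool.Agent.Lib.MP_b0b8df_co.Lin

open Finset

private lemma G2a_choose {n j : ℕ} (h : j ≤ n) :
    ((n.choose (j + 1) : ℕ) : ℝ) * ((j : ℝ) + 1) = (n.choose j : ℝ) * ((n : ℝ) - j) := by
  have := Nat.choose_succ_right_eq n j
  have h2 : ((n.choose (j + 1) * (j + 1) : ℕ) : ℝ) = ((n.choose j * (n - j) : ℕ) : ℝ) := by
    rw [this]
  push_cast [Nat.cast_sub h] at h2
  exact h2

theorem p_G2a : S_G2a := by
  intro N t r h htN hN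
  have hN' : (0 : ℝ) < N := by exact_mod_cast hN
  have htN' : (t : ℝ) ≤ N := by exact_mod_cast htN
  induction h with
  | zero => intro _ _; simp
  | succ h ih =>
    intro hr hrt
    have IH := ih (by omega) hrt
    obtain ⟨j, hj⟩ : ∃ j, r = j + 1 + h := ⟨r - h - 1, by omega⟩
    have e1 : r - h = j + 1 := by omega
    have e2 : r - (h + 1) = j := by omega
    rw [e1] at IH
    rw [e2]
    have hjt : j < t := by omega
    have hjt' : (0 : ℝ) < (t : ℝ) - j := by
      have : (j : ℝ) < t := by exact_mod_cast hjt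
      linarith
    have hj0 : (0 : ℝ) ≤ j := Nat.cast_nonneg j
    have cN := G2a_choose (n := N) (j := j) (by omega)
    have ct := G2a_choose (n := t) (j := j) (by omega)
    set y : ℝ := 1 + ((N : ℝ) - t) / N with hy
    have hy0 : 0 ≤ y := by
      have : 0 ≤ ((N : ℝ) - t) / N := div_nonneg (by linarith) hN'.le
      linarith
    have hyt : y * ((t : ℝ) - j) ≤ (N : ℝ) - j := by
      have h1 : ((N : ℝ) - t) / N * ((t : ℝ) - j) ≤ (N : ℝ) - t := by
        rw [div_mul_eq_mul_div, div_le_iff₀ hN']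
        exact mul_le_mul_of_nonneg_left (by linarith) (by linarith)
      rw [hy]; linarith
    have hA : (0 : ℝ) ≤ (t.choose r : ℝ) * N.choose j * y ^ h := by positivity
    have h1 : (t.choose r : ℝ) * N.choose j * y ^ h * ((N : ℝ) - j) ≤
        (t.choose j : ℝ) * ((t : ℝ) - j) * N.choose r := by
      have h2 := mul_le_mul_of_nonneg_right IH (by positivity : (0 : ℝ) ≤ (j : ℝ) + 1)
      calc (t.choose r : ℝ) * N.choose j * y ^ h * ((N : ℝ) - j)
          = (t.choose r : ℝ) * N.choose (j + 1) * y ^ h * ((j : ℝ) + 1) := by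
            linear_combination (-(t.choose r : ℝ) * y ^ h) * cN
        _ ≤ (t.choose (j + 1) : ℝ) * N.choose r * ((j : ℝ) + 1) := h2
        _ = _ := by linear_combination (N.choose r : ℝ) * ct
    have h3 : (t.choose r : ℝ) * N.choose j * y ^ (h + 1) * ((t : ℝ) - j) ≤
        (t.choose j : ℝ) * N.choose r * ((t : ℝ) - j) := by
      calc (t.choose r : ℝ) * N.choose j * y ^ (h + 1) * ((t : ℝ) - j)
          = (t.choose r : ℝ) * N.choose j * y ^ h * (y * ((t : ℝ) - j)) := by ring
        _ ≤ (t.choose r : ℝ) * N.choose j * y ^ h * ((N : ℝ) - j) :=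
            mul_le_mul_of_nonneg_left hyt hA
        _ ≤ (t.choose j : ℝ) * ((t : ℝ) - j) * N.choose r := h1
        _ = _ := by ring
    exact le_of_mul_le_mul_right h3 hjt'

end Pool.Agent.Lib.MP_b0b8df_co.Lin
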