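import Pool.Agent.Lib.MP_b0b8df_co.Lin.Stm

/-!
# MP_b0b8df_co, linear range: the numerical part of the second inequality
-/

set_option autoImplicit false

namespace Pool.Agent.Lib.MP_b0b8df_co.Lin

/-- exponential growth beats linear growth -/
private theorem G2num_exp (l Λ : ℝ) (hl : 0 < l) (hΛ : 0 < Λ) : ∃ N0 : ℕ, 1 ≤ N0 ∧
    ∀ N h : ℕ, N0 ≤ N → l * N ≤ h → Λ * N ≤ (1 + l / 2) ^ h := by
  obtain ⟨N0, hN0⟩ := exists_nat_ge (1 + 64 * Λ / l ^ 4 + 2 / l)
  have p1 : 0 ≤ 64 * Λ / l ^ 4 := by positivity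
  have p2 : 0 ≤ 2 / l := by positivity
  refine ⟨N0, by exact_mod_cast (by linarith : (1 : ℝ) ≤ N0), fun N h hN hh => ?_⟩
  have hN' : (N0 : ℝ) ≤ N := by exact_mod_cast hN
  have hNpos : (0 : ℝ) < N := by linarith
  have h1 : 64 * Λ / l ^ 4 ≤ N := by linarith
  have h2 : 2 / l ≤ N := by linarith
  rw [div_le_iff₀ (by positivity)] at h1 h2
  have h3 : (2 : ℝ) ≤ h := by linarith
  have h3' : 2 ≤ h := by exact_mod_cast h3
  obtain ⟨m, hm1, hm2⟩ : ∃ m : ℕ, 2 * m ≤ h ∧ h ≤ 2 * m + 1 := ⟨h / 2, by omega, by omega⟩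
  have hm3 : (h : ℝ) ≤ 4 * m := by
    have : h ≤ 4 * m := by omega
    exact_mod_cast this
  have e1 : (1 + l / 2) ^ (2 * m) ≤ (1 + l / 2) ^ h :=
    pow_le_pow_right₀ (by linarith) hm1
  have e2 : 1 + (m : ℝ) * (l / 2) ≤ (1 + l / 2) ^ m :=
    one_add_mul_le_pow (by linarith) m
  have e3 : ((m : ℝ) * (l / 2)) ^ 2 ≤ (1 + l / 2) ^ (2 * m) := by
    rw [mul_comm 2 m, pow_mul]
    exact pow_le_pow_left₀ (by positivity) (by linarith) 2
  have e4 : (l * N * l / 8) ^ 2 ≤ ((m : ℝ) * (l / 2)) ^ 2 := by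
    apply pow_le_pow_left₀ (by positivity)
    have : l * N ≤ 4 * m := by linarith
    nlinarith
  have e5 : Λ * N ≤ (l * N * l / 8) ^ 2 := by
    have := mul_le_mul_of_nonneg_left h1 hNpos.le
    nlinarith
  linarith

/-- the ratio of binomial coefficients -/
private theorem G2num_ratio (l : ℝ) (hl : 0 < l) (N t r : ℕ) (hrt : r ≤ t)
    (hg : l / 2 * N ≤ (t : ℝ) + 1 - r) : ∀ i : ℕ, t + i ≤ N →
    (l / 2) ^ i * ((t + i).choose r : ℝ) ≤ (t.choose r : ℝ) := by
  intro i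
  induction i with
  | zero => intro _; simp
  | succ i ih =>
    intro hi
    have ih' := ih (by omega)
    refine le_trans ?_ ih'
    rw [pow_succ, mul_assoc]
    apply mul_le_mul_of_nonneg_left _ (by positivity)
    have h1 := Nat.choose_mul_succ_eq (t + i) r
    have h2 : ((t + i).choose r : ℝ) * ((t : ℝ) + i + 1) =
        ((t + (i + 1)).choose r : ℝ) * ((t : ℝ) + i + 1 - r) := by
      have h3 : ((t + i + 1 - r : ℕ) : ℝ) = (t : ℝ) + i + 1 - r := by
        rw [Nat.cast_sub (by omega)]; push_cast; ring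
      rw [← h3, ← add_assoc]
      have := congrArg (fun x : ℕ => (x : ℝ)) h1
      push_cast at this
      rw [← this]
    have h4 : (t : ℝ) + i + 1 ≤ N := by exact_mod_cast hi
    have h5 : (0 : ℝ) < (t : ℝ) + i + 1 := by positivity
    have h6 : l / 2 * ((t : ℝ) + i + 1) ≤ (t : ℝ) + i + 1 - r := by
      have := mul_le_mul_of_nonneg_left h4 (by positivity : 0 ≤ l / 2)
      have hi0 : (0 : ℝ) ≤ i := Nat.cast_nonneg _
      linarith
    have h7 : (0 : ℝ) ≤ ((t + (i + 1)).choose r : ℝ) := Nat.cast_nonneg _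
    have h8 := mul_le_mul_of_nonneg_left h6 h7
    rw [← h2] at h8
    have h9 : (l / 2 * ((t + (i + 1)).choose r : ℝ)) * ((t : ℝ) + i + 1) ≤
        ((t + i).choose r : ℝ) * ((t : ℝ) + i + 1) := by linarith
    exact le_of_mul_le_mul_right h9 h5

theorem p_G2num : S_G2num := by
  intro lam Λ hlam hΛ
  obtain ⟨l, hl, hl1, hll⟩ : ∃ l : ℝ, 0 < l ∧ l ≤ 1 ∧ l ≤ lam :=
    ⟨min lam 1, lt_min hlam one_pos, min_le_right _ _, min_le_left _ _⟩
  obtain ⟨L, hL⟩ := exists_nat_ge (2 * Λ / l ^ 2)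
  obtain ⟨N0, hN01, hN0⟩ := G2num_exp l Λ hl hΛ
  have hlh : 0 < l / 2 := by linarith
  have hlh1 : l / 2 ≤ 1 := by linarith
  have hpw : (l / 2) ^ L ≤ 1 := pow_le_one₀ hlh.le hlh1
  have hpw0 : 0 < (l / 2) ^ L := pow_pos hlh L
  refine ⟨(l / 2) ^ L / 2, N0, by positivity, by linarith, ?_⟩
  intro N t r h k hN hNrk hk hh hhr hrt htN hC
  have hNpos : (0 : ℝ) < N := by
    have : 0 < N := by omega
    exact_mod_cast this
  have hk' : l * N ≤ k := le_trans (mul_le_mul_of_nonneg_right hll hNpos.le) hk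
  have hh' : l * N ≤ h := le_trans (mul_le_mul_of_nonneg_right hll hNpos.le) hh
  have hNr : (N : ℝ) = r + k := by exact_mod_cast hNrk
  have ht1 : (t : ℝ) + 1 ≤ N := by exact_mod_cast htN
  have htr : (r : ℝ) ≤ t := by exact_mod_cast hrt
  have ht0 : (0 : ℝ) < (t : ℝ) + 1 := by positivity
  by_cases hc : (N : ℝ) - t ≤ l * N / 2
  · have hg : l / 2 * N ≤ (t : ℝ) + 1 - r := by linarith
    have h1 := G2num_ratio l hl N t r hrt hg (N - t) (by omega)
    rw [show t + (N - t) = N by omega] at h1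
    have hCN : (0 : ℝ) < N.choose r := by
      exact_mod_cast Nat.choose_pos (by omega)
    have h2 : (l / 2) ^ (N - t) ≤ (l / 2) ^ L / 2 :=
      le_of_mul_le_mul_right (le_trans h1 hC) hCN
    have h3 : L ≤ N - t := by
      by_contra h4
      have h5 : (l / 2) ^ L ≤ (l / 2) ^ (N - t) :=
        pow_le_pow_of_le_one hlh.le hlh1 (by omega)
      linarith
    have h3' : (L : ℝ) ≤ (N : ℝ) - t := by
      have : ((N - t : ℕ) : ℝ) = (N : ℝ) - t := by rw [Nat.cast_sub (by omega)]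
      rw [← this]; exact_mod_cast h3
    have h4 : l / 2 ≤ ((t : ℝ) + 1 - r) / (t + 1) := by
      rw [le_div_iff₀ ht0]
      have := mul_le_mul_of_nonneg_left ht1 hlh.le
      linarith
    have h5 : 1 + (h : ℝ) * (((N : ℝ) - t) / N) ≤ (1 + ((N : ℝ) - t) / N) ^ h := by
      apply one_add_mul_le_pow
      have : 0 ≤ ((N : ℝ) - t) / N := by
        apply div_nonneg _ hNpos.le
        linarith
      linarith
    have h6 : l * L ≤ (h : ℝ) * (((N : ℝ) - t) / N) := by
      rw [mul_div_assoc', le_div_iff₀ hNpos]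
      have hL0 : (0 : ℝ) ≤ L := Nat.cast_nonneg _
      have e1 : l * N * L ≤ h * L := mul_le_mul_of_nonneg_right hh' hL0
      have e2 : (h : ℝ) * L ≤ h * ((N : ℝ) - t) :=
        mul_le_mul_of_nonneg_left h3' (Nat.cast_nonneg _)
      linarith
    have h7 : l / 2 * (l * L) ≤ ((t : ℝ) + 1 - r) / (t + 1) * (1 + ((N : ℝ) - t) / N) ^ h := by
      apply mul_le_mul h4 (by linarith) (by positivity) (by linarith)
    rw [div_le_iff₀ (by positivity)] at hL
    nlinarith
  · push Not at hc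
    have h4 : 1 / (N : ℝ) ≤ ((t : ℝ) + 1 - r) / (t + 1) := by
      rw [div_le_div_iff₀ hNpos ht0]
      nlinarith
    have h5 : (1 + l / 2) ^ h ≤ (1 + ((N : ℝ) - t) / N) ^ h := by
      apply pow_le_pow_left₀ (by linarith)
      have : l / 2 ≤ ((N : ℝ) - t) / N := by
        rw [le_div_iff₀ hNpos]; linarith
      linarith
    have h6 := hN0 N h hN hh'
    have h7 : 1 / (N : ℝ) * (Λ * N) ≤
        ((t : ℝ) + 1 - r) / (t + 1) * (1 + ((N : ℝ) - t) / N) ^ h := by
      apply mul_le_mul h4 (by linarith) (by positivity)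
      exact le_trans (by positivity) h4
    have h8 : 1 / (N : ℝ) * (Λ * N) = Λ := by field_simp
    linarith

end Pool.Agent.Lib.MP_b0b8df_co.Lin
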