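import Pool.Agent.Lib.MP_b0b8df_co.Lin.Stm

/-!
# MP_b0b8df_co, linear range: approximate structure
-/

set_option autoImplicit false

namespace Pool.Agent.Lib.MP_b0b8df_co.Lin

open Finset

/-- the numerical conditions hold for large `n` -/
private theorem approx_large (d : ℕ) (ζ z ε M : ℝ) (hζ : 0 < ζ) (hz : 0 < z) (hε : 0 < ε)
    (hM : 0 ≤ M) : ∃ n0 : ℕ, ∀ n : ℕ, n0 < n →
    1 / (4 * z ^ 2 * ζ ^ 2 * n) ≤ ε / 2 ∧ Real.sqrt (((d : ℝ) + 2) * n) + M ≤ ζ ^ 2 * n / 2 ∧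
    1 ≤ z * ζ * n / 2 ∧ 1 / (z ^ 2 * ζ ^ 2 * n) ≤ 1 / 2 := by
  obtain ⟨n0, hn0⟩ := exists_nat_ge (1 / (2 * z ^ 2 * ζ ^ 2 * ε) + 16 * ((d : ℝ) + 2) / ζ ^ 4 +
    4 * M / ζ ^ 2 + 2 / (z * ζ) + 2 / (z ^ 2 * ζ ^ 2))
  refine ⟨n0, fun n hn => ?_⟩
  have hn' : (n0 : ℝ) < n := by exact_mod_cast hn
  have p1 : 0 ≤ 1 / (2 * z ^ 2 * ζ ^ 2 * ε) := by positivity
  have p2 : 0 ≤ 16 * ((d : ℝ) + 2) / ζ ^ 4 := by positivity
  have p3 : 0 ≤ 4 * M / ζ ^ 2 := by positivity
  have p4 : 0 ≤ 2 / (z * ζ) := by positivity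
  have p5 : 0 ≤ 2 / (z ^ 2 * ζ ^ 2) := by positivity
  have h1 : 1 / (2 * z ^ 2 * ζ ^ 2 * ε) ≤ n := by linarith
  have h2 : 16 * ((d : ℝ) + 2) / ζ ^ 4 ≤ n := by linarith
  have h3 : 4 * M / ζ ^ 2 ≤ n := by linarith
  have h4 : 2 / (z * ζ) ≤ n := by linarith
  have h5 : 2 / (z ^ 2 * ζ ^ 2) ≤ n := by linarith
  have hn0' : (0 : ℝ) ≤ n0 := Nat.cast_nonneg _
  have hnpos : (0 : ℝ) < n := by linarith
  rw [div_le_iff₀ (by positivity)] at h1 h2 h3 h4 h5
  refine ⟨?_, ?_, ?_, ?_⟩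
  · rw [div_le_iff₀ (by positivity)]
    linarith
  · have hs : Real.sqrt (((d : ℝ) + 2) * n) ≤ ζ ^ 2 * n / 4 := by
      apply Real.sqrt_le_iff.2
      refine ⟨by positivity, ?_⟩
      have := mul_le_mul_of_nonneg_left h2 hnpos.le
      nlinarith
    linarith
  · linarith
  · rw [div_le_iff₀ (by positivity)]
    linarith

theorem p_approx (hjunta : S_junta) (hchoose : S_choose) (hdens : S_dens) (htail : S_tail) :
    S_approx := by
  intro d ζ η hd hζ hη
  obtain ⟨ε, hε, hJ⟩ := hjunta d (ζ / 2) (η / 2) hd (by linarith) (by linarith)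
  obtain ⟨z, hz, hz1, hz2⟩ : ∃ z : ℝ, 0 < z ∧ z ≤ ζ / 8 ∧ z ≤ ε / 4 :=
    ⟨min (ζ / 8) (ε / 4), lt_min (by linarith) (by linarith), min_le_left _ _, min_le_right _ _⟩
  obtain ⟨M, hM⟩ := hJ (1 / (z * ζ)) (by positivity)
  obtain ⟨n0, hn0⟩ := approx_large d ζ z ε M hζ hz hε (Nat.cast_nonneg _)
  refine ⟨n0, fun n k hn hk1 hk2 F hF hTF hcard => ?_⟩
  obtain ⟨l1, l2, l3, l4⟩ := hn0 n hn
  have hnpos : 0 < n := by omega
  have hnR : (0 : ℝ) < n := by exact_mod_cast hnpos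
  have hkR : (0 : ℝ) < k := lt_of_lt_of_le (by positivity) hk1
  have hdR : (1 : ℝ) ≤ d := by exact_mod_cast hd
  obtain ⟨p, hp1, hp2, hp3, hp4, hp5, hp6⟩ := hchoose d n k ζ z F hd hζ hz hz1 hnpos hk1 hk2 hF
    hcard
  have hpc : p ≤ 1 := by nlinarith
  have hp0 : 0 ≤ p := by linarith
  have hkn : k < n := by
    have h1 : (d : ℝ) / (d + 1) ≤ 1 := by
      rw [div_le_one (by linarith)]; linarith
    have h2 : (k : ℝ) < n := by nlinarith
    exact_mod_cast h2
  -- the vertex `x`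
  obtain ⟨x, hxU, hx⟩ := hM (Fin n) univ p (Real.sqrt (((d : ℝ) + 2) * n))
    ((1 + 1 / (d : ℝ)) * k + ζ * k) (up F) (by linarith) hp2 (by positivity)
    (by
      rw [Real.sq_sqrt (by positivity), Finset.card_univ, Fintype.card_fin]
      have : 0 < ((d : ℝ) + 2) * n := by positivity
      linarith)
    (by
      rw [Finset.card_univ, Fintype.card_fin]
      have hc : ((d : ℝ) + 1) / d = 1 + 1 / d := by field_simp
      rw [hc]
      have hc2 : 1 / (d : ℝ) ≤ 1 := by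
        rw [div_le_one (by linarith)]; exact hdR
      have hc3 : 0 ≤ 1 / (d : ℝ) := by positivity
      have e1 : (1 + 1 / (d : ℝ)) * p * n ≤ (1 + 1 / (d : ℝ)) * ((1 + 2 * z) * k) := by
        rw [mul_assoc]
        exact mul_le_mul_of_nonneg_left hp4 (by linarith)
      have e2 : (1 + 1 / (d : ℝ)) * ((1 + 2 * z) * k) ≤ (1 + 1 / (d : ℝ)) * k + 4 * z * k := by
        have : (1 / (d : ℝ)) * (2 * z * k) ≤ 1 * (2 * z * k) :=
          mul_le_mul_of_nonneg_right hc2 (by positivity)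
        nlinarith
      have e3 : 4 * z * k ≤ ζ / 2 * k := by
        have : 4 * z ≤ ζ / 2 := by linarith
        exact mul_le_mul_of_nonneg_right this hkR.le
      have e4 : ζ ^ 2 * n / 2 ≤ ζ * k / 2 := by
        have := mul_le_mul_of_nonneg_left hk1 hζ.le
        nlinarith
      linarith)
    (up_bool F) (up_monotone F)
    (by
      intro S _ hS he hX
      choose A hA hAS using fun i => up_eq_one.1 (hS i)
      refine hTF A hA (fun y => ?_) ?_
      · obtain ⟨i, hi⟩ := he y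
        exact ⟨i, fun h => hi (hAS i h)⟩
      · refine le_trans ?_ hX
        have : univ.biUnion A ⊆ univ.biUnion S := by
          intro y hy
          rw [Finset.mem_biUnion] at hy ⊢
          obtain ⟨i, hi, hy⟩ := hy
          exact ⟨i, hi, hAS i hy⟩
        exact_mod_cast Finset.card_le_card this)
    hp5
    (by linarith)
  refine ⟨x, ?_⟩
  -- the density argument
  have hcU : ((univ : Finset (Fin n)).erase x).card = n - 1 := by
    rw [Finset.card_erase_of_mem (Finset.mem_univ x), Finset.card_univ, Fintype.card_fin]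
  have hsub : (F.filter fun A => x ∉ A) ⊆ (univ.erase x).powersetCard k := by
    intro A hA
    rw [Finset.mem_filter] at hA
    rw [Finset.mem_powersetCard]
    refine ⟨fun y hy => ?_, hF A hA.1⟩
    rw [Finset.mem_erase]
    exact ⟨fun h => hA.2 (h ▸ hy), Finset.mem_univ y⟩
  have h1 := hdens (Fin n) (univ.erase x) k (F.filter fun A => x ∉ A) p hp0 hpc hsub
    (by rw [hcU]; omega)
  have h2 : ex p (univ.erase x) (up (F.filter fun A => x ∉ A)) ≤ ex p (univ.erase x) (up F) := by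
    apply ex_mono hp0 hpc
    intro S _
    rcases up_bool (F.filter fun A => x ∉ A) S with h | h
    · rw [h]
      rcases up_bool F S with h' | h' <;> rw [h']
      exact zero_le_one
    · obtain ⟨A, hA, hAS⟩ := up_eq_one.1 h
      rw [h, up_eq_one.2 ⟨A, (Finset.mem_filter.1 hA).1, hAS⟩]
  have hn1 : ((n - 1 : ℕ) : ℝ) = (n : ℝ) - 1 := by
    rw [Nat.cast_sub (by omega), Nat.cast_one]
  have hgap : z * ζ * n / 2 ≤ p * ((n : ℝ) - 1) - k := by
    have e1 : z * ζ * n ≤ z * k := by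
      rw [mul_assoc]; exact mul_le_mul_of_nonneg_left hk1 hz.le
    linarith
  have hgpos : 0 < z * ζ * n / 2 := by positivity
  have h3 := htail (Fin n) (univ.erase x) k p hp0 hpc (by rw [hcU, hn1]; linarith)
  rw [hcU, hn1] at h3
  have h4 : ((n : ℝ) - 1) / (4 * (p * ((n : ℝ) - 1) - k) ^ 2) ≤ 1 / 2 := by
    have e1 : (z * ζ * n / 2) ^ 2 ≤ (p * ((n : ℝ) - 1) - k) ^ 2 :=
      pow_le_pow_left₀ hgpos.le hgap 2
    rw [div_le_iff₀ (by positivity)] at l4
    rw [div_le_iff₀ (by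
      have : 0 < p * ((n : ℝ) - 1) - k := by linarith
      positivity)]
    nlinarith
  have h5 : (1 : ℝ) / 2 ≤ ex p (univ.erase x) (fun S => if k ≤ S.card then 1 else 0) := by
    linarith
  rw [hcU] at h1
  have hC : (0 : ℝ) < (n - 1).choose k := by
    exact_mod_cast Nat.choose_pos (by omega)
  have h6 : ((F.filter fun A => x ∉ A).card : ℝ) / (n - 1).choose k * (1 / 2) ≤ η / 2 := by
    refine le_trans (mul_le_mul_of_nonneg_left h5 (by positivity)) (le_trans h1 (le_trans h2 hx))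
  have h7 : ((F.filter fun A => x ∉ A).card : ℝ) / (n - 1).choose k ≤ η := by linarith
  rwa [div_le_iff₀ hC] at h7

end Pool.Agent.Lib.MP_b0b8df_co.Lin
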