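import Pool.Agent.Lib.MP_b0b8df_co.Lin.Stm

/-!
# MP_b0b8df_co, linear range: the Bonami lemma (fourth moment, biased cube)
-/

set_option autoImplicit false

namespace Pool.Agent.Lib.MP_b0b8df_co.Lin

open Finset

variable {α : Type} [DecidableEq α]

private lemma bonami_moment {U : Finset α} {x : α} (hx : x ∉ U) (p : ℝ) (g h : Finset α → ℝ)
    (hg : ∀ S ⊆ U, g (insert x S) = g S) (hh : ∀ S ⊆ U, h (insert x S) = h S) :
    ex p (insert x U) (fun S => (g S + ps p x S * h S) ^ 4) =
      ex p U (fun S => g S ^ 4) + 6 * (p * (1 - p)) * ex p U (fun S => g S ^ 2 * h S ^ 2) +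
      4 * ((p * (1 - p)) * (1 - 2 * p)) * ex p U (fun S => g S * h S ^ 3) +
      (p * (1 - p)) * (1 - 3 * (p * (1 - p))) * ex p U (fun S => h S ^ 4) := by
  have h0 := ex_insert_ps (p := p) hx 0 (fun S => g S ^ 4) (fun S hS => by
    show g (insert x S) ^ 4 = g S ^ 4
    rw [hg S hS])
  have h1 := ex_insert_ps (p := p) hx 1 (fun S => g S ^ 3 * h S) (fun S hS => by
    show g (insert x S) ^ 3 * h (insert x S) = g S ^ 3 * h S
    rw [hg S hS, hh S hS])
  have h2 := ex_insert_ps (p := p) hx 2 (fun S => g S ^ 2 * h S ^ 2) (fun S hS => by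
    show g (insert x S) ^ 2 * h (insert x S) ^ 2 = g S ^ 2 * h S ^ 2
    rw [hg S hS, hh S hS])
  have h3 := ex_insert_ps (p := p) hx 3 (fun S => g S * h S ^ 3) (fun S hS => by
    show g (insert x S) * h (insert x S) ^ 3 = g S * h S ^ 3
    rw [hg S hS, hh S hS])
  have h4 := ex_insert_ps (p := p) hx 4 (fun S => h S ^ 4) (fun S hS => by
    show h (insert x S) ^ 4 = h S ^ 4
    rw [hh S hS])
  have e : (fun S => (g S + ps p x S * h S) ^ 4) = (fun S =>
      (ps p x S ^ 0 * g S ^ 4 + 4 * (ps p x S ^ 1 * (g S ^ 3 * h S))) +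
      (6 * (ps p x S ^ 2 * (g S ^ 2 * h S ^ 2)) + (4 * (ps p x S ^ 3 * (g S * h S ^ 3)) +
        ps p x S ^ 4 * h S ^ 4))) := by
    funext S; ring
  rw [e, ex_add, ex_add, ex_add, ex_add, ex_mul_left, ex_mul_left, ex_mul_left, h0, h1, h2, h3, h4]
  ring

theorem p_bonami : S_bonami := by
  intro α _ U p κ Dg c hp0 hp1 hκ hs hc
  have hs0 : 0 < p * (1 - p) := mul_pos hp0 (by linarith)
  have hκ0 : 0 < κ := by linarith
  have hκ1 : 1 ≤ κ := by linarith
  induction U using Finset.induction_on generalizing Dg c with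
  | empty =>
    have e1 : pl p c ∅ ∅ = c ∅ := by simp [pl]
    have e2 : sqs (p * (1 - p)) ∅ (fun _ => True) c = c ∅ ^ 2 := by
      unfold sqs
      simp
    rw [ex_empty, e1, e2]
    have h1 : 1 ≤ κ ^ (2 * Dg) := one_le_pow₀ hκ1
    have h2 : 0 ≤ c ∅ ^ 4 := by positivity
    nlinarith
  | insert x U hx ih =>
    have hcU : ∀ T ⊆ U, Dg < T.card → c T = 0 := fun T hT h =>
      hc T (hT.trans (Finset.subset_insert x U)) h
    have ihg := ih Dg c hcU
    have hmom := bonami_moment hx p (pl p c U) (pl p (fun T => c (insert x T)) U)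
      (fun S _ => pl_insert_right hx S) (fun S _ => pl_insert_right hx S)
    have e1 : (fun S => pl p c (insert x U) S ^ 4) = (fun S =>
        (pl p c U S + ps p x S * pl p (fun T => c (insert x T)) U S) ^ 4) := by
      funext S; rw [pl_insert hx]
    rw [e1, hmom, sqs_insert hx]
    rcases Nat.eq_zero_or_pos Dg with hD | hD
    · subst hD
      have hz : ∀ S, pl p (fun T => c (insert x T)) U S = 0 := by
        intro S
        unfold pl
        apply Finset.sum_eq_zero
        intro T hT
        rw [Finset.mem_powerset] at hT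
        show c (insert x T) * chi p T S = 0
        rw [hc (insert x T) (Finset.insert_subset_insert x hT)
          (Finset.card_pos.2 (Finset.insert_nonempty x T)), zero_mul]
      have e2 : sqs (p * (1 - p)) U (fun T => True) (fun T => c (insert x T)) = 0 := by
        unfold sqs
        apply Finset.sum_eq_zero
        intro T hT
        have hT' : T ⊆ U := Finset.mem_powerset.1 ((@Finset.mem_filter _ _ (_) _ _).1 hT).1
        show c (insert x T) ^ 2 * _ = 0
        rw [hc (insert x T) (Finset.insert_subset_insert x hT')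
          (Finset.card_pos.2 (Finset.insert_nonempty x T))]
        simp
      simp only [hz]
      rw [e2]
      have e3 : ex p U (fun S => pl p c U S ^ 2 * (0 : ℝ) ^ 2) = 0 := by
        have := ex_const (p := p) (0 : ℝ) U
        simpa using this
      have e4 : ex p U (fun S => pl p c U S * (0 : ℝ) ^ 3) = 0 := by
        have := ex_const (p := p) (0 : ℝ) U
        simpa using this
      have e5 : ex p U (fun _ => (0 : ℝ) ^ 4) = 0 := by
        have := ex_const (p := p) (0 : ℝ) U
        simpa using this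
      rw [e3, e4, e5]
      simpa using ihg
    · obtain ⟨D', rfl⟩ : ∃ D', Dg = D' + 1 := ⟨Dg - 1, by omega⟩
      have hc' : ∀ T ⊆ U, D' < T.card → (fun T => c (insert x T)) T = 0 := by
        intro T hT h
        show c (insert x T) = 0
        apply hc (insert x T) (Finset.insert_subset_insert x hT)
        rw [Finset.card_insert_of_notMem (fun h' => hx (hT h'))]
        omega
      have ihh := ih D' (fun T => c (insert x T)) hc'
      set g := pl p c U with hg
      set h := pl p (fun T => c (insert x T)) U with hh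
      set G := sqs (p * (1 - p)) U (fun _ => True) c with hG
      set H := sqs (p * (1 - p)) U (fun _ => True) (fun T => c (insert x T)) with hH
      have hG0 : 0 ≤ G := sqs_nonneg hs0.le _ _ _
      have hH0 : 0 ≤ H := sqs_nonneg hs0.le _ _ _
      set s := p * (1 - p) with hsdef
      have hA0 : 0 ≤ ex p U (fun S => g S ^ 4) :=
        ex_nonneg hp0.le hp1.le (fun S _ => by positivity)
      have hB0 : 0 ≤ ex p U (fun S => h S ^ 4) :=
        ex_nonneg hp0.le hp1.le (fun S _ => by positivity)
      have hM0 : 0 ≤ ex p U (fun S => g S ^ 2 * h S ^ 2) :=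
        ex_nonneg hp0.le hp1.le (fun S _ => by positivity)
      -- the mixed third moment
      have hmix : 4 * (1 - 2 * p) * ex p U (fun S => g S * h S ^ 3) ≤
          2 * ex p U (fun S => g S ^ 2 * h S ^ 2) + 2 * ex p U (fun S => h S ^ 4) := by
        rw [← ex_mul_left, ← ex_mul_left, ← ex_mul_left, ← ex_add]
        apply ex_mono hp0.le hp1.le
        intro S _
        have h1 : (g S * h S ^ 3) = h S ^ 2 * (g S * h S) := by ring
        have h2 : 2 * (g S ^ 2 * h S ^ 2) + 2 * h S ^ 4 = h S ^ 2 * (2 * g S ^ 2 + 2 * h S ^ 2) := by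
          ring
        show 4 * (1 - 2 * p) * (g S * h S ^ 3) ≤ 2 * (g S ^ 2 * h S ^ 2) + 2 * h S ^ 4
        rw [h1, h2, mul_left_comm]
        apply mul_le_mul_of_nonneg_left _ (sq_nonneg _)
        have h3 : |4 * (1 - 2 * p) * (g S * h S)| ≤ 4 * |g S * h S| := by
          rw [abs_mul]
          apply mul_le_mul_of_nonneg_right _ (abs_nonneg _)
          rw [abs_le]
          constructor <;> linarith
        have h4 : 2 * |g S * h S| ≤ g S ^ 2 + h S ^ 2 := by
          rw [abs_mul]
          nlinarith [sq_nonneg (|g S| - |h S|), sq_abs (g S), sq_abs (h S)]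
        have h5 := le_abs_self (4 * (1 - 2 * p) * (g S * h S))
        linarith
      -- Cauchy Schwarz
      have hcs : ex p U (fun S => g S ^ 2 * h S ^ 2) ≤ κ ^ (2 * D' + 1) * (G * H) := by
        have h1 := ex_cs hp0.le hp1.le (U := U) (fun S => g S ^ 2) (fun S => h S ^ 2)
        have e2 : (fun S => (g S ^ 2) ^ 2) = (fun S => g S ^ 4) := by funext S; ring
        have e3 : (fun S => (h S ^ 2) ^ 2) = (fun S => h S ^ 4) := by funext S; ring
        rw [e2, e3] at h1
        have h2 : ex p U (fun S => g S ^ 4) * ex p U (fun S => h S ^ 4) ≤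
            (κ ^ (2 * (D' + 1)) * G ^ 2) * (κ ^ (2 * D') * H ^ 2) :=
          mul_le_mul ihg ihh hB0 (by positivity)
        have h3 : (κ ^ (2 * (D' + 1)) * G ^ 2) * (κ ^ (2 * D') * H ^ 2) =
            (κ ^ (2 * D' + 1) * (G * H)) ^ 2 := by ring
        rw [h3] at h2
        exact (pow_le_pow_iff_left₀ hM0 (by positivity) (by norm_num)).1 (h1.trans h2)
      have hK : 0 < κ ^ (2 * D') := by positivity
      have hKe1 : κ ^ (2 * D' + 1) = κ ^ (2 * D') * κ := by rw [pow_succ]
      have hKe2 : κ ^ (2 * (D' + 1)) = κ ^ (2 * D') * κ ^ 2 := by ring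
      rw [hKe2] at ihg ⊢
      rw [hKe1] at hcs
      set K := κ ^ (2 * D') with hKdef
      set A := ex p U (fun S => g S ^ 4)
      set B := ex p U (fun S => h S ^ 4)
      set M := ex p U (fun S => g S ^ 2 * h S ^ 2)
      set X := ex p U (fun S => g S * h S ^ 3)
      have t1 : 4 * (s * (1 - 2 * p)) * X ≤ s * (2 * M + 2 * B) := by
        have : 4 * (s * (1 - 2 * p)) * X = s * (4 * (1 - 2 * p) * X) := by ring
        rw [this]
        exact mul_le_mul_of_nonneg_left hmix hs0.le
      have t2 : s * (1 - 3 * s) * B ≤ s * B := by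
        apply mul_le_mul_of_nonneg_right _ hB0
        nlinarith
      have t3 : 8 * s * M ≤ 8 * s * (K * κ * (G * H)) :=
        mul_le_mul_of_nonneg_left hcs (by positivity)
      have t4 : 3 * s * B ≤ 3 * s * (K * H ^ 2) :=
        mul_le_mul_of_nonneg_left ihh (by positivity)
      have t5 : 8 * s * (K * κ * (G * H)) ≤ K * κ ^ 2 * (2 * s * G * H) := by
        have : K * κ ^ 2 * (2 * s * G * H) - 8 * s * (K * κ * (G * H)) =
          2 * s * K * κ * (G * H) * (κ - 4) := by ring
        have h6 : 0 ≤ 2 * s * K * κ * (G * H) * (κ - 4) :=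
          mul_nonneg (by positivity) (by linarith)
        linarith
      have t6 : 3 * s * (K * H ^ 2) ≤ K * κ ^ 2 * (s ^ 2 * H ^ 2) := by
        have : K * κ ^ 2 * (s ^ 2 * H ^ 2) - 3 * s * (K * H ^ 2) =
          s * K * H ^ 2 * (κ ^ 2 * s - 3) := by ring
        have h6 : 0 ≤ s * K * H ^ 2 * (κ ^ 2 * s - 3) :=
          mul_nonneg (by positivity) (by linarith)
        linarith
      have t7 : K * κ ^ 2 * (G + s * H) ^ 2 =
          K * κ ^ 2 * G ^ 2 + K * κ ^ 2 * (2 * s * G * H) + K * κ ^ 2 * (s ^ 2 * H ^ 2) := by ring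
      show A + 6 * s * M + 4 * (s * (1 - 2 * p)) * X + s * (1 - 3 * s) * B ≤
        K * κ ^ 2 * (G + s * H) ^ 2
      rw [t7]
      nlinarith [t1, t2, t3, t4, t5, t6, ihg]

end Pool.Agent.Lib.MP_b0b8df_co.Lin
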