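import Pool.Agent.Lib.MP_b0b8df_co.Lin.Stm

/-!
# MP_b0b8df_co, linear range: the piece boot
-/

set_option autoImplicit false

namespace Pool.Agent.Lib.MP_b0b8df_co.Lin

open Finset

private lemma boot_tuple {N k d w : ℕ} {ζ : ℝ} {F : Finset (Finset (Fin (N + 1)))}
    {x : Fin (N + 1)} (hT : TupleFree d k ζ F) {ℬ ℳ : Finset (Finset (Fin N))}
    (hℬ : ∀ B, B ∈ ℬ ↔ B.map x.succAboveEmb ∈ F)
    (hℳ : ∀ B, B ∈ ℳ ↔ B.card = k - 1 ∧ insert x (B.map x.succAboveEmb) ∉ F)
    (hw : ((w : ℝ) + 1 ≤ (1 + 1 / (d : ℝ)) * k + ζ * k))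
    (S : Finset (Fin N)) (A : Fin d → Finset (Fin N)) (hS : ∃ B ∈ ℬ, B ⊆ S)
    (hA : ∀ i, (A i).card = k - 1) (he : ∀ e, e ∉ S ∨ ∃ i, e ∉ A i)
    (hc : (S ∪ univ.biUnion A).card ≤ w) : ∃ i, A i ∈ ℳ := by
  classical
  by_contra hcon
  push Not at hcon
  obtain ⟨B, hB, hBS⟩ := hS
  have hins : ∀ i, insert x ((A i).map x.succAboveEmb) ∈ F := by
    intro i
    by_contra h1
    exact hcon i ((hℳ _).2 ⟨hA i, h1⟩)
  refine hT (Fin.cons (B.map x.succAboveEmb)
    (fun i => insert x ((A i).map x.succAboveEmb))) ?_ ?_ ?_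
  · intro i
    refine Fin.cases ?_ ?_ i
    · simpa using (hℬ B).1 hB
    · intro j
      simpa using hins j
  · intro y
    rcases eq_or_ne y x with rfl | hyx
    · refine ⟨0, ?_⟩
      rw [Fin.cons_zero, Finset.mem_map]
      rintro ⟨e, _, hee⟩
      exact Fin.succAbove_ne _ e hee
    · obtain ⟨e, rfl⟩ := Fin.exists_succAbove_eq hyx
      rcases he e with h1 | ⟨i, hi⟩
      · refine ⟨0, ?_⟩
        rw [Fin.cons_zero, Finset.mem_map]
        rintro ⟨e', he', hee⟩
        have h2 : e' = e := Fin.succAbove_right_injective hee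
        rw [h2] at he'
        exact h1 (hBS he')
      · refine ⟨i.succ, ?_⟩
        rw [Fin.cons_succ, Finset.mem_insert, Finset.mem_map]
        rintro (h2 | ⟨e', he', hee⟩)
        · exact Fin.succAbove_ne _ e h2
        · have h2 : e' = e := Fin.succAbove_right_injective hee
          rw [h2] at he'
          exact hi he'
  · have hsub : (univ.biUnion (Fin.cons (B.map x.succAboveEmb)
        (fun i => insert x ((A i).map x.succAboveEmb)) : Fin (d + 1) → Finset (Fin (N + 1)))) ⊆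
        insert x ((S ∪ univ.biUnion A).map x.succAboveEmb) := by
      intro y hy
      rw [Finset.mem_biUnion] at hy
      obtain ⟨i, _, hi⟩ := hy
      rw [Finset.mem_insert, Finset.mem_map]
      revert hi
      refine Fin.cases ?_ ?_ i
      · rw [Fin.cons_zero, Finset.mem_map]
        rintro ⟨e, he1, he2⟩
        exact Or.inr ⟨e, Finset.mem_union_left _ (hBS he1), he2⟩
      · intro j
        rw [Fin.cons_succ, Finset.mem_insert, Finset.mem_map]
        rintro (h1 | ⟨e, he1, he2⟩)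
        · exact Or.inl h1
        · refine Or.inr ⟨e, Finset.mem_union_right _ ?_, he2⟩
          rw [Finset.mem_biUnion]
          exact ⟨j, Finset.mem_univ _, he1⟩
    have h1 := Finset.card_le_card hsub
    have h2 := Finset.card_insert_le x ((S ∪ univ.biUnion A).map x.succAboveEmb)
    rw [Finset.card_map] at h2
    have h3 : (univ.biUnion (Fin.cons (B.map x.succAboveEmb)
        (fun i => insert x ((A i).map x.succAboveEmb)) :
          Fin (d + 1) → Finset (Fin (N + 1)))).card ≤ w + 1 := by omega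
    have h4 : ((univ.biUnion (Fin.cons (B.map x.succAboveEmb)
        (fun i => insert x ((A i).map x.succAboveEmb)) :
          Fin (d + 1) → Finset (Fin (N + 1)))).card : ℝ) ≤ (w : ℝ) + 1 := by exact_mod_cast h3
    exact h4.trans hw

theorem p_boot (hG1 : S_G1) (hG2 : S_G2) (hmiss : S_miss) (hbootnum : S_bootnum) : S_boot := by
  classical
  intro d ζ hd hζ
  obtain ⟨lam, n0, hlam, hnum⟩ := hbootnum d ζ hd hζ
  have hΛ : 0 < (d : ℝ) / ζ + 1 := by positivity
  obtain ⟨η, N0, hη, hG⟩ := hG2 lam ((d : ℝ) / ζ + 1) hlam hΛ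
  refine ⟨η, max n0 (N0 + 1), hη, ?_⟩
  intro n k hn hk1 hk2 F x hF hT hcard hsmall
  have hn0 : n0 < n := lt_of_le_of_lt (le_max_left _ _) hn
  have hN0 : N0 + 1 < n := lt_of_le_of_lt (le_max_right _ _) hn
  obtain ⟨N, rfl⟩ : ∃ N, n = N + 1 := ⟨n - 1, by omega⟩
  obtain ⟨h, w, h1, h2, h3, h4, h5, h6, h7, h8⟩ := hnum (N + 1) k hn0 hk1 hk2
  rw [Nat.add_sub_cancel] at hcard hsmall h1 h2 h3 h7
  have hk : 1 ≤ k := by
    by_contra hcon
    have hk0 : k = 0 := by omega
    rw [hk0] at hk1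
    push_cast at hk1
    have : 0 < ζ * ((N : ℝ) + 1) := by positivity
    linarith
  obtain ⟨ℬ, ℳ, hℬ, hℳ, hℬc, hℳc⟩ := hmiss N k F x hk hF
  intro A0 hA0
  by_contra hxA
  have hbpos : 0 < ℬ.card := by
    rw [hℬc]
    exact Finset.card_pos.2 ⟨A0, Finset.mem_filter.2 ⟨hA0, hxA⟩⟩
  have hne : ℬ.Nonempty := Finset.card_pos.1 hbpos
  have hMB : ℳ.card ≤ ℬ.card := by omega
  have hℬk : ∀ B ∈ ℬ, B.card = k := by
    intro B hB
    have := hF _ ((hℬ B).1 hB)
    rwa [Finset.card_map] at this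
  obtain ⟨𝒢, h𝒢⟩ : ∃ 𝒢, 𝒢 = ((univ : Finset (Fin N)).powersetCard (k + h)).filter
    fun S => ∃ B ∈ ℬ, B ⊆ S := ⟨_, rfl⟩
  have hG1' := hG1 N (k + h) (k - 1) d w 𝒢 ℳ h5 h6 h7 h4
    (by
      intro S hS
      rw [h𝒢, Finset.mem_filter, Finset.mem_powersetCard] at hS
      exact hS.1.2)
    (fun B hB => ((hℳ B).1 hB).1)
    (by
      intro S A hS hA he hc
      rw [h𝒢, Finset.mem_filter] at hS
      exact boot_tuple hT hℬ hℳ h8 S A hS.2 hA he hc)
  have hG2' := hG N k h ℬ (by omega) h2 h1 h3 hℬk hne (by rw [hℬc]; exact hsmall)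
  rw [← h𝒢] at hG2'
  -- the contradiction
  have hCpos : 0 < N.choose (k + h) := Nat.choose_pos h3
  have hid : N.choose k * k = N.choose (k - 1) * (N - (k - 1)) := by
    have := Nat.choose_succ_right_eq N (k - 1)
    rwa [Nat.sub_add_cancel hk] at this
  have hC1pos : 0 < N.choose (k - 1) := Nat.choose_pos (by omega)
  have hbR : (0 : ℝ) < ℬ.card := by exact_mod_cast hbpos
  have hCR : (0 : ℝ) < N.choose (k + h) := by exact_mod_cast hCpos
  have hC1R : (0 : ℝ) < N.choose (k - 1) := by exact_mod_cast hC1pos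
  have hkR : (0 : ℝ) < k := by exact_mod_cast hk
  -- C(N,k) ≤ C(N,k-1) / ζ
  have hCk : (N.choose k : ℝ) * ζ ≤ N.choose (k - 1) := by
    have e1 : (N.choose k : ℝ) * k ≤ N.choose (k - 1) * ((N : ℝ) + 1) := by
      have : N.choose k * k ≤ N.choose (k - 1) * (N + 1) := by
        rw [hid]
        exact Nat.mul_le_mul_left _ (by omega)
      exact_mod_cast this
    have e2 : ζ * ((N : ℝ) + 1) ≤ k := by
      have := hk1
      push_cast at this
      exact this
    have e3 : (N.choose k : ℝ) * ζ * k ≤ N.choose (k - 1) * k := by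
      calc (N.choose k : ℝ) * ζ * k = ζ * ((N.choose k : ℝ) * k) := by ring
        _ ≤ ζ * (N.choose (k - 1) * ((N : ℝ) + 1)) := mul_le_mul_of_nonneg_left e1 hζ.le
        _ = N.choose (k - 1) * (ζ * ((N : ℝ) + 1)) := by ring
        _ ≤ N.choose (k - 1) * k := mul_le_mul_of_nonneg_left e2 hC1R.le
    exact le_of_mul_le_mul_right e3 hkR
  have hG1R : (𝒢.card : ℝ) * N.choose (k - 1) ≤ d * ℬ.card * N.choose (k + h) := by
    have : 𝒢.card * N.choose (k - 1) ≤ d * ℬ.card * N.choose (k + h) :=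
      hG1'.trans (Nat.mul_le_mul_right _ (Nat.mul_le_mul_left _ hMB))
    exact_mod_cast this
  have hkey : ((d : ℝ) / ζ + 1) * N.choose (k - 1) ≤ d * N.choose k := by
    have e1 : (((d : ℝ) / ζ + 1) * N.choose (k - 1)) * (ℬ.card * N.choose (k + h)) ≤
        (d * N.choose k) * (ℬ.card * N.choose (k + h)) := by
      calc (((d : ℝ) / ζ + 1) * N.choose (k - 1)) * (ℬ.card * N.choose (k + h))
          = (((d : ℝ) / ζ + 1) * (ℬ.card * N.choose (k + h))) * N.choose (k - 1) := by ring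
        _ ≤ (𝒢.card * N.choose k) * N.choose (k - 1) :=
            mul_le_mul_of_nonneg_right hG2' hC1R.le
        _ = (𝒢.card * N.choose (k - 1)) * N.choose k := by ring
        _ ≤ (d * ℬ.card * N.choose (k + h)) * N.choose k :=
            mul_le_mul_of_nonneg_right hG1R (by positivity)
        _ = (d * N.choose k) * (ℬ.card * N.choose (k + h)) := by ring
    exact le_of_mul_le_mul_right e1 (by positivity)
  have hfin : (d : ℝ) * N.choose k ≤ (d : ℝ) / ζ * N.choose (k - 1) := by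
    have e1 : (N.choose k : ℝ) ≤ N.choose (k - 1) / ζ := by
      rw [le_div_iff₀ hζ]; exact hCk
    calc (d : ℝ) * N.choose k ≤ d * (N.choose (k - 1) / ζ) :=
          mul_le_mul_of_nonneg_left e1 (by positivity)
      _ = (d : ℝ) / ζ * N.choose (k - 1) := by ring
  nlinarith

end Pool.Agent.Lib.MP_b0b8df_co.Lin
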