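import Pool.Agent.Lib.MP_b0b8df_co.Lin.Stm

set_option autoImplicit false

namespace Pool.Agent.Lib.MP_b0b8df_co.Lin

open Finset

theorem p_bootnum : S_bootnum := by
  intro d ζ hd hζ
  have hd0 : (0 : ℝ) < d := by exact_mod_cast hd
  have hd1 : (1 : ℝ) ≤ d := by exact_mod_cast hd
  set z : ℝ := min (ζ / 2) (1 / (2 * d)) with hz
  have hz0 : 0 < z := lt_min (by positivity) (by positivity)
  have hz1 : z ≤ ζ / 2 := min_le_left _ _
  have hz2 : z ≤ 1 / (2 * (d : ℝ)) := min_le_right _ _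
  have hz3 : z * d ≤ 1 / 2 := by
    have := mul_le_mul_of_nonneg_right hz2 hd0.le
    have e : 1 / (2 * (d : ℝ)) * d = 1 / 2 := by field_simp
    linarith
  have hz4 : z ≤ 1 / 2 := by nlinarith
  refine ⟨z * ζ / 2, ⌈2 / (z * ζ)⌉₊ + ⌈2 * d / ζ⌉₊ + ⌈2 / ζ ^ 2⌉₊ + ⌈2 / ζ⌉₊, by positivity, ?_⟩
  intro n k hn hk1 hk2
  have c1 : 2 / (z * ζ) ≤ n := (Nat.le_ceil _).trans (by
    have : ⌈2 / (z * ζ)⌉₊ ≤ n := by omega
    exact_mod_cast this)
  have c2 : 2 * d / ζ ≤ n := (Nat.le_ceil _).trans (by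
    have : ⌈2 * d / ζ⌉₊ ≤ n := by omega
    exact_mod_cast this)
  have c3 : 2 / ζ ^ 2 ≤ n := (Nat.le_ceil _).trans (by
    have : ⌈2 / ζ ^ 2⌉₊ ≤ n := by omega
    exact_mod_cast this)
  have c4 : 2 / ζ ≤ n := (Nat.le_ceil _).trans (by
    have : ⌈2 / ζ⌉₊ ≤ n := by omega
    exact_mod_cast this)
  rw [div_le_iff₀ (by positivity)] at c1 c2 c3 c4
  have hn0 : 0 < n := by omega
  have hn1 : (1 : ℝ) ≤ n := by exact_mod_cast hn0
  have hk0 : (0 : ℝ) < k := lt_of_lt_of_le (by positivity) hk1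
  have hk0' : 0 < k := by exact_mod_cast hk0
  have hkn : (k : ℝ) ≤ n := by
    have h1 : (d : ℝ) / (d + 1) ≤ 1 := by
      rw [div_le_one (by positivity)]; linarith
    calc (k : ℝ) ≤ ((d : ℝ) / (d + 1) - ζ) * n := hk2
      _ ≤ 1 * n := mul_le_mul_of_nonneg_right (by linarith) (by positivity)
      _ = n := one_mul _
  have hk3 : (1 + 1 / (d : ℝ)) * k ≤ n - ζ * n := by
    have h1 := mul_le_mul_of_nonneg_left hk2 (show (0 : ℝ) ≤ 1 + 1 / d by positivity)
    have e : (1 + 1 / (d : ℝ)) * (((d : ℝ) / (d + 1) - ζ) * n) = n - ζ * n - ζ * n / d := by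
      field_simp
      ring
    have h2 : 0 ≤ ζ * n / d := by positivity
    linarith
  set h : ℕ := ⌊z * k⌋₊ with hh
  have h1 : (h : ℝ) ≤ z * k := Nat.floor_le (by positivity)
  have h2 : z * k < h + 1 := Nat.lt_floor_add_one _
  set q : ℕ := (k + h + d - 1) / d with hq
  have q1 : k + h ≤ d * q := by
    have := Nat.lt_mul_div_succ (k + h + d - 1) (show 0 < d by omega)
    have e : d * ((k + h + d - 1) / d + 1) = d * q + d := by rw [hq]; ring
    omega
  have q2 : d * q ≤ k + h + d - 1 := Nat.mul_div_le _ _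
  have q3 : (d : ℝ) * q ≤ k + h + d - 1 := by
    have : d * q + 1 ≤ k + h + d := by omega
    have h3 : ((d * q + 1 : ℕ) : ℝ) ≤ ((k + h + d : ℕ) : ℝ) := by exact_mod_cast this
    push_cast at h3
    linarith
  have q4 : (q : ℝ) ≤ (k + z * k) / d + 1 := by
    have h3 : (q : ℝ) * d ≤ ((k + z * k) / d + 1) * d := by
      have e : ((k + z * k) / d + 1) * (d : ℝ) = k + z * k + d := by field_simp
      rw [e]
      nlinarith
    exact le_of_mul_le_mul_right h3 hd0
  have q5 : (k + z * k) / (d : ℝ) ≤ 1 / d * k + z * k := by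
    have e : (k + z * k) / (d : ℝ) = 1 / d * k + z * k / d := by ring
    rw [e]
    have : z * k / (d : ℝ) ≤ z * k := div_le_self (by positivity) hd1
    linarith
  have hkq : k + h ≤ k - 1 + q := by
    have h3 : d * (h + 1) ≤ k + h := by
      have h4 : (d : ℝ) * (h + 1) ≤ k := by
        have h5 : (d : ℝ) * h ≤ k / 2 := by
          calc (d : ℝ) * h ≤ d * (z * k) := mul_le_mul_of_nonneg_left h1 hd0.le
            _ = (z * d) * k := by ring
            _ ≤ 1 / 2 * k := mul_le_mul_of_nonneg_right hz3 hk0.le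
            _ = k / 2 := by ring
        have h6 : (d : ℝ) ≤ k / 2 := by linarith
        linarith
      have h7 : d * (h + 1) ≤ k := by exact_mod_cast h4
      omega
    have h4 : d * (h + 1) ≤ d * q := h3.trans q1
    have h5 : h + 1 ≤ q := Nat.le_of_mul_le_mul_left h4 (by omega)
    omega
  have hw : ((k - 1 + q : ℕ) : ℝ) + 1 = k + q := by
    have : k - 1 + q + 1 = k + q := by omega
    exact_mod_cast this
  have hzk : z * k ≤ ζ / 2 * k := mul_le_mul_of_nonneg_right hz1 hk0.le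
  have hwn : k - 1 + q ≤ n - 1 := by
    have h3 : ((k - 1 + q : ℕ) : ℝ) + 1 ≤ n := by
      rw [hw]
      have h4 : z * k ≤ ζ / 2 * n := hzk.trans (mul_le_mul_of_nonneg_left hkn (by positivity))
      have e1 : (1 + 1 / (d : ℝ)) * k = k + 1 / d * k := by ring
      have e2 : ζ / 2 * (n : ℝ) = ζ * n / 2 := by ring
      have e3 : (n : ℝ) * ζ = ζ * n := by ring
      rw [e1] at hk3
      rw [e2] at h4
      rw [e3] at c4
      linarith
    have h4 : k - 1 + q + 1 ≤ n := by exact_mod_cast h3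
    omega
  have hn2 : ((n - 1 : ℕ) : ℝ) ≤ n := by
    have : n - 1 ≤ n := by omega
    exact_mod_cast this
  have hlam : z * ζ / 2 * ((n - 1 : ℕ) : ℝ) ≤ z * ζ / 2 * n :=
    mul_le_mul_of_nonneg_left hn2 (by positivity)
  refine ⟨h, k - 1 + q, ?_, ?_, hkq.trans hwn, ?_, hkq, by omega, hwn, ?_⟩
  · have h3 : z * (ζ * n) ≤ z * k := mul_le_mul_of_nonneg_left hk1 hz0.le
    have e1 : z * (ζ * n) = z * ζ * n := by ring
    have e2 : (n : ℝ) * (z * ζ) = z * ζ * n := by ring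
    have e3 : z * ζ / 2 * (n : ℝ) = z * ζ * n / 2 := by ring
    rw [e1] at h3
    rw [e2] at c1
    rw [e3] at hlam
    linarith
  · refine hlam.trans (le_trans ?_ hk1)
    have : z * ζ / 2 * n = z / 2 * (ζ * n) := by ring
    rw [this]
    have h3 : 0 ≤ ζ * n := by positivity
    have h4 : z / 2 ≤ 1 := by linarith
    calc z / 2 * (ζ * n) ≤ 1 * (ζ * n) := mul_le_mul_of_nonneg_right h4 h3
      _ = ζ * n := one_mul _
  · rw [Nat.mul_add]; omega
  · rw [hw]
    have h3 : ζ * (ζ * n) ≤ ζ * k := mul_le_mul_of_nonneg_left hk1 hζ.le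
    have e1 : ζ * (ζ * n) = n * ζ ^ 2 := by ring
    have e2 : (1 + 1 / (d : ℝ)) * k = k + 1 / d * k := by ring
    have e3 : ζ / 2 * (k : ℝ) = ζ * k / 2 := by ring
    rw [e1] at h3
    rw [e3] at hzk
    rw [e2]
    linarith

end Pool.Agent.Lib.MP_b0b8df_co.Lin
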