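import Pool.Agent.Lib.MP_b0b8df_co.Lin.Stm

/-!
# MP_b0b8df_co, linear range: piece cheb

Variance of the cardinality of a random subset, and the inequality of Chebyshev.
-/

set_option autoImplicit false

namespace Pool.Agent.Lib.MP_b0b8df_co.Lin

open Finset

private theorem cheb_var {α : Type} [DecidableEq α] (p : ℝ) (U : Finset α) :
    ex p U (fun S => ((S.card : ℝ) - p * U.card) ^ 2) = U.card * (p * (1 - p)) := by
  induction U using Finset.induction_on with
  | empty => simp
  | insert x U hx ih =>
    rw [ex_insert hx, ← ex_mul_left, ← ex_mul_left, ← ex_add]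
    have h : ex p U (fun S => p * (((insert x S).card : ℝ) - p * (insert x U).card) ^ 2 +
        (1 - p) * ((S.card : ℝ) - p * (insert x U).card) ^ 2) =
        ex p U (fun S => ((S.card : ℝ) - p * U.card) ^ 2 + p * (1 - p)) := by
      apply ex_congr
      intro S hS
      rw [card_insert_of_notMem hx, card_insert_of_notMem (fun h => hx (hS h))]
      push_cast
      ring
    rw [h, ex_add, ih, ex_const, card_insert_of_notMem hx]
    push_cast
    ring

theorem p_cheb : S_cheb := by
  intro α _ U p
  refine ⟨cheb_var p U, ?_⟩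
  intro t hp0 hp1 ht
  have h1 : ex p U (fun S => if t ≤ |(S.card : ℝ) - p * U.card| then (1 : ℝ) else 0) ≤
      ex p U (fun S => (1 / t ^ 2) * ((S.card : ℝ) - p * U.card) ^ 2) := by
    apply ex_mono hp0 hp1
    intro S _
    split_ifs with h
    · rw [one_div, ← div_eq_inv_mul, le_div_iff₀ (by positivity), one_mul]
      rw [← sq_abs ((S.card : ℝ) - p * U.card)]
      exact pow_le_pow_left₀ ht.le h 2
    · positivity
  rw [ex_mul_left, cheb_var] at h1
  refine h1.trans ?_
  have h2 : p * (1 - p) ≤ 1 / 4 := by nlinarith [sq_nonneg (p - 1 / 2)]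
  have h3 : (U.card : ℝ) * (p * (1 - p)) ≤ U.card * (1 / 4) :=
    mul_le_mul_of_nonneg_left h2 (by positivity)
  calc 1 / t ^ 2 * ((U.card : ℝ) * (p * (1 - p))) ≤ 1 / t ^ 2 * (U.card * (1 / 4)) :=
        mul_le_mul_of_nonneg_left h3 (by positivity)
    _ = U.card / (4 * t ^ 2) := by field_simp

end Pool.Agent.Lib.MP_b0b8df_co.Lin
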