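import Pool.Agent.Lib.MP_b0b8df_co.Lin.Stm

/-! piece choose (helper83) -/

set_option autoImplicit false

namespace Pool.Agent.Lib.MP_b0b8df_co.Lin

open Finset

theorem p_choose (hmvt : S_mvt) (hdens : S_dens) (htail : S_tail) : S_choose := by
  intro d n k ζ z F hd hζ hz hzζ hn hk1 hk2 hF hcard
  have hn' : (0 : ℝ) < n := by exact_mod_cast hn
  have hd' : (1 : ℝ) ≤ d := by exact_mod_cast hd
  have hd1 : (0 : ℝ) < (d : ℝ) + 1 := by linarith
  obtain ⟨κ, hκ⟩ : ∃ κ : ℝ, κ = (k : ℝ) / n := ⟨_, rfl⟩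
  have hκn : κ * n = k := by rw [hκ]; field_simp
  have hκ1 : ζ ≤ κ := by rw [hκ, le_div_iff₀ hn']; exact hk1
  have hκ2 : κ ≤ (d : ℝ) / (d + 1) - ζ := by rw [hκ, div_le_iff₀ hn']; exact hk2
  have hdd : (d : ℝ) / (d + 1) < 1 := by rw [div_lt_one hd1]; linarith
  have hκ0 : 0 < κ := by linarith
  have hκle : κ ≤ 1 := by linarith
  have hzκ : z * κ ≤ z := by nlinarith
  have hzζκ : z * ζ ≤ z * κ := mul_le_mul_of_nonneg_left hκ1 hz.le
  have hzζ0 : 0 < z * ζ := mul_pos hz hζ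
  have hab : (1 + z) * κ < (1 + 2 * z) * κ := by nlinarith
  obtain ⟨p, ⟨hp1, hp2⟩, hp3⟩ := hmvt (Fin n) (univ : Finset (Fin n)) (up F) _ _ hab
  have hb1 : (1 + 2 * z) * κ ≤ κ + 2 * z := by nlinarith
  have ha0 : 0 ≤ (1 + z) * κ := by positivity
  have hb2 : (1 + 2 * z) * κ ≤ 1 := by linarith
  have hp0 : 0 ≤ p := by linarith
  have hple : p ≤ 1 := by linarith
  have u0 : ∀ S, 0 ≤ up F S := fun S => by rcases up_bool F S with h | h <;> rw [h]; norm_num
  have u1 : ∀ S, up F S ≤ 1 := fun S => by rcases up_bool F S with h | h <;> rw [h]; norm_num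
  refine ⟨p, ?_, ?_, ?_, ?_, ?_, ?_⟩
  · nlinarith
  · have h1 : p + ζ / 2 ≤ (d : ℝ) / (d + 1) := by linarith
    calc ((d : ℝ) + 1) * (p + ζ / 2) ≤ ((d : ℝ) + 1) * ((d : ℝ) / (d + 1)) :=
          mul_le_mul_of_nonneg_left h1 hd1.le
      _ = d := by field_simp
  · have := mul_le_mul_of_nonneg_right hp1.le hn'.le
    calc (1 + z) * k = (1 + z) * κ * n := by rw [mul_assoc, hκn]
      _ ≤ _ := this
  · have := mul_le_mul_of_nonneg_right hp2.le hn'.le
    calc p * n ≤ (1 + 2 * z) * κ * n := this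
      _ = _ := by rw [mul_assoc, hκn]
  · have h1 : ex ((1 + 2 * z) * κ) univ (up F) ≤ 1 := ex_le_one (by linarith) hb2 fun S _ => u1 S
    have h2 : 0 ≤ ex ((1 + z) * κ) univ (up F) := ex_nonneg ha0 (by linarith) fun S _ => u0 S
    have h3 : (∑ i ∈ (univ : Finset (Fin n)), ex p univ (D i (up F))) * (z * κ) ≤ 1 := by
      have e : (1 + 2 * z) * κ - (1 + z) * κ = z * κ := by ring
      rw [e] at hp3
      linarith
    rw [le_div_iff₀ hzζ0]
    by_cases hs : 0 ≤ ∑ i ∈ (univ : Finset (Fin n)), ex p univ (D i (up F))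
    · exact le_trans (mul_le_mul_of_nonneg_left hzζκ hs) h3
    · push Not at hs
      nlinarith
  · have hcU : (univ : Finset (Fin n)).card = n := by simp
    have hkn : k ≤ n := by
      have : (k : ℝ) ≤ n := by
        rw [← hκn]; nlinarith
      exact_mod_cast this
    have hk0 : 0 < k := by
      have : (0 : ℝ) < k := by rw [← hκn]; positivity
      exact_mod_cast this
    have hFU : F ⊆ (univ : Finset (Fin n)).powersetCard k := by
      intro A hA
      rw [Finset.mem_powersetCard]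
      exact ⟨Finset.subset_univ A, hF A hA⟩
    have h1 := hdens (Fin n) univ k F p hp0 hple hFU (by rw [hcU]; exact hkn)
    have hpk : z * ζ * n ≤ p * n - k := by
      have e1 : (1 + z) * κ * n ≤ p * n := mul_le_mul_of_nonneg_right hp1.le hn'.le
      have e2 : (1 + z) * κ * n = k + z * κ * n := by
        have : (1 + z) * κ * n = κ * n + z * κ * n := by ring
        rw [this, hκn]
      have e3 : z * ζ * n ≤ z * κ * n := mul_le_mul_of_nonneg_right hzζκ hn'.le
      linarith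
    have hpos : 0 < z * ζ * n := mul_pos hzζ0 hn'
    have h2 := htail (Fin n) univ k p hp0 hple (by rw [hcU]; linarith)
    rw [hcU] at h1 h2
    obtain ⟨T, hT⟩ : ∃ T, T = ex p (univ : Finset (Fin n)) (fun S => if k ≤ S.card then 1 else 0) :=
      ⟨_, rfl⟩
    rw [← hT] at h1 h2
    have hT0 : 0 ≤ T := by
      rw [hT]
      exact ex_nonneg hp0 hple fun S _ => by split_ifs <;> norm_num
    have h3 : (n : ℝ) / (4 * (p * n - k) ^ 2) ≤ 1 / (4 * z ^ 2 * ζ ^ 2 * n) := by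
      have e1 : (z * ζ * n) ^ 2 ≤ (p * n - k) ^ 2 := pow_le_pow_left₀ hpos.le hpk 2
      have e2 : (n : ℝ) / (4 * (p * n - k) ^ 2) ≤ n / (4 * (z * ζ * n) ^ 2) := by
        apply div_le_div_of_nonneg_left hn'.le (by positivity)
        linarith
      have e3 : (n : ℝ) / (4 * (z * ζ * n) ^ 2) = 1 / (4 * z ^ 2 * ζ ^ 2 * n) := by
        field_simp
      linarith
    have h4 : κ ≤ (F.card : ℝ) / (n.choose k) := by
      have hC : (0 : ℝ) < n.choose k := by exact_mod_cast Nat.choose_pos hkn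
      rw [le_div_iff₀ hC]
      have e1 : (k : ℝ) * n.choose k = n * (n - 1).choose (k - 1) := by
        have := Nat.add_one_mul_choose_eq (n - 1) (k - 1)
        rw [Nat.sub_add_cancel hn, Nat.sub_add_cancel hk0] at this
        have h' : (n : ℝ) * ((n - 1).choose (k - 1)) = (n.choose k) * k := by exact_mod_cast this
        linarith
      have e2 : (((n - 1).choose (k - 1) : ℕ) : ℝ) ≤ F.card := by exact_mod_cast hcard
      have e3 : κ * (n.choose k) = (n - 1).choose (k - 1) := by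
        rw [hκ, div_mul_eq_mul_div, e1]
        field_simp
      rw [e3]
      exact e2
    have h5 : κ * T ≤ ex p univ (up F) := le_trans (mul_le_mul_of_nonneg_right h4 hT0) h1
    have h6 : 1 - 1 / (4 * z ^ 2 * ζ ^ 2 * n) ≤ T := by linarith
    have h7 : 0 ≤ 1 / (4 * z ^ 2 * ζ ^ 2 * (n : ℝ)) := by positivity
    have h8 : κ * (1 - 1 / (4 * z ^ 2 * ζ ^ 2 * n)) ≤ κ * T := mul_le_mul_of_nonneg_left h6 hκ0.le
    have h9 : κ * (1 / (4 * z ^ 2 * ζ ^ 2 * n)) ≤ 1 / (4 * z ^ 2 * ζ ^ 2 * n) := by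
      calc κ * (1 / (4 * z ^ 2 * ζ ^ 2 * n)) ≤ 1 * (1 / (4 * z ^ 2 * ζ ^ 2 * n)) :=
            mul_le_mul_of_nonneg_right hκle h7
        _ = _ := one_mul _
    have h10 : κ * (1 - 1 / (4 * z ^ 2 * ζ ^ 2 * n)) = κ - κ * (1 / (4 * z ^ 2 * ζ ^ 2 * n)) := by
      ring
    linarith

end Pool.Agent.Lib.MP_b0b8df_co.Lin
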