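import Pool.Agent.Lib.MP_b0b8df_co.Lin.Stm

/-!
# MP_b0b8df_co, linear range: the conditional variance (piece cond)
-/

set_option autoImplicit false

namespace Pool.Agent.Lib.MP_b0b8df_co.Lin

open Finset

variable {α : Type} [DecidableEq α]

/-- integrating out the coordinates of `W` keeps exactly the coefficients inside `J` -/
private lemma cond_pl {p : ℝ} {J R : Finset α} (hR : R ⊆ J) (c : Finset α → ℝ) :
    ∀ W : Finset α, Disjoint J W →
      ex p W (fun S => pl p c (J ∪ W) (R ∪ S)) = pl p c J R := by
  intro W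
  induction W using Finset.induction_on with
  | empty => intro _; simp
  | insert x W hx ih =>
    intro hd
    rw [Finset.disjoint_insert_right] at hd
    have h1 : x ∉ J ∪ W := by
      rw [Finset.mem_union]; push Not; exact ⟨hd.1, hx⟩
    have hxR : x ∉ R := fun h => hd.1 (hR h)
    rw [Finset.union_insert, ex_insert hx]
    have e1 : ex p W (fun S => pl p c (insert x (J ∪ W)) (R ∪ insert x S)) =
        ex p W (fun S => pl p c (J ∪ W) (R ∪ S)) +
          (1 - p) * ex p W (fun S => pl p (fun T => c (insert x T)) (J ∪ W) (R ∪ S)) := by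
      rw [← ex_mul_left, ← ex_add]
      apply ex_congr
      intro S _
      rw [Finset.union_insert, pl_insert h1, pl_insert_right h1, pl_insert_right h1]
      simp [ps]
    have e2 : ex p W (fun S => pl p c (insert x (J ∪ W)) (R ∪ S)) =
        ex p W (fun S => pl p c (J ∪ W) (R ∪ S)) +
          (-p) * ex p W (fun S => pl p (fun T => c (insert x T)) (J ∪ W) (R ∪ S)) := by
      rw [← ex_mul_left, ← ex_add]
      apply ex_congr
      intro S hS
      have hxS : x ∉ R ∪ S := by
        rw [Finset.mem_union]; push Not; exact ⟨hxR, fun h => hx (hS h)⟩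
      rw [pl_insert h1]
      simp only [ps, if_neg hxS]
      ring
    rw [e1, e2, ih hd.2]
    ring

private lemma cond_sqs {s : ℝ} {U J : Finset α} (hJ : J ⊆ U) (c : Finset α → ℝ) :
    sqs s J (fun _ => True) c = sqs s U (fun T => T ⊆ J) c := by
  classical
  unfold sqs
  apply Finset.sum_congr _ (fun _ _ => rfl)
  ext T
  simp only [Finset.mem_filter, Finset.mem_powerset, and_true]
  exact ⟨fun h => ⟨h.trans hJ, h⟩, fun h => h.2⟩

theorem p_cond (hparseval : S_parseval) : S_cond := by
  intro α _ U J p c φ hJ hφ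
  have hmm : ∀ R ⊆ J, mm p U J φ R = pl p c J R := by
    intro R hR
    have h := cond_pl (p := p) hR c (U \ J) Finset.disjoint_sdiff
    rw [Finset.union_sdiff_of_subset hJ] at h
    rw [← h]
    unfold mm
    apply ex_congr
    intro S hS
    exact hφ _ (Finset.union_subset (hR.trans hJ) (hS.trans Finset.sdiff_subset))
  rw [ex_sub]
  have e1 : ex p J (fun R => ex p (U \ J) (fun S => φ (R ∪ S) ^ 2)) =
      sqs (p * (1 - p)) U (fun _ => True) c := by
    rw [← hparseval α U p c, ← ex_split hJ (fun S => φ S ^ 2)]
    apply ex_congr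
    intro S hS
    rw [hφ S hS]
  have e2 : ex p J (fun R => mm p U J φ R ^ 2) = sqs (p * (1 - p)) U (fun T => T ⊆ J) c := by
    rw [← cond_sqs hJ c, ← hparseval α J p c]
    apply ex_congr
    intro R hR
    rw [hmm R hR]
  rw [e1, e2]
  have h3 := sqs_add_not (p * (1 - p)) U (fun _ => True) (fun T => T ⊆ J) c
  simp only [true_and] at h3
  linarith

end Pool.Agent.Lib.MP_b0b8df_co.Lin
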