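import Pool.Agent.Lib.MP_b0b8df_co.Lin.Stm

/-!
# MP_b0b8df_co, linear range: the coupling
-/

set_option autoImplicit false

namespace Pool.Agent.Lib.MP_b0b8df_co.Lin

open Finset

/-- the weights -/
noncomputable def couple_w (d : ℕ) (p : ℝ) : Option (Fin (d + 1)) → ℝ
  | none => 1 - ((d : ℝ) + 1) * (p / d)
  | some _ => p / d

lemma couple_sum (d : ℕ) (p : ℝ) : ∑ o, couple_w d p o = 1 := by
  rw [Fintype.sum_option]
  simp only [couple_w, Finset.sum_const, Finset.card_univ, Fintype.card_fin, nsmul_eq_mul]
  push_cast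
  ring

lemma couple_sum1 (d : ℕ) (p : ℝ) (hd : 1 ≤ d) (i : Fin (d + 1)) :
    ∑ o with (o ≠ none ∧ o ≠ some i), couple_w d p o = p := by
  rw [Finset.sum_filter, Fintype.sum_option]
  have h1 : ∀ j : Fin (d + 1), (if (some j ≠ none ∧ some j ≠ some i) then couple_w d p (some j)
      else 0) = if j ∈ univ.erase i then p / d else 0 := by
    intro j
    by_cases h : j = i <;> simp [h, couple_w]
  simp only [h1]
  rw [← Finset.sum_filter, Finset.filter_mem_eq_inter, Finset.univ_inter, Finset.sum_const,
    Finset.card_erase_of_mem (mem_univ i)]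
  have : (d : ℝ) ≠ 0 := by
    have : (1 : ℝ) ≤ d := by exact_mod_cast hd
    linarith
  simp
  field_simp

lemma couple_sum2 (d : ℕ) (p : ℝ) :
    ∑ o with o ≠ none, couple_w d p o = ((d : ℝ) + 1) * (p / d) := by
  rw [Finset.sum_filter, Fintype.sum_option]
  simp [couple_w]

/-- [LIN couple] -/
theorem p_couple (hpush : S_push) (hcheb : S_cheb) : S_couple := by
  intro α _ _ d W p θ t φ hd hp0 hp1 ht hB hE hs
  by_contra hcon
  push Not at hcon
  have hd' : (1 : ℝ) ≤ d := by exact_mod_cast hd
  have hd0 : (0 : ℝ) < d := by linarith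
  have hw0 : ∀ o, 0 ≤ couple_w d p o := by
    intro o
    cases o with
    | none =>
      show 0 ≤ 1 - ((d : ℝ) + 1) * (p / d)
      have : ((d : ℝ) + 1) * (p / d) = ((d : ℝ) + 1) * p / d := by ring
      rw [this, sub_nonneg, div_le_one hd0]
      exact hp1
    | some j =>
      show 0 ≤ p / d
      positivity
  set p' : ℝ := ((d : ℝ) + 1) * (p / d) with hp'
  have hp'0 : 0 ≤ p' := by rw [hp']; positivity
  have hp'1 : p' ≤ 1 := by
    have : p' = ((d : ℝ) + 1) * p / d := by rw [hp']; ring
    rw [this, div_le_one hd0]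
    exact hp1
  have hP0 : ∀ c : α → Option (Fin (d + 1)), 0 ≤ ∏ e, couple_w d p (c e) := fun c =>
    Finset.prod_nonneg fun e _ => hw0 _
  -- pointwise inequality
  have key : ∀ c : α → Option (Fin (d + 1)),
      1 ≤ ∑ i, (1 - φ i (W.filter fun e => c e ≠ none ∧ c e ≠ some i)) +
        (if t ≤ |((W.filter fun e => c e ≠ none).card : ℝ) - p' * W.card| then 1 else 0) := by
    intro c
    have h0 : ∀ i, 0 ≤ 1 - φ i (W.filter fun e => c e ≠ none ∧ c e ≠ some i) := by
      intro i
      rcases hB i (W.filter fun e => c e ≠ none ∧ c e ≠ some i) with h | h <;> rw [h] <;> norm_num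
    by_cases h1 : t ≤ |((W.filter fun e => c e ≠ none).card : ℝ) - p' * W.card|
    · rw [if_pos h1]
      have := Finset.sum_nonneg (s := univ) fun i _ => h0 i
      linarith
    · rw [if_neg h1]
      by_cases h2 : ∃ i, φ i (W.filter fun e => c e ≠ none ∧ c e ≠ some i) = 0
      · obtain ⟨i, hi⟩ := h2
        have := Finset.single_le_sum (f := fun i =>
          1 - φ i (W.filter fun e => c e ≠ none ∧ c e ≠ some i)) (fun i _ => h0 i) (mem_univ i)
        simp only [hi] at this
        linarith
      · exfalso
        push Not at h2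
        have h3 : ∀ i, φ i (W.filter fun e => c e ≠ none ∧ c e ≠ some i) = 1 := fun i =>
          (hB i _).resolve_left (h2 i)
        have h4 := hcon (fun i => W.filter fun e => c e ≠ none ∧ c e ≠ some i)
          (fun i => Finset.filter_subset _ _) h3
          (by
            intro e
            cases hc : c e with
            | none => exact ⟨0, by simp [hc]⟩
            | some j => exact ⟨j, by simp [hc]⟩)
        have h5 : (univ.biUnion fun i => W.filter fun e => c e ≠ none ∧ c e ≠ some i) ⊆
            W.filter fun e => c e ≠ none := by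
          intro e he
          rw [Finset.mem_biUnion] at he
          obtain ⟨i, _, he⟩ := he
          rw [Finset.mem_filter] at he ⊢
          exact ⟨he.1, he.2.1⟩
        have h6 : ((univ.biUnion fun i => W.filter fun e => c e ≠ none ∧ c e ≠ some i).card : ℝ) ≤
            ((W.filter fun e => c e ≠ none).card : ℝ) := by
          exact_mod_cast Finset.card_le_card h5
        rw [not_le, abs_lt] at h1
        have h7 : ((d : ℝ) + 1) / d * p * W.card = p' * W.card := by rw [hp']; ring
        rw [h7] at h4
        linarith [h1.2]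
  -- the expectations
  have e1 : ∀ i, ∑ c : α → Option (Fin (d + 1)), (∏ e, couple_w d p (c e)) *
      φ i (W.filter fun e => c e ≠ none ∧ c e ≠ some i) = ex p W (φ i) := by
    intro i
    have := hpush α (Option (Fin (d + 1))) (couple_w d p) (fun o => o ≠ none ∧ o ≠ some i) W (φ i)
      (couple_sum d p)
    rw [couple_sum1 d p hd i] at this
    exact this
  have e2 : ∑ c : α → Option (Fin (d + 1)), (∏ e, couple_w d p (c e)) *
      (if t ≤ |((W.filter fun e => c e ≠ none).card : ℝ) - p' * W.card| then (1 : ℝ) else 0) =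
      ex p' W (fun S => if t ≤ |(S.card : ℝ) - p' * W.card| then 1 else 0) := by
    have := hpush α (Option (Fin (d + 1))) (couple_w d p) (fun o => o ≠ none) W
      (fun S => if t ≤ |(S.card : ℝ) - p' * W.card| then 1 else 0) (couple_sum d p)
    rw [couple_sum2 d p] at this
    exact this
  have e3 : ∑ c : α → Option (Fin (d + 1)), (∏ e, couple_w d p (c e)) = 1 := by
    have := hpush α (Option (Fin (d + 1))) (couple_w d p) (fun o => o ≠ none) W
      (fun _ => 1) (couple_sum d p)
    rw [ex_const] at this
    simpa using this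
  have tot : (1 : ℝ) ≤ ∑ i, (1 - ex p W (φ i)) +
      ex p' W (fun S => if t ≤ |(S.card : ℝ) - p' * W.card| then 1 else 0) := by
    calc (1 : ℝ) = ∑ c : α → Option (Fin (d + 1)), (∏ e, couple_w d p (c e)) * 1 := by
          simp only [mul_one]; exact e3.symm
      _ ≤ ∑ c : α → Option (Fin (d + 1)), (∏ e, couple_w d p (c e)) *
          (∑ i, (1 - φ i (W.filter fun e => c e ≠ none ∧ c e ≠ some i)) +
          (if t ≤ |((W.filter fun e => c e ≠ none).card : ℝ) - p' * W.card| then 1 else 0)) :=
          Finset.sum_le_sum fun c _ => mul_le_mul_of_nonneg_left (key c) (hP0 c)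
      _ = _ := by
          simp only [mul_add, Finset.mul_sum, mul_sub, mul_one]
          rw [Finset.sum_add_distrib, e2, Finset.sum_comm]
          congr 1
          apply Finset.sum_congr rfl
          intro i _
          rw [Finset.sum_sub_distrib, e3, e1 i]
  have hch := (hcheb α W p').2 t hp'0 hp'1 ht
  have hsum : ∑ i, (1 - ex p W (φ i)) ≤ ((d : ℝ) + 1) * θ := by
    calc ∑ i, (1 - ex p W (φ i)) ≤ ∑ _i : Fin (d + 1), θ :=
          Finset.sum_le_sum fun i _ => by linarith [hE i]
      _ = ((d : ℝ) + 1) * θ := by simp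
  linarith

end Pool.Agent.Lib.MP_b0b8df_co.Lin
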