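import Pool.Agent.Lib.MP_b0b8df_co.Lin.Stm

/-!
# MP_b0b8df_co, linear range: a vertex of large degree
-/

set_option autoImplicit false

namespace Pool.Agent.Lib.MP_b0b8df_co.Lin

open Finset

private lemma deg_sum {n k : ℕ} (F : Finset (Finset (Fin n))) (hF : ∀ A ∈ F, A.card = k) :
    ∑ x : Fin n, (F.filter fun A => x ∈ A).card = F.card * k := by
  simp_rw [card_filter]
  rw [sum_comm]
  rw [← smul_eq_mul, ← sum_const]
  refine sum_congr rfl fun A hA => ?_
  rw [← hF A hA, ← card_filter]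
  congr 1
  ext x
  simp

theorem p_deg : S_deg := by
  intro n k F hk hkn hF hcard
  obtain ⟨m, rfl⟩ : ∃ m, n = m + 2 := ⟨n - 2, by omega⟩
  obtain ⟨j, rfl⟩ : ∃ j, k = j + 2 := ⟨k - 2, by omega⟩
  by_contra hcon
  push Not at hcon
  have e1 : m + 2 - 2 = m := by omega
  have e2 : j + 2 - 1 = j + 1 := by omega
  have e3 : m + 2 - 1 = m + 1 := by omega
  rw [e1, e2] at hcon
  rw [e2, e3] at hcard
  have hpascal : (m + 1).choose (j + 1) = m.choose j + m.choose (j + 1) := Nat.choose_succ_succ m j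
  have hdeg : ∀ x : Fin (m + 2), (F.filter fun A => x ∈ A).card ≤ m.choose j := by
    intro x
    have h1 := card_filter_add_card_filter_not (s := F) (fun A : Finset (Fin (m + 2)) => x ∈ A)
    have h2 := hcon x
    omega
  have hsum := deg_sum F hF
  have hle : ∑ x : Fin (m + 2), (F.filter fun A => x ∈ A).card ≤ (m + 2) * m.choose j := by
    calc ∑ x : Fin (m + 2), (F.filter fun A => x ∈ A).card
        ≤ ∑ _x : Fin (m + 2), m.choose j := sum_le_sum fun x _ => hdeg x
      _ = (m + 2) * m.choose j := by simp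
  rw [hsum, ← hcard] at hle
  have hid : (m + 1) * m.choose j = (m + 1).choose (j + 1) * (j + 1) := Nat.add_one_mul_choose_eq m j
  have hpos : 0 < (m + 1).choose (j + 1) := Nat.choose_pos (by omega)
  have h3 : (m + 1) * ((m + 1).choose (j + 1) * (j + 2)) ≤ (m + 2) * ((m + 1).choose (j + 1) * (j + 1)) := by
    calc (m + 1) * ((m + 1).choose (j + 1) * (j + 2)) ≤ (m + 1) * ((m + 2) * m.choose j) :=
          Nat.mul_le_mul_left _ hle
      _ = (m + 2) * ((m + 1) * m.choose j) := by ring
      _ = _ := by rw [hid]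
  have h4 : (m + 1).choose (j + 1) * ((m + 1) * (j + 2)) ≤ (m + 1).choose (j + 1) * ((m + 2) * (j + 1)) := by
    calc (m + 1).choose (j + 1) * ((m + 1) * (j + 2)) = (m + 1) * ((m + 1).choose (j + 1) * (j + 2)) := by ring
      _ ≤ _ := h3
      _ = _ := by ring
  have h5 := Nat.le_of_mul_le_mul_left h4 hpos
  nlinarith

end Pool.Agent.Lib.MP_b0b8df_co.Lin
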