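import Pool.Agent.Lib.MP_b0b8df_co.Lin.Stm

/-! piece dens (helper83) -/

set_option autoImplicit false

namespace Pool.Agent.Lib.MP_b0b8df_co.Lin

open Finset

theorem dens_ex {α : Type} [DecidableEq α] (p : ℝ) (U : Finset α) (φ : Finset α → ℝ) :
    ex p U φ = ∑ j ∈ range (U.card + 1), p ^ j * (1 - p) ^ (U.card - j) *
      ∑ S ∈ U.powersetCard j, φ S := by
  unfold ex
  rw [Finset.sum_powerset]
  apply Finset.sum_congr rfl
  intro j _
  rw [Finset.mul_sum]
  apply Finset.sum_congr rfl
  intro S hS
  rw [Finset.mem_powersetCard] at hS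
  rw [hS.2]

theorem dens_super {α : Type} [DecidableEq α] (U A : Finset α) (j k : ℕ) (hA : A ⊆ U)
    (hk : A.card = k) (hkj : k ≤ j) :
    (U.card - k).choose (j - k) ≤ ((U.powersetCard j).filter fun S => A ⊆ S).card := by
  have h1 : (U.card - k).choose (j - k) = ((U \ A).powersetCard (j - k)).card := by
    rw [Finset.card_powersetCard, Finset.card_sdiff_of_subset hA, hk]
  rw [h1]
  apply Finset.card_le_card_of_injOn (fun T => A ∪ T)
  · intro T hT
    have hT' := Finset.mem_powersetCard.1 (Finset.mem_coe.1 hT)
    have hd : Disjoint A T := by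
      rw [Finset.disjoint_left]
      intro x hx hxT
      exact (Finset.mem_sdiff.1 (hT'.1 hxT)).2 hx
    apply Finset.mem_coe.2
    rw [Finset.mem_filter, Finset.mem_powersetCard]
    refine ⟨⟨Finset.union_subset hA (hT'.1.trans Finset.sdiff_subset), ?_⟩,
      Finset.subset_union_left⟩
    show (A ∪ T).card = j
    rw [Finset.card_union_of_disjoint hd, hk, hT'.2]
    omega
  · intro T hT T' hT' h
    have hT := Finset.mem_powersetCard.1 (Finset.mem_coe.1 hT)
    have hT' := Finset.mem_powersetCard.1 (Finset.mem_coe.1 hT')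
    have h : A ∪ T = A ∪ T' := h
    ext x
    constructor
    · intro hx
      have hxA := (Finset.mem_sdiff.1 (hT.1 hx)).2
      have : x ∈ A ∪ T' := h ▸ Finset.mem_union_right A hx
      rcases Finset.mem_union.1 this with h3 | h3
      · exact absurd h3 hxA
      · exact h3
    · intro hx
      have hxA := (Finset.mem_sdiff.1 (hT'.1 hx)).2
      have : x ∈ A ∪ T := h.symm ▸ Finset.mem_union_right A hx
      rcases Finset.mem_union.1 this with h3 | h3
      · exact absurd h3 hxA
      · exact h3

theorem dens_level {α : Type} [DecidableEq α] (U : Finset α) (k j : ℕ) (F : Finset (Finset α))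
    (hF : F ⊆ U.powersetCard k) (hkj : k ≤ j) :
    (F.card : ℝ) * (U.card.choose j) ≤ (U.card.choose k) * ∑ S ∈ U.powersetCard j, up F S := by
  by_cases hj : j ≤ U.card
  swap
  · push Not at hj
    rw [Nat.choose_eq_zero_of_lt hj]
    have : 0 ≤ ∑ S ∈ U.powersetCard j, up F S := Finset.sum_nonneg fun S _ => by
      rcases up_bool F S with h | h <;> rw [h]; norm_num
    have := mul_nonneg (Nat.cast_nonneg (α := ℝ) (U.card.choose k)) this
    simpa using this
  have h1 : (F.card : ℝ) * ((U.card - k).choose (j - k)) ≤
      (j.choose k) * ∑ S ∈ U.powersetCard j, up F S := by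
    have e1 : (F.card : ℝ) * ((U.card - k).choose (j - k)) ≤
        ((∑ A ∈ F, ((U.powersetCard j).filter fun S => A ⊆ S).card : ℕ) : ℝ) := by
      have : F.card * ((U.card - k).choose (j - k)) ≤
          ∑ A ∈ F, ((U.powersetCard j).filter fun S => A ⊆ S).card := by
        rw [← smul_eq_mul, ← Finset.sum_const]
        apply Finset.sum_le_sum
        intro A hA
        have hA' := Finset.mem_powersetCard.1 (hF hA)
        exact dens_super U A j k hA'.1 hA'.2 hkj
      exact_mod_cast this
    have e2 : ∑ A ∈ F, ((U.powersetCard j).filter fun S => A ⊆ S).card =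
        ∑ S ∈ U.powersetCard j, (F.filter fun A => A ⊆ S).card := by
      simp only [Finset.card_filter]
      rw [Finset.sum_comm]
    have e3 : ((∑ S ∈ U.powersetCard j, (F.filter fun A => A ⊆ S).card : ℕ) : ℝ) ≤
        (j.choose k) * ∑ S ∈ U.powersetCard j, up F S := by
      rw [Nat.cast_sum, Finset.mul_sum]
      apply Finset.sum_le_sum
      intro S hS
      have hS' := Finset.mem_powersetCard.1 hS
      rcases up_bool F S with h | h
      · rw [h, mul_zero]
        have : (F.filter fun A => A ⊆ S) = ∅ := by
          rw [Finset.filter_eq_empty_iff]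
          intro A hA hAS
          have : up F S = 1 := up_eq_one.2 ⟨A, hA, hAS⟩
          rw [h] at this
          norm_num at this
        rw [this]; simp
      · rw [h, mul_one]
        have : (F.filter fun A => A ⊆ S).card ≤ j.choose k := by
          rw [← hS'.2, ← Finset.card_powersetCard]
          apply Finset.card_le_card
          intro A hA
          rw [Finset.mem_filter] at hA
          rw [Finset.mem_powersetCard]
          exact ⟨hA.2, (Finset.mem_powersetCard.1 (hF hA.1)).2⟩
        exact_mod_cast this
    rw [e2] at e1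
    exact e1.trans e3
  have hc : (0 : ℝ) < j.choose k := by exact_mod_cast Nat.choose_pos hkj
  have h2 : (U.card.choose j : ℝ) * (j.choose k) = (U.card.choose k) * ((U.card - k).choose (j - k)) := by
    exact_mod_cast Nat.choose_mul hkj
  have h3 := mul_le_mul_of_nonneg_left h1 (Nat.cast_nonneg (α := ℝ) (U.card.choose k))
  have h4 : (j.choose k : ℝ) * ((F.card : ℝ) * (U.card.choose j)) ≤
      (j.choose k : ℝ) * ((U.card.choose k) * ∑ S ∈ U.powersetCard j, up F S) := by
    calc (j.choose k : ℝ) * ((F.card : ℝ) * (U.card.choose j))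
        = F.card * ((U.card.choose j : ℝ) * (j.choose k)) := by ring
      _ = (U.card.choose k : ℝ) * (F.card * ((U.card - k).choose (j - k))) := by rw [h2]; ring
      _ ≤ _ := h3
      _ = _ := by ring
  exact le_of_mul_le_mul_left h4 hc

theorem p_dens : S_dens := by
  intro α _ U k F p hp0 hp1 hF hk
  have hC : (0 : ℝ) < U.card.choose k := by exact_mod_cast Nat.choose_pos hk
  rw [dens_ex, dens_ex, Finset.mul_sum]
  apply Finset.sum_le_sum
  intro j _
  have hw : 0 ≤ p ^ j * (1 - p) ^ (U.card - j) := by
    have : 0 ≤ 1 - p := by linarith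
    positivity
  have e : ∑ S ∈ U.powersetCard j, (if k ≤ S.card then (1 : ℝ) else 0) =
      if k ≤ j then (U.card.choose j : ℝ) else 0 := by
    rw [Finset.sum_congr rfl (g := fun _ => if k ≤ j then (1 : ℝ) else 0)
      (fun S hS => by rw [(Finset.mem_powersetCard.1 hS).2])]
    rw [Finset.sum_const, Finset.card_powersetCard]
    split_ifs <;> simp
  rw [e]
  have key : (F.card : ℝ) / (U.card.choose k) * (if k ≤ j then (U.card.choose j : ℝ) else 0) ≤
      ∑ S ∈ U.powersetCard j, up F S := by
    split_ifs with h
    · rw [div_mul_eq_mul_div, div_le_iff₀ hC, mul_comm (∑ S ∈ U.powersetCard j, up F S)]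
      exact dens_level U k j F hF h
    · rw [mul_zero]
      exact Finset.sum_nonneg fun S _ => by
        rcases up_bool F S with h | h <;> rw [h]; norm_num
  have := mul_le_mul_of_nonneg_left key hw
  calc _ = p ^ j * (1 - p) ^ (U.card - j) * ((F.card : ℝ) / (U.card.choose k) *
        (if k ≤ j then (U.card.choose j : ℝ) else 0)) := by ring
    _ ≤ _ := this

end Pool.Agent.Lib.MP_b0b8df_co.Lin
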