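import Pool.Agent.Lib.MP_b0b8df_co.Lin.Stm

/-!
# MP_b0b8df_co, linear range: the derivative of a polynomial
-/

set_option autoImplicit false

namespace Pool.Agent.Lib.MP_b0b8df_co.Lin

open Finset

theorem p_deriv : S_deriv := by
  intro α _ U p c φ i hi hφ S hS
  have hni : i ∉ U.erase i := Finset.notMem_erase i U
  have hU : insert i (U.erase i) = U := Finset.insert_erase hi
  have key : ∀ T : Finset α, pl p c U T = pl p c (U.erase i) T +
      ps p i T * pl p (fun T => c (insert i T)) (U.erase i) T := by
    intro T
    have := pl_insert (p := p) (c := c) hni T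
    rwa [hU] at this
  have her : ∀ c' : Finset α → ℝ, pl p c' (U.erase i) (S.erase i) = pl p c' (U.erase i) S := by
    intro c'
    by_cases h : i ∈ S
    · have := pl_insert_right (p := p) (c := c') hni (S.erase i)
      rw [Finset.insert_erase h] at this
      exact this.symm
    · rw [Finset.erase_eq_of_notMem h]
  have h1 : insert i S ⊆ U := Finset.insert_subset hi hS
  have h2 : S.erase i ⊆ U := (Finset.erase_subset _ _).trans hS
  unfold D
  rw [hφ _ h1, hφ _ h2, key, key, pl_insert_right hni, pl_insert_right hni, her, her]
  have e1 : ps p i (insert i S) = 1 - p := by simp [ps]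
  have e2 : ps p i (S.erase i) = 0 - p := by simp [ps]
  rw [e1, e2]
  ring

end Pool.Agent.Lib.MP_b0b8df_co.Lin
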