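import Pool.Agent.Lib.MP_b0b8df_co.Lin.Stm

/-!
# MP_b0b8df_co, linear range: the main step of the FKN theorem
-/

set_option autoImplicit false
set_option linter.unusedSectionVars false

namespace Pool.Agent.Lib.MP_b0b8df_co.Lin

open Finset

variable {α : Type} [DecidableEq α]

private lemma fknW_pl_neg {p : ℝ} (c : Finset α → ℝ) (U S : Finset α) :
    pl p (fun T => - c T) U S = - pl p c U S := by
  unfold pl
  rw [← Finset.sum_neg_distrib]
  exact Finset.sum_congr rfl fun T _ => by ring

private lemma fknW_sqs_true (s : ℝ) (U : Finset α) (c : Finset α → ℝ) :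
    sqs s U (fun _ => True) c = ∑ T ∈ U.powerset, c T ^ 2 * s ^ T.card := by
  classical
  unfold sqs
  rw [Finset.sum_filter]
  exact Finset.sum_congr rfl fun T _ => by simp

private lemma fknW_disj {p : ℝ} (hparseval : S_parseval) (U : Finset α) (a b : Finset α → ℝ)
    (hab : ∀ T, a T * b T = 0) : ex p U (fun S => pl p a U S * pl p b U S) = 0 := by
  have h1 := hparseval α U p (fun T => a T + b T)
  have h2 := hparseval α U p a
  have h3 := hparseval α U p b
  rw [fknW_sqs_true] at h1 h2 h3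
  have h4 : ∑ T ∈ U.powerset, (a T + b T) ^ 2 * (p * (1 - p)) ^ T.card =
      ∑ T ∈ U.powerset, a T ^ 2 * (p * (1 - p)) ^ T.card +
      ∑ T ∈ U.powerset, b T ^ 2 * (p * (1 - p)) ^ T.card := by
    rw [← Finset.sum_add_distrib]
    apply Finset.sum_congr rfl
    intro T _
    have := hab T
    linear_combination (2 * (p * (1 - p)) ^ T.card) * this
  have h5 : ex p U (fun S => pl p (fun T => a T + b T) U S ^ 2) =
      ex p U (fun S => pl p a U S ^ 2) + ex p U (fun S => pl p b U S ^ 2) +
      2 * ex p U (fun S => pl p a U S * pl p b U S) := by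
    rw [← ex_mul_left, ← ex_add, ← ex_add]
    apply ex_congr
    intro S _
    rw [pl_add]; ring
  rw [h1, h2, h3, h4] at h5
  linarith

theorem p_fknW (hparseval : S_parseval) (hbonami : S_bonami) (hsqdeg1 : S_sqdeg1) : S_fknW := by
  intro α _ U p κ δ c f hp0 hp1 hκ hs hbool hf hδ
  have hspos : 0 < p * (1 - p) := mul_pos hp0 (by linarith)
  obtain ⟨e, he, hsq⟩ := hsqdeg1 α U p c
  let c1 : Finset α → ℝ := fun T => if T.card ≤ 1 then c T else 0
  let c2 : Finset α → ℝ := fun T => if T.card ≤ 1 then 0 else c T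
  let r : Finset α → ℝ := fun T => if T.card = 2 then 2 * ∏ i ∈ T, c {i} else 0
  let e' : Finset α → ℝ := fun T => e T + - c1 T
  let l : Finset α → ℝ := fun S => pl p c1 U S
  let h : Finset α → ℝ := fun S => pl p c2 U S
  let R : Finset α → ℝ := fun S => pl p r U S
  have hfl : ∀ S ⊆ U, f S = l S + h S := by
    intro S hS
    rw [hf S hS]
    show pl p c U S = pl p c1 U S + pl p c2 U S
    rw [← pl_add]
    apply pl_congr
    intro T _
    show c T = (if T.card ≤ 1 then c T else 0) + (if T.card ≤ 1 then 0 else c T)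
    split_ifs <;> simp
  have hff : ∀ S, f S ^ 2 = f S := by
    intro S
    rcases hbool S with h0 | h0 <;> rw [h0] <;> norm_num
  change sqs (p * (1 - p)) U (fun _ => True) r ≤ 4 * κ ^ 3 * δ
  set W := sqs (p * (1 - p)) U (fun _ => True) r with hWdef
  have hW0 : 0 ≤ W := sqs_nonneg hspos.le _ _ _
  have hW : ex p U (fun S => R S ^ 2) = W := hparseval α U p r
  -- the high part
  have hh : ex p U (fun S => h S ^ 2) ≤ δ := by
    have h1 : ex p U (fun S => h S ^ 2) = _ := hparseval α U p c2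
    rw [h1]
    refine le_trans (le_of_eq ?_) hδ
    rw [fknW_sqs_true]
    classical
    unfold sqs
    rw [Finset.sum_filter]
    apply Finset.sum_congr rfl
    intro T _
    by_cases hT : T.card ≤ 1
    · have e1 : c2 T = 0 := if_pos hT
      rw [e1, if_neg (by omega)]; ring
    · have e1 : c2 T = c T := if_neg hT
      rw [e1, if_pos (by omega)]
  have hδ0 : 0 ≤ δ := le_trans (ex_nonneg hp0.le hp1.le fun S _ => sq_nonneg (h S)) hh
  -- the low part
  have hl2 : sqs (p * (1 - p)) U (fun _ => True) c1 ≤ 1 := by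
    have h1 : sqs (p * (1 - p)) U (fun _ => True) c1 ≤ sqs (p * (1 - p)) U (fun _ => True) c := by
      rw [fknW_sqs_true, fknW_sqs_true]
      apply Finset.sum_le_sum
      intro T _
      show (if T.card ≤ 1 then c T else 0) ^ 2 * (p * (1 - p)) ^ T.card ≤ _
      split_ifs
      · exact le_rfl
      · have : 0 ≤ c T ^ 2 * (p * (1 - p)) ^ T.card := by positivity
        simpa using this
    have h2 := hparseval α U p c
    rw [← h2] at h1
    refine h1.trans ?_
    apply ex_le_one hp0.le hp1.le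
    intro S hS
    rw [← hf S hS]
    rcases hbool S with h0 | h0 <;> rw [h0] <;> norm_num
  have hl20 : 0 ≤ sqs (p * (1 - p)) U (fun _ => True) c1 := sqs_nonneg hspos.le _ _ _
  have hl4 : ex p U (fun S => l S ^ 4) ≤ κ ^ 2 := by
    have h1 := hbonami α U p κ 1 c1 hp0 hp1 hκ hs (by
      intro T _ hT
      show (if T.card ≤ 1 then c T else 0) = 0
      rw [if_neg (by omega)])
    refine h1.trans ?_
    have : (sqs (p * (1 - p)) U (fun _ => True) c1) ^ 2 ≤ 1 := pow_le_one₀ hl20 hl2
    have hκ2 : 0 ≤ κ ^ (2 * 1) := by positivity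
    calc κ ^ (2 * 1) * (sqs (p * (1 - p)) U (fun _ => True) c1) ^ 2 ≤ κ ^ (2 * 1) * 1 :=
          mul_le_mul_of_nonneg_left this hκ2
      _ = κ ^ 2 := by norm_num
  have hR4 : ex p U (fun S => R S ^ 4) ≤ κ ^ 4 * W ^ 2 := by
    have h1 := hbonami α U p κ 2 r hp0 hp1 hκ hs (by
      intro T _ hT
      show (if T.card = 2 then 2 * ∏ i ∈ T, c {i} else 0) = 0
      rw [if_neg (by omega)])
    exact h1
  -- the identity for W
  have hll : ∀ S ⊆ U, l S ^ 2 - l S = pl p e' U S + R S := by
    intro S hS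
    have h1 : l S ^ 2 = pl p e U S + R S := hsq S hS
    have h2 : pl p e' U S = pl p e U S + - l S := by
      show pl p (fun T => e T + - c1 T) U S = pl p e U S + - pl p c1 U S
      rw [pl_add, fknW_pl_neg]
    rw [h1, h2]; ring
  have hzero : ex p U (fun S => pl p e' U S * R S) = 0 := by
    apply fknW_disj hparseval
    intro T
    show (e T + - (if T.card ≤ 1 then c T else 0)) *
      (if T.card = 2 then 2 * ∏ i ∈ T, c {i} else 0) = 0
    by_cases hT : T.card = 2
    · rw [he T (by omega), if_neg (by omega)]; simp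
    · rw [if_neg hT]; simp
  have hWid : W = ex p U (fun S => h S * ((1 - l S - f S) * R S)) := by
    have h1 : ex p U (fun S => h S * ((1 - l S - f S) * R S)) =
        ex p U (fun S => pl p e' U S * R S) + ex p U (fun S => R S ^ 2) := by
      rw [← ex_add]
      apply ex_congr
      intro S hS
      have h2 := hll S hS
      have h3 := hff S
      have h4 := hfl S hS
      have h5 : h S * (1 - l S - f S) = l S ^ 2 - l S := by
        have h6 : l S = f S - h S := by linarith
        rw [h6]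
        linear_combination (-1 : ℝ) * h3
      calc h S * ((1 - l S - f S) * R S) = (h S * (1 - l S - f S)) * R S := by ring
        _ = (l S ^ 2 - l S) * R S := by rw [h5]
        _ = _ := by rw [h2]; ring
    rw [h1, hzero, hW, zero_add]
  set X := ex p U (fun S => ((1 - l S - f S) * R S) ^ 2) with hX
  have hX0 : 0 ≤ X := ex_nonneg hp0.le hp1.le fun S _ => sq_nonneg _
  have hcs1 : W ^ 2 ≤ δ * X := by
    have h1 := ex_cs hp0.le hp1.le (U := U) h (fun S => (1 - l S - f S) * R S)
    rw [← hWid] at h1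
    exact h1.trans (mul_le_mul_of_nonneg_right hh hX0)
  have hcs2 : X ^ 2 ≤ (16 * κ ^ 2) * (κ ^ 4 * W ^ 2) := by
    have h1 := ex_cs hp0.le hp1.le (U := U) (fun S => (1 - l S - f S) ^ 2) (fun S => R S ^ 2)
    have h2 : ex p U (fun S => (1 - l S - f S) ^ 2 * R S ^ 2) = X :=
      ex_congr fun S _ => by ring
    have h3 : ex p U (fun S => ((1 - l S - f S) ^ 2) ^ 2) ≤ 16 * κ ^ 2 := by
      have h4 : ex p U (fun S => ((1 - l S - f S) ^ 2) ^ 2) ≤
          ex p U (fun S => 8 + 8 * l S ^ 4) := by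
        apply ex_mono hp0.le hp1.le
        intro S _
        have h5 : ((1 - l S - f S) ^ 2) ^ 2 ≤ 8 * ((1 - f S) ^ 4 + l S ^ 4) := by
          nlinarith [sq_nonneg ((1 - f S) + l S), sq_nonneg ((1 - f S) ^ 2 - l S ^ 2),
            mul_nonneg (sq_nonneg ((1 - f S) + l S)) (sq_nonneg ((1 - f S) + l S)),
            mul_nonneg (sq_nonneg ((1 - f S) + l S)) (sq_nonneg ((1 - f S) - l S))]
        rcases hbool S with h0 | h0 <;> rw [h0] at h5 ⊢ <;> nlinarith [sq_nonneg (l S ^ 2)]
      refine h4.trans ?_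
      rw [ex_add (fun _ => (8 : ℝ)) (fun S => 8 * l S ^ 4), ex_const, ex_mul_left]
      nlinarith
    have h6 : ex p U (fun S => (R S ^ 2) ^ 2) ≤ κ ^ 4 * W ^ 2 := by
      refine le_trans (le_of_eq ?_) hR4
      exact ex_congr fun S _ => by ring
    rw [h2] at h1
    refine h1.trans (mul_le_mul h3 h6 (ex_nonneg hp0.le hp1.le fun S _ => sq_nonneg _) (by positivity))
  have hW4 : W ^ 4 ≤ δ ^ 2 * ((16 * κ ^ 2) * (κ ^ 4 * W ^ 2)) := by
    calc W ^ 4 = (W ^ 2) ^ 2 := by ring
      _ ≤ (δ * X) ^ 2 := pow_le_pow_left₀ (sq_nonneg W) hcs1 2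
      _ = δ ^ 2 * X ^ 2 := by ring
      _ ≤ _ := mul_le_mul_of_nonneg_left hcs2 (sq_nonneg δ)
  rcases eq_or_lt_of_le hW0 with h0 | h0
  · rw [← h0]; positivity
  · have h7 : W ^ 2 ≤ (4 * κ ^ 3 * δ) ^ 2 := by
      have h8 : 0 < W ^ 2 := by positivity
      have h9 : W ^ 2 * W ^ 2 ≤ (4 * κ ^ 3 * δ) ^ 2 * W ^ 2 := by
        calc W ^ 2 * W ^ 2 = W ^ 4 := by ring
          _ ≤ _ := hW4
          _ = _ := by ring
      exact le_of_mul_le_mul_right h9 h8
    exact le_of_sq_le_sq h7 (by positivity)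

end Pool.Agent.Lib.MP_b0b8df_co.Lin
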