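import Pool.Agent.Lib.MP_b0b8df_co.Lin.Stm

/-!
# MP_b0b8df_co, linear range: piece fknsum
-/

set_option autoImplicit false
set_option linter.unusedSectionVars false

namespace Pool.Agent.Lib.MP_b0b8df_co.Lin

open Finset

variable {α : Type} [DecidableEq α]

private lemma fknsum_zero (s : ℝ) (U : Finset α) (P : Finset α → Prop) (c : Finset α → ℝ)
    (h0 : P ∅) (h : ∀ T ⊆ U, P T → T.card = 0) : sqs s U P c = c ∅ ^ 2 := by
  classical
  unfold sqs
  rw [Finset.sum_filter]
  rw [Finset.sum_eq_single_of_mem (∅ : Finset α) (Finset.empty_mem_powerset U)]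
  · simp [h0]
  · intro T hT hne
    rw [Finset.mem_powerset] at hT
    rw [if_neg]
    intro hP
    exact hne (Finset.card_eq_zero.1 (h T hT hP))

private lemma fknsum_one (s : ℝ) (c : Finset α → ℝ) (U : Finset α) :
    sqs s U (fun T => T.card = 1) c = ∑ i ∈ U, c {i} ^ 2 * s := by
  classical
  induction U using Finset.induction_on generalizing c with
  | empty =>
    unfold sqs
    simp [Finset.sum_filter]
  | insert x U hx ih =>
    rw [sqs_insert hx, ih, Finset.sum_insert hx]
    have h : sqs s U (fun T => (insert x T).card = 1) (fun T => c (insert x T)) = c {x} ^ 2 := by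
      rw [fknsum_zero s U _ _ ?_ ?_]
      · simp
      · simp
      · intro T hT hc
        have hxT : x ∉ T := fun h => hx (hT h)
        rw [Finset.card_insert_of_notMem hxT] at hc
        omega
    rw [h]
    ring

private lemma fknsum_scale (s t : ℝ) (U : Finset α) (P : Finset α → Prop) (c : Finset α → ℝ) :
    sqs s U P (fun T => t * c T) = t ^ 2 * sqs s U P c := by
  classical
  unfold sqs
  rw [Finset.mul_sum]
  exact Finset.sum_congr rfl fun T _ => by ring

private lemma fknsum_two (s : ℝ) (c : Finset α → ℝ) (U : Finset α) :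
    sqs s U (fun _ => True) (fun T => if T.card = 2 then 2 * ∏ i ∈ T, c {i} else 0) =
      2 * ((∑ i ∈ U, c {i} ^ 2 * s) ^ 2 - ∑ i ∈ U, (c {i} ^ 2 * s) ^ 2) := by
  classical
  induction U using Finset.induction_on with
  | empty =>
    unfold sqs
    simp
  | insert x U hx ih =>
    rw [sqs_insert hx, ih, Finset.sum_insert hx, Finset.sum_insert hx]
    have h : sqs s U (fun _ => True)
        (fun T => if (insert x T).card = 2 then 2 * ∏ i ∈ insert x T, c {i} else 0) =
        4 * c {x} ^ 2 * ∑ i ∈ U, c {i} ^ 2 * s := by
      have h1 : sqs s U (fun _ => True)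
          (fun T => if (insert x T).card = 2 then 2 * ∏ i ∈ insert x T, c {i} else 0) =
          sqs s U (fun T => T.card = 1) (fun T => (2 * c {x}) * ∏ i ∈ T, c {i}) := by
        unfold sqs
        rw [Finset.sum_filter, Finset.sum_filter]
        apply Finset.sum_congr rfl
        intro T hT
        rw [Finset.mem_powerset] at hT
        have hxT : x ∉ T := fun h => hx (hT h)
        beta_reduce
        rw [Finset.card_insert_of_notMem hxT, Finset.prod_insert hxT]
        by_cases h1 : T.card = 1
        · rw [if_pos trivial, if_pos h1, if_pos (by omega)]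
          ring
        · rw [if_pos trivial, if_neg h1, if_neg (by omega)]
          ring
      rw [h1, fknsum_scale, fknsum_one]
      simp only [Finset.prod_singleton]
      ring
    have h' : sqs s U (fun _ => True)
        (fun T => (fun T => if T.card = 2 then 2 * ∏ i ∈ T, c {i} else 0) (insert x T)) =
        4 * c {x} ^ 2 * ∑ i ∈ U, c {i} ^ 2 * s := h
    rw [h']
    ring

theorem p_fknsum : S_fknsum := by
  intro α _ U s c
  exact ⟨fknsum_one s c U, fknsum_two s c U⟩

end Pool.Agent.Lib.MP_b0b8df_co.Lin
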