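import Pool.Agent.Lib.MP_b0b8df_co.Lin.Stm

/-!
# MP_b0b8df_co, linear range: the Friedgut junta theorem
-/

set_option autoImplicit false

namespace Pool.Agent.Lib.MP_b0b8df_co.Lin

open Finset

/-- [LIN friedgut] -/
theorem p_friedgut (hcomplete : S_complete) (hderiv : S_deriv) (hlevel : S_level)
    (hinfl : S_infl) (hcond : S_cond) (hfrsplit : S_frsplit) : S_friedgut := by
  intro lam K ε hlam hK hε
  by_cases hl2 : 1 / 2 < lam
  · refine ⟨0, ?_⟩
    intro α _ U p f h1 h2
    exfalso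
    linarith
  rw [not_lt] at hl2
  set κ : ℝ := 4 / lam with hκ
  have hκ8 : 8 ≤ κ := by
    rw [hκ, le_div_iff₀ hlam]; linarith
  have hκ0 : 0 < κ := by linarith
  set Dg : ℕ := ⌈2 * K / ε⌉₊ + 1 with hDg
  have hDg1 : 2 * K / ε ≤ Dg := by
    rw [hDg]; push_cast
    have := Nat.le_ceil (2 * K / ε)
    linarith
  have hDg0 : (0 : ℝ) < Dg := by
    rw [hDg]; positivity
  set θ : ℝ := ε / (2 * K * κ ^ Dg) with hθ
  have hθ0 : 0 < θ := by rw [hθ]; positivity
  refine ⟨⌈K / θ ^ 2⌉₊, ?_⟩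
  intro α _ U p f hp1 hp2 hB hKsum
  have hp0 : 0 < p := by linarith
  have hp3 : p < 1 := by linarith
  set s : ℝ := p * (1 - p) with hs
  have hs0 : 0 ≤ s := mul_nonneg hp0.le (by linarith)
  have hs1 : s ≤ 1 := by rw [hs]; nlinarith
  have hs2 : lam / 2 ≤ s := by
    have h1 : 0 ≤ (p - lam) * (1 - p - lam) := mul_nonneg (by linarith) (by linarith)
    rw [hs]; nlinarith
  have hκs : 3 ≤ κ ^ 2 * s := by
    have h1 : κ * lam = 4 := by rw [hκ]; field_simp
    have h2 : κ ^ 2 * (lam / 2) ≤ κ ^ 2 * s := mul_le_mul_of_nonneg_left hs2 (by positivity)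
    have h3 : κ ^ 2 * (lam / 2) = κ * 2 := by
      calc κ ^ 2 * (lam / 2) = κ * (κ * lam) / 2 := by ring
        _ = κ * 2 := by rw [h1]; ring
    linarith
  obtain ⟨c, hc⟩ := hcomplete α U p f
  set δ : α → ℝ := fun i => ex p U (fun S => D i f S ^ 2) with hδ
  have hδ0 : ∀ i, 0 ≤ δ i := fun i => ex_nonneg hp0.le hp3.le fun S _ => by positivity
  have hKsum' : ∑ i ∈ U, δ i ≤ K := hKsum
  classical
  set J : Finset α := U.filter (fun i => θ ^ 2 < δ i) with hJ
  have hJU : J ⊆ U := Finset.filter_subset _ _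
  refine ⟨J, hJU, ?_, ?_⟩
  · have h1 : (J.card : ℝ) * θ ^ 2 ≤ K := by
      calc (J.card : ℝ) * θ ^ 2 = ∑ _i ∈ J, θ ^ 2 := by simp
        _ ≤ ∑ i ∈ J, δ i := Finset.sum_le_sum fun i hi => (Finset.mem_filter.1 hi).2.le
        _ ≤ ∑ i ∈ U, δ i := Finset.sum_le_sum_of_subset_of_nonneg hJU fun i _ _ => hδ0 i
        _ ≤ K := hKsum'
    have h2 : (J.card : ℝ) ≤ K / θ ^ 2 := by
      rw [le_div_iff₀ (by positivity)]; exact h1
    have h3 : (J.card : ℝ) ≤ (⌈K / θ ^ 2⌉₊ : ℝ) := h2.trans (Nat.le_ceil _)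
    exact_mod_cast h3
  · have hf2 : ∀ S, f S ^ 2 = f S := by
      intro S
      rcases hB S with h | h <;> rw [h] <;> norm_num
    have e1 : ex p J (fun R => mm p U J f R * (1 - mm p U J f R)) =
        sqs s U (fun T => ¬ T ⊆ J) c := by
      rw [← hcond α U J p c f hJU hc]
      apply ex_congr
      intro R _
      have : ex p (U \ J) (fun S => f (R ∪ S) ^ 2) = mm p U J f R := by
        unfold mm
        apply ex_congr
        intro S _
        exact hf2 _
      rw [this]; ring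
    rw [e1]
    obtain ⟨f1, f2⟩ := hfrsplit α U J s Dg c hs0 hJU
    obtain ⟨_, i2⟩ := hinfl α U p c f hc
    have g1 : sqs s U (fun T => Dg < T.card) c ≤ ε / 2 := by
      have h1 : (Dg : ℝ) * sqs s U (fun T => Dg < T.card) c ≤ s * ∑ i ∈ U, δ i := by
        rw [i2]; exact f2
      have h2 : s * ∑ i ∈ U, δ i ≤ K := by
        have h0 : 0 ≤ ∑ i ∈ U, δ i := Finset.sum_nonneg fun i _ => hδ0 i
        nlinarith
      have h3 : K ≤ Dg * (ε / 2) := by
        rw [div_le_iff₀ hε] at hDg1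
        linarith
      have h4 : (Dg : ℝ) * sqs s U (fun T => Dg < T.card) c ≤ Dg * (ε / 2) := by linarith
      exact le_of_mul_le_mul_left h4 hDg0
    have g2 : ∀ i ∈ U \ J, s * sqs s (U.erase i) (fun T => T.card ≤ Dg) (fun T => c (insert i T)) ≤
        κ ^ Dg * θ * δ i := by
      intro i hi
      rw [Finset.mem_sdiff] at hi
      have hi1 : i ∈ U := hi.1
      have hi2 : δ i ≤ θ ^ 2 := by
        by_contra hcon
        rw [not_le] at hcon
        exact hi.2 (Finset.mem_filter.2 ⟨hi1, hcon⟩)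
      have h1 := hlevel α (U.erase i) p κ Dg (fun T => c (insert i T)) (D i f) hp0 hp3
        (by linarith) hκs
        (fun S hS => hderiv α U p c f i hi1 hc S (hS.trans (Finset.erase_subset _ _)))
        (fun S _ => by
          unfold D
          rcases hB (insert i S) with h | h <;> rcases hB (S.erase i) with h' | h' <;>
            rw [h, h'] <;> norm_num)
      have h2 : ex p (U.erase i) (fun S => D i f S ^ 2) = δ i := by
        show _ = ex p U (fun S => D i f S ^ 2)
        rw [ex_erase hi1]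
        have : ex p (U.erase i) (fun S => D i f (insert i S) ^ 2) =
            ex p (U.erase i) (fun S => D i f S ^ 2) := by
          apply ex_congr
          intro S _
          unfold D
          rw [Finset.insert_idem, Finset.erase_insert_eq_erase]
        rw [this]; ring
      rw [h2] at h1
      set W : ℝ := sqs s (U.erase i) (fun T => T.card ≤ Dg) (fun T => c (insert i T)) with hWdef
      have hW0 : 0 ≤ W := sqs_nonneg hs0 _ _ _
      have h3 : W ^ 2 ≤ (κ ^ Dg * θ * δ i) ^ 2 := by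
        calc W ^ 2 ≤ κ ^ (2 * Dg) * δ i ^ 3 := h1
          _ = κ ^ (2 * Dg) * δ i ^ 2 * δ i := by ring
          _ ≤ κ ^ (2 * Dg) * δ i ^ 2 * θ ^ 2 :=
              mul_le_mul_of_nonneg_left hi2 (by positivity)
          _ = (κ ^ Dg * θ * δ i) ^ 2 := by
              rw [mul_comm 2 Dg, pow_mul]; ring
      have h4 : W ≤ κ ^ Dg * θ * δ i :=
        (pow_le_pow_iff_left₀ hW0 (mul_nonneg (by positivity) (hδ0 i)) two_ne_zero).1 h3
      calc s * W ≤ 1 * W := mul_le_mul_of_nonneg_right hs1 hW0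
        _ = W := one_mul W
        _ ≤ _ := h4
    have g3 : ∑ i ∈ U \ J, s * sqs s (U.erase i) (fun T => T.card ≤ Dg)
        (fun T => c (insert i T)) ≤ ε / 2 := by
      calc ∑ i ∈ U \ J, s * sqs s (U.erase i) (fun T => T.card ≤ Dg) (fun T => c (insert i T))
          ≤ ∑ i ∈ U \ J, κ ^ Dg * θ * δ i := Finset.sum_le_sum g2
        _ ≤ ∑ i ∈ U, κ ^ Dg * θ * δ i :=
            Finset.sum_le_sum_of_subset_of_nonneg Finset.sdiff_subset
              fun i _ _ => mul_nonneg (by positivity) (hδ0 i)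
        _ = κ ^ Dg * θ * ∑ i ∈ U, δ i := by rw [Finset.mul_sum]
        _ ≤ κ ^ Dg * θ * K := mul_le_mul_of_nonneg_left hKsum' (by positivity)
        _ = ε / 2 := by rw [hθ]; field_simp
    linarith

end Pool.Agent.Lib.MP_b0b8df_co.Lin
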