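import Pool.Agent.Lib.MP_b0b8df_co.Lin.Stm

/-!
# MP_b0b8df_co, linear range: splitting of the coefficients outside `J`
-/

set_option autoImplicit false

namespace Pool.Agent.Lib.MP_b0b8df_co.Lin

open Finset

open Classical in
private lemma frsplit_sqs {α : Type} [DecidableEq α] (s : ℝ) (U : Finset α)
    (P : Finset α → Prop) (c : Finset α → ℝ) :
    sqs s U P c = ∑ T ∈ U.powerset, if P T then c T ^ 2 * s ^ T.card else 0 := by
  unfold sqs
  rw [Finset.sum_filter]

open Classical in
private lemma frsplit_one {α : Type} [DecidableEq α] (U : Finset α) (s : ℝ) (Dg : ℕ)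
    (c : Finset α → ℝ) (hs : 0 ≤ s) (i : α) (hi : i ∈ U) :
    (∑ T ∈ U.powerset, if i ∈ T ∧ T.card ≤ Dg then c T ^ 2 * s ^ T.card else 0) ≤
      s * sqs s (U.erase i) (fun T => T.card ≤ Dg) (fun T => c (insert i T)) := by
  rw [frsplit_sqs]
  conv_lhs => rw [← Finset.insert_erase hi]
  rw [Finset.sum_powerset_insert (Finset.notMem_erase i U), Finset.mul_sum]
  have h0 : (∑ T ∈ (U.erase i).powerset,
      if i ∈ T ∧ T.card ≤ Dg then c T ^ 2 * s ^ T.card else 0) = 0 := by
    apply Finset.sum_eq_zero
    intro T hT
    rw [Finset.mem_powerset] at hT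
    have : i ∉ T := fun h => Finset.notMem_erase i U (hT h)
    rw [if_neg (fun h => this h.1)]
  rw [h0, zero_add]
  apply Finset.sum_le_sum
  intro T hT
  rw [Finset.mem_powerset] at hT
  have hiT : i ∉ T := fun h => Finset.notMem_erase i U (hT h)
  rw [Finset.card_insert_of_notMem hiT]
  by_cases h : T.card + 1 ≤ Dg
  · rw [if_pos ⟨Finset.mem_insert_self i T, h⟩, if_pos (by omega)]
    apply le_of_eq
    rw [pow_succ]; ring
  · rw [if_neg (fun h' => h h'.2)]
    split_ifs
    · positivity
    · simp

/-- Piece frsplit -/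
theorem p_frsplit : S_frsplit := by
  classical
  intro α _ U J s Dg c hs hJ
  constructor
  · have h1 : sqs s U (fun T => ¬ T ⊆ J) c ≤ ∑ T ∈ U.powerset,
        ((if Dg < T.card then c T ^ 2 * s ^ T.card else 0) +
          ∑ i ∈ U \ J, if i ∈ T ∧ T.card ≤ Dg then c T ^ 2 * s ^ T.card else 0) := by
      rw [frsplit_sqs]
      apply Finset.sum_le_sum
      intro T hT
      rw [Finset.mem_powerset] at hT
      have ha : 0 ≤ c T ^ 2 * s ^ T.card := by positivity
      have hsum : ∀ i ∈ U \ J,
          0 ≤ (if i ∈ T ∧ T.card ≤ Dg then c T ^ 2 * s ^ T.card else 0 : ℝ) := by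
        intro i _
        split_ifs
        · exact ha
        · exact le_refl 0
      by_cases hTJ : T ⊆ J
      · rw [if_neg (fun h => h hTJ)]
        apply add_nonneg
        · split_ifs
          · exact ha
          · exact le_refl 0
        · exact Finset.sum_nonneg hsum
      · rw [if_pos hTJ]
        by_cases hD : Dg < T.card
        · rw [if_pos hD]
          have := Finset.sum_nonneg hsum
          linarith
        · rw [if_neg hD, zero_add]
          obtain ⟨i, hiT, hiJ⟩ := Finset.not_subset.mp hTJ
          have hi : i ∈ U \ J := Finset.mem_sdiff.mpr ⟨hT hiT, hiJ⟩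
          have h2 := Finset.single_le_sum hsum hi
          rw [if_pos ⟨hiT, by omega⟩] at h2
          exact h2
    refine h1.trans ?_
    rw [Finset.sum_add_distrib, Finset.sum_comm]
    apply add_le_add
    · rw [frsplit_sqs]
      apply le_of_eq
      refine Finset.sum_congr rfl fun T _ => ?_
      by_cases h : Dg < T.card
      · rw [if_pos h, if_pos h]
      · rw [if_neg h, if_neg h]
    · apply Finset.sum_le_sum
      intro i hi
      exact frsplit_one U s Dg c hs i (Finset.mem_sdiff.mp hi).1
  · rw [frsplit_sqs, Finset.mul_sum]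
    apply Finset.sum_le_sum
    intro T _
    have ha : 0 ≤ c T ^ 2 * s ^ T.card := by positivity
    split_ifs with h
    · have h1 : (Dg : ℝ) ≤ T.card := by exact_mod_cast h.le
      exact mul_le_mul_of_nonneg_right h1 ha
    · rw [mul_zero]
      positivity

end Pool.Agent.Lib.MP_b0b8df_co.Lin
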