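import Pool.Agent.Lib.MP_b0b8df_co.Lin.Stm

/-!
# MP_b0b8df_co, linear range: piece [LIN infl], total influence
-/

set_option autoImplicit false

namespace Pool.Agent.Lib.MP_b0b8df_co.Lin

open Finset

private lemma infl_part1 (hparseval : S_parseval) (hderiv : S_deriv) (α : Type) [DecidableEq α]
    (U : Finset α) (p : ℝ) (c φ : Finset α → ℝ) (hφ : ∀ S ⊆ U, φ S = pl p c U S) (i : α)
    (hi : i ∈ U) : ex p U (fun S => D i φ S ^ 2) =
      sqs (p * (1 - p)) (U.erase i) (fun _ => True) (fun T => c (insert i T)) := by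
  have h1 : ex p U (fun S => D i φ S ^ 2) =
      ex p U (fun S => pl p (fun T => c (insert i T)) (U.erase i) S ^ 2) := by
    apply ex_congr
    intro S hS
    rw [hderiv α U p c φ i hi hφ S hS]
  rw [h1, ex_erase hi]
  have h2 : ex p (U.erase i) (fun S =>
      (fun S => pl p (fun T => c (insert i T)) (U.erase i) S ^ 2) (insert i S)) =
      ex p (U.erase i) (fun S => pl p (fun T => c (insert i T)) (U.erase i) S ^ 2) := by
    apply ex_congr
    intro S _
    show pl p (fun T => c (insert i T)) (U.erase i) (insert i S) ^ 2 = _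
    rw [pl_insert_right (Finset.notMem_erase i U)]
  rw [h2, hparseval]
  ring

private lemma infl_part2 (α : Type) [DecidableEq α] (U : Finset α) (s : ℝ) (c : Finset α → ℝ)
    (i : α) (hi : i ∈ U) :
    s * sqs s (U.erase i) (fun _ => True) (fun T => c (insert i T)) =
      ∑ T ∈ U.powerset, if i ∈ T then c T ^ 2 * s ^ T.card else 0 := by
  classical
  have hU : U = insert i (U.erase i) := (Finset.insert_erase hi).symm
  have hni : i ∉ U.erase i := Finset.notMem_erase i U
  have h0 : (∑ T ∈ (U.erase i).powerset, if i ∈ T then c T ^ 2 * s ^ T.card else 0) = 0 := by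
    apply Finset.sum_eq_zero
    intro T hT
    rw [Finset.mem_powerset] at hT
    rw [if_neg (fun h => hni (hT h))]
  have h1 : ∑ T ∈ U.powerset, (if i ∈ T then c T ^ 2 * s ^ T.card else 0) =
      ∑ T ∈ (insert i (U.erase i)).powerset, if i ∈ T then c T ^ 2 * s ^ T.card else 0 := by
    rw [← hU]
  rw [h1, Finset.sum_powerset_insert hni, h0, zero_add]
  have hsq : sqs s (U.erase i) (fun _ => True) (fun T => c (insert i T)) =
      ∑ T ∈ (U.erase i).powerset, c (insert i T) ^ 2 * s ^ T.card := by
    unfold sqs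
    apply Finset.sum_congr
    · ext T
      simp
    · intro T _
      rfl
  rw [hsq, Finset.mul_sum]
  apply Finset.sum_congr rfl
  intro T hT
  rw [Finset.mem_powerset] at hT
  rw [if_pos (Finset.mem_insert_self i T), Finset.card_insert_of_notMem (fun h => hni (hT h)),
    pow_succ]
  ring

theorem p_infl (hparseval : S_parseval) (hderiv : S_deriv) : S_infl := by
  intro α _ U p c φ hφ
  refine ⟨fun i hi => infl_part1 hparseval hderiv α U p c φ hφ i hi, ?_⟩
  rw [Finset.mul_sum]
  have h1 : ∀ i ∈ U, p * (1 - p) * ex p U (fun S => D i φ S ^ 2) =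
      ∑ T ∈ U.powerset, if i ∈ T then c T ^ 2 * (p * (1 - p)) ^ T.card else 0 := by
    intro i hi
    rw [infl_part1 hparseval hderiv α U p c φ hφ i hi, infl_part2 α U _ c i hi]
  rw [Finset.sum_congr rfl h1, Finset.sum_comm]
  apply Finset.sum_congr rfl
  intro T hT
  rw [Finset.mem_powerset] at hT
  rw [← Finset.sum_filter, Finset.sum_const, nsmul_eq_mul]
  congr 2
  rw [Finset.filter_mem_eq_inter, Finset.inter_eq_right.2 hT]

end Pool.Agent.Lib.MP_b0b8df_co.Lin
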