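import Pool.Agent.Lib.MP_b0b8df_co.Lin.Stm

set_option autoImplicit false

namespace Pool.Agent.Lib.MP_b0b8df_co.Lin

open Finset

theorem p_j1 (hcouple : S_couple) : S_j1 := by
  classical
  intro α _ _ d U J p t X f hd hJU hp0 hpd ht hU hX hB hM hNC
  have hd0 : (0 : ℝ) < (d : ℝ) := by exact_mod_cast hd
  have hp1 : p ≤ 1 := by
    by_contra h
    push Not at h
    nlinarith
  have hB' : Bool01 (gg d p U J f) := by
    intro S
    unfold gg
    split_ifs
    · right; rfl
    · left; rfl
  have hmm : ∀ R R' : Finset α, R ≤ R' → mm p U J f R ≤ mm p U J f R' := by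
    intro R R' h
    unfold mm
    apply ex_mono hp0 hp1
    intro S _
    exact hM (Finset.union_subset_union_left h)
  have hM' : Monotone (gg d p U J f) := by
    intro R R' h
    unfold gg
    have := hmm R R' h
    split_ifs with h1 h2
    · exact le_rfl
    · exact absurd (h1.trans this) h2
    · exact zero_le_one
    · exact le_rfl
  refine ⟨hB', hM', ?_⟩
  intro R hRJ hR1
  by_contra hcon
  push Not at hcon
  have hR1' : ∀ i, 1 - 1 / ((d : ℝ) + 2) ≤ mm p U J f (R i) := by
    intro i
    have := hR1 i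
    unfold gg at this
    split_ifs at this with h
    · exact h
    · norm_num at this
  have hcardW : ((U \ J).card : ℝ) ≤ U.card := by
    exact_mod_cast Finset.card_le_card Finset.sdiff_subset
  obtain ⟨S, hSW, hS1, hSe, hSc⟩ := hcouple α d (U \ J) p (1 / ((d : ℝ) + 2)) t
    (fun i S => f (R i ∪ S)) hd hp0 hpd ht (fun i S => hB _) (fun i => hR1' i) (by
      have h4 : (0 : ℝ) < 4 * t ^ 2 := by positivity
      have h1 : ((U \ J).card : ℝ) / (4 * t ^ 2) < 1 / ((d : ℝ) + 2) := by
        rw [div_lt_div_iff₀ h4 (by positivity)]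
        nlinarith
      have h2 : ((d : ℝ) + 1) * (1 / ((d : ℝ) + 2)) + 1 / ((d : ℝ) + 2) = 1 := by
        field_simp
        ring
      linarith)
  refine hNC (fun i => R i ∪ S i) (fun i => ?_) (fun i => hS1 i) (fun e => ?_) ?_
  · exact Finset.union_subset ((hRJ i).trans hJU) ((hSW i).trans Finset.sdiff_subset)
  · by_cases he : e ∈ J
    · obtain ⟨i, hi⟩ := hcon e
      refine ⟨i, ?_⟩
      rw [Finset.mem_union]
      push Not
      refine ⟨hi, fun h => ?_⟩
      exact (Finset.mem_sdiff.1 (hSW i h)).2 he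
    · obtain ⟨i, hi⟩ := hSe e
      refine ⟨i, ?_⟩
      rw [Finset.mem_union]
      push Not
      exact ⟨fun h => he (hRJ i h), hi⟩
  · have hsub : (univ.biUnion fun i => R i ∪ S i) ⊆ J ∪ univ.biUnion S := by
      intro e he
      rw [Finset.mem_biUnion] at he
      obtain ⟨i, _, hi⟩ := he
      rw [Finset.mem_union] at hi ⊢
      rcases hi with hi | hi
      · left; exact hRJ i hi
      · right; exact Finset.mem_biUnion.2 ⟨i, Finset.mem_univ _, hi⟩
    have hc := (Finset.card_le_card hsub).trans (Finset.card_union_le _ _)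
    have hc' : (((univ.biUnion fun i => R i ∪ S i) : Finset α).card : ℝ) ≤
        J.card + (univ.biUnion S).card := by exact_mod_cast hc
    have h3 : ((d : ℝ) + 1) / d * p * ((U \ J).card : ℝ) ≤ ((d : ℝ) + 1) / d * p * U.card :=
      mul_le_mul_of_nonneg_left hcardW (by positivity)
    linarith

end Pool.Agent.Lib.MP_b0b8df_co.Lin
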