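import Pool.Agent.Lib.MP_b0b8df_co.Lin.Stm

/-! piece j2 (helper83) -/

set_option autoImplicit false

namespace Pool.Agent.Lib.MP_b0b8df_co.Lin

open Finset

theorem p_j2 : S_j2 := by
  intro α _ d U J p f hJ hp0 hp1 hf
  have f0 : ∀ S, 0 ≤ f S := fun S => by rcases hf S with h | h <;> rw [h]; norm_num
  have f1 : ∀ S, f S ≤ 1 := fun S => by rcases hf S with h | h <;> rw [h]; norm_num
  have m0 : ∀ R, 0 ≤ mm p U J f R := fun R => ex_nonneg hp0 hp1 fun S _ => f0 _
  have m1 : ∀ R, mm p U J f R ≤ 1 := fun R => ex_le_one hp0 hp1 fun S _ => f1 _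
  have hd : (0 : ℝ) < (d : ℝ) + 2 := by positivity
  have q0 : ∀ R, 0 ≤ mm p U J f R * (1 - mm p U J f R) := fun R =>
    mul_nonneg (m0 R) (by linarith [m1 R])
  have pt : ∀ R, mm p U J f R ≤ gg d p U J f R +
      ((d : ℝ) + 2) * (mm p U J f R * (1 - mm p U J f R)) := by
    intro R
    unfold gg
    split_ifs with h
    · have := mul_nonneg hd.le (q0 R)
      linarith [m1 R]
    · push Not at h
      have h1 : 1 / ((d : ℝ) + 2) < 1 - mm p U J f R := by linarith
      rw [div_lt_iff₀ hd] at h1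
      have h2 := mul_le_mul_of_nonneg_left h1.le (m0 R)
      linarith
  have bd : ∀ V : Finset α, ex p V (mm p U J f) ≤ ex p V (gg d p U J f) +
      ((d : ℝ) + 2) * ex p V (fun R => mm p U J f R * (1 - mm p U J f R)) := by
    intro V
    rw [← ex_mul_left, ← ex_add]
    exact ex_mono hp0 hp1 fun R _ => pt R
  refine ⟨?_, ?_⟩
  · have h := bd J
    have e : ex p U f = ex p J (mm p U J f) := ex_split hJ f
    rw [e]
    exact h
  · intro x hx
    have h := bd (J.erase x)
    have hsub : J.erase x ⊆ U.erase x := Finset.erase_subset_erase x hJ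
    have hd' : U.erase x \ J.erase x = U \ J := by
      ext y
      simp only [Finset.mem_sdiff, Finset.mem_erase]
      constructor
      · rintro ⟨⟨h1, h2⟩, h3⟩
        exact ⟨h2, fun h4 => h3 ⟨h1, h4⟩⟩
      · rintro ⟨h1, h2⟩
        exact ⟨⟨fun h3 => h2 (h3 ▸ hx), h1⟩, fun h3 => h2 h3.2⟩
    have e : ex p (U.erase x) f = ex p (J.erase x) (mm p U J f) := by
      rw [ex_split hsub f, hd']
      rfl
    have h2 : (1 - p) * ex p (J.erase x) (fun R => mm p U J f R * (1 - mm p U J f R)) ≤
        ex p J (fun R => mm p U J f R * (1 - mm p U J f R)) := by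
      rw [ex_erase (U := J) hx]
      have : 0 ≤ p * ex p (J.erase x) (fun S => mm p U J f (insert x S) *
          (1 - mm p U J f (insert x S))) :=
        mul_nonneg hp0 (ex_nonneg hp0 hp1 fun S _ => q0 _)
      linarith
    rw [e]
    have h3 := mul_le_mul_of_nonneg_left h (by linarith : 0 ≤ 1 - p)
    have h4 := mul_le_mul_of_nonneg_left h2 hd.le
    nlinarith

end Pool.Agent.Lib.MP_b0b8df_co.Lin
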