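import Pool.Agent.Lib.MP_b0b8df_co.Lin.Stm

set_option autoImplicit false

namespace Pool.Agent.Lib.MP_b0b8df_co.Lin

open Finset

private lemma junta_Dsq {α : Type} [DecidableEq α] {f : Finset α → ℝ} (hf : Bool01 f)
    (hm : Monotone f) (i : α) (S : Finset α) : D i f S ^ 2 = D i f S := by
  have h1 : f (S.erase i) ≤ f (insert i S) :=
    hm ((Finset.erase_subset i S).trans (Finset.subset_insert i S))
  unfold D
  rcases hf (insert i S) with h | h <;> rcases hf (S.erase i) with h' | h' <;>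
    rw [h, h'] at h1 <;> rw [h, h']
  · norm_num
  · norm_num at h1
  · norm_num
  · norm_num

theorem p_junta (hstab : S_stab) (hfriedgut : S_friedgut) (hj1 : S_j1) (hj2 : S_j2) :
    S_junta := by
  intro d lam η hd hlam hη
  have hd' : (1 : ℝ) ≤ d := by exact_mod_cast hd
  have hd1 : (0 : ℝ) < (d : ℝ) + 1 := by linarith
  have hd2 : (0 : ℝ) < (d : ℝ) + 2 := by linarith
  obtain ⟨ε0, hε0, H0⟩ := hstab d lam (η / 2) hd hlam (by linarith)
  refine ⟨ε0 / 2, by linarith, ?_⟩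
  intro K hK
  set ε2 : ℝ := min (ε0 / (2 * ((d : ℝ) + 2))) (η * lam / (2 * ((d : ℝ) + 2))) with hε2
  have hε2p : 0 < ε2 := lt_min (by positivity) (by positivity)
  have hε21 : ((d : ℝ) + 2) * ε2 ≤ ε0 / 2 := by
    have h := min_le_left (ε0 / (2 * ((d : ℝ) + 2))) (η * lam / (2 * ((d : ℝ) + 2)))
    rw [← hε2, le_div_iff₀ (by positivity)] at h
    linarith
  have hε22 : ((d : ℝ) + 2) * ε2 ≤ η * lam / 2 := by
    have h := min_le_right (ε0 / (2 * ((d : ℝ) + 2))) (η * lam / (2 * ((d : ℝ) + 2)))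
    rw [← hε2, le_div_iff₀ (by positivity)] at h
    linarith
  obtain ⟨M, HM⟩ := hfriedgut lam K ε2 hlam hK hε2p
  refine ⟨M, ?_⟩
  intro α _ _ U p t X f hp1 hp2 ht htU hX hf hmon hNC hinf hex
  have hp0 : 0 < p := by linarith
  have hp3 : p ≤ 1 - lam := by
    have : ((d : ℝ) + 1) * (p + lam) ≤ ((d : ℝ) + 1) * 1 := by linarith
    have := le_of_mul_le_mul_left this hd1
    linarith
  have hp4 : ((d : ℝ) + 1) * p ≤ d := by nlinarith
  have hinf' : ∑ i ∈ U, ex p U (fun S => D i f S ^ 2) ≤ K := by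
    refine le_trans (le_of_eq ?_) hinf
    apply Finset.sum_congr rfl
    intro i _
    apply ex_congr
    intro S _
    exact junta_Dsq hf hmon i S
  obtain ⟨J, hJU, hJM, hJe⟩ := HM α U p f hp1 hp3 hf hinf'
  have hJM' : (J.card : ℝ) ≤ M := by exact_mod_cast hJM
  obtain ⟨hg1, hg2, hg3⟩ := hj1 α d U J p t X f hd hJU hp0.le hp4 ht htU (by linarith) hf hmon hNC
  obtain ⟨h1, h2⟩ := hj2 α d U J p f hJU hp0.le (by linarith) hf
  have h3 : ((d : ℝ) + 2) * ex p J (fun R => mm p U J f R * (1 - mm p U J f R)) ≤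
      ((d : ℝ) + 2) * ε2 := mul_le_mul_of_nonneg_left hJe hd2.le
  obtain ⟨x, hx, hxe⟩ := H0 α J (gg d p U J f) p hp1 hp2 hg1 hg2 hg3 (by linarith)
  refine ⟨x, hJU hx, ?_⟩
  have h4 := h2 x hx
  have hpos : 0 < 1 - p := by linarith
  have h5 : (1 - p) * ex p (J.erase x) (gg d p U J f) ≤ (1 - p) * (η / 2) :=
    mul_le_mul_of_nonneg_left hxe hpos.le
  have h6 : η * lam / 2 ≤ (1 - p) * (η / 2) := by nlinarith
  have h7 : (1 - p) * ex p (U.erase x) f ≤ (1 - p) * η := by nlinarith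
  exact le_of_mul_le_mul_left h7 hpos

end Pool.Agent.Lib.MP_b0b8df_co.Lin
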