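import Pool.Agent.Lib.MP_b0b8df_co.Lin.Stm

/-!
# MP_b0b8df_co, linear range: the level inequality
-/

set_option autoImplicit false

namespace Pool.Agent.Lib.MP_b0b8df_co.Lin

open Finset

private theorem level_sqs1 {α : Type} [DecidableEq α] (s : ℝ) (U : Finset α) (Dg : ℕ)
    (c : Finset α → ℝ) :
    sqs s U (fun _ => True) (fun T => if T.card ≤ Dg then c T else 0) =
      sqs s U (fun T => T.card ≤ Dg) c := by
  classical
  unfold sqs
  rw [Finset.sum_filter, Finset.sum_filter]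
  apply Finset.sum_congr rfl
  intro T _
  by_cases h : T.card ≤ Dg
  · simp [h]
  · simp [h]

private theorem level_sqs2 {α : Type} [DecidableEq α] (s : ℝ) (U : Finset α) (Dg : ℕ)
    (c : Finset α → ℝ) :
    sqs s U (fun _ => True) c = sqs s U (fun T => T.card ≤ Dg) c +
      sqs s U (fun _ => True) (fun T => if T.card ≤ Dg then 0 else c T) := by
  classical
  unfold sqs
  rw [Finset.sum_filter, Finset.sum_filter, Finset.sum_filter, ← Finset.sum_add_distrib]
  apply Finset.sum_congr rfl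
  intro T _
  by_cases h : T.card ≤ Dg
  · simp [h]
  · simp [h]

theorem p_level (hparseval : S_parseval) (hbonami : S_bonami) : S_level := by
  classical
  intro α _ U p κ Dg c h hp0 hp1 hκ hκs hpl hval
  have h0 : (0 : ℝ) ≤ p := hp0.le
  have h1 : p ≤ 1 := hp1.le
  have hs0 : 0 ≤ p * (1 - p) := mul_nonneg h0 (by linarith)
  obtain ⟨P, hP⟩ : ∃ P : Finset α → ℝ,
      P = fun S => pl p (fun T => if T.card ≤ Dg then c T else 0) U S := ⟨_, rfl⟩
  obtain ⟨Q, hQ⟩ : ∃ Q : Finset α → ℝ,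
      Q = fun S => pl p (fun T => if T.card ≤ Dg then 0 else c T) U S := ⟨_, rfl⟩
  obtain ⟨W, hW⟩ : ∃ W, W = sqs (p * (1 - p)) U (fun T => T.card ≤ Dg) c := ⟨_, rfl⟩
  obtain ⟨δ, hδ⟩ : ∃ δ, δ = ex p U (fun S => h S ^ 2) := ⟨_, rfl⟩
  have hsum : ∀ S ⊆ U, h S = P S + Q S := by
    intro S hS
    rw [hpl S hS, hP, hQ]
    show pl p c U S = pl p (fun T => if T.card ≤ Dg then c T else 0) U S +
      pl p (fun T => if T.card ≤ Dg then 0 else c T) U S
    rw [← pl_add]
    apply pl_congr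
    intro T _
    by_cases h : T.card ≤ Dg
    · simp [h]
    · simp [h]
  have hPP : ex p U (fun S => P S ^ 2) = W := by
    rw [hP, hW, ← level_sqs1]
    exact hparseval α U p _
  have hQQ : ex p U (fun S => Q S ^ 2) =
      sqs (p * (1 - p)) U (fun _ => True) (fun T => if T.card ≤ Dg then 0 else c T) := by
    rw [hQ]
    exact hparseval α U p _
  have hhh : δ = W + ex p U (fun S => Q S ^ 2) := by
    rw [hQQ, hW, ← level_sqs2, ← hparseval α U p c, hδ]
    apply ex_congr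
    intro S hS
    rw [hpl S hS]
  have hPQ : ex p U (fun S => P S * Q S) = 0 := by
    have h2 : δ = ex p U (fun S => P S ^ 2) + 2 * ex p U (fun S => P S * Q S) +
        ex p U (fun S => Q S ^ 2) := by
      rw [hδ, ← ex_mul_left, ← ex_add, ← ex_add]
      apply ex_congr
      intro S hS
      rw [hsum S hS]
      ring
    rw [hPP] at h2
    linarith
  have hhP : ex p U (fun S => h S * P S) = W := by
    have h2 : ex p U (fun S => h S * P S) = ex p U (fun S => P S ^ 2) +
        ex p U (fun S => P S * Q S) := by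
      rw [← ex_add]
      apply ex_congr
      intro S hS
      rw [hsum S hS]
      ring
    rw [h2, hPP, hPQ, add_zero]
  have hc3 : ∀ S ⊆ U, h S ^ 3 = h S ∧ h S ^ 4 = h S ^ 2 := by
    intro S hS
    rcases hval S hS with e | e | e <;> rw [e] <;> norm_num
  have cs1 : W ^ 2 ≤ δ * ex p U (fun S => h S ^ 2 * P S ^ 2) := by
    have h2 := ex_cs h0 h1 (U := U) h (fun S => h S ^ 2 * P S)
    have h3 : ex p U (fun S => h S * (h S ^ 2 * P S)) = W := by
      rw [← hhP]
      apply ex_congr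
      intro S hS
      rw [← mul_assoc, ← pow_succ', (hc3 S hS).1]
    have h4 : ex p U (fun S => (h S ^ 2 * P S) ^ 2) = ex p U (fun S => h S ^ 2 * P S ^ 2) := by
      apply ex_congr
      intro S hS
      rw [mul_pow, ← pow_mul, (hc3 S hS).2]
    rw [h3, h4, ← hδ] at h2
    exact h2
  have cs2 : ex p U (fun S => h S ^ 2 * P S ^ 2) ^ 2 ≤ δ * ex p U (fun S => P S ^ 4) := by
    have h2 := ex_cs h0 h1 (U := U) (fun S => h S ^ 2) (fun S => P S ^ 2)
    have h3 : ex p U (fun S => (h S ^ 2) ^ 2) = δ := by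
      rw [hδ]
      apply ex_congr
      intro S hS
      rw [← pow_mul, (hc3 S hS).2]
    have h4 : ex p U (fun S => (P S ^ 2) ^ 2) = ex p U (fun S => P S ^ 4) := by
      apply ex_congr
      intro S hS
      rw [← pow_mul]
    rw [h3, h4] at h2
    exact h2
  have hbon : ex p U (fun S => P S ^ 4) ≤ κ ^ (2 * Dg) * W ^ 2 := by
    have h2 := hbonami α U p κ Dg (fun T => if T.card ≤ Dg then c T else 0) hp0 hp1 hκ hκs
      (by
        intro T _ hT
        simp [not_le.2 hT])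
    rw [level_sqs1, ← hW] at h2
    rw [hP]
    exact h2
  have hW0 : 0 ≤ W := by rw [hW]; exact sqs_nonneg hs0 _ _ _
  have hδ0 : 0 ≤ δ := by rw [hδ]; exact ex_nonneg h0 h1 fun S _ => sq_nonneg _
  have hK0 : 0 ≤ κ ^ (2 * Dg) := by positivity
  rw [← hW, ← hδ]
  rcases hW0.eq_or_lt with e | hWp
  · rw [← e]
    have : 0 ≤ κ ^ (2 * Dg) * δ ^ 3 := by positivity
    simpa using this
  · have hM0 : 0 ≤ ex p U (fun S => h S ^ 2 * P S ^ 2) := by
      apply ex_nonneg h0 h1
      intro S _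
      positivity
    have h5 : W ^ 4 ≤ δ ^ 2 * ex p U (fun S => h S ^ 2 * P S ^ 2) ^ 2 := by
      have h6 : (W ^ 2) ^ 2 ≤ (δ * ex p U (fun S => h S ^ 2 * P S ^ 2)) ^ 2 :=
        pow_le_pow_left₀ (sq_nonneg _) cs1 2
      calc W ^ 4 = (W ^ 2) ^ 2 := by ring
        _ ≤ (δ * ex p U (fun S => h S ^ 2 * P S ^ 2)) ^ 2 := h6
        _ = _ := by ring
    have h7 : δ ^ 2 * ex p U (fun S => h S ^ 2 * P S ^ 2) ^ 2 ≤
        δ ^ 2 * (δ * (κ ^ (2 * Dg) * W ^ 2)) := by
      apply mul_le_mul_of_nonneg_left _ (sq_nonneg _)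
      exact cs2.trans (mul_le_mul_of_nonneg_left hbon hδ0)
    have h8 : W ^ 2 * W ^ 2 ≤ (κ ^ (2 * Dg) * δ ^ 3) * W ^ 2 := by
      calc W ^ 2 * W ^ 2 = W ^ 4 := by ring
        _ ≤ δ ^ 2 * (δ * (κ ^ (2 * Dg) * W ^ 2)) := h5.trans h7
        _ = _ := by ring
    exact le_of_mul_le_mul_right h8 (by positivity)

end Pool.Agent.Lib.MP_b0b8df_co.Lin
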