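import Pool.Agent.Lib.MP_b0b8df_co.Lin.Stm

set_option autoImplicit false

namespace Pool.Agent.Lib.MP_b0b8df_co.Lin

open Finset

theorem p_linear (happrox : S_approx) (hboot : S_boot) : S_linear := by
  intro d ζ hd hζ
  obtain ⟨η, n1, hη, H1⟩ := hboot d ζ hd hζ
  obtain ⟨n2, H2⟩ := happrox d ζ η hd hζ hη
  refine ⟨max n1 n2, ?_⟩
  intro n k hn hk1 hk2 F hF hT hc
  obtain ⟨x, hx⟩ := H2 n k ((le_max_right _ _).trans_lt hn) hk1 hk2 F hF hT hc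
  exact ⟨x, H1 n k ((le_max_left _ _).trans_lt hn) hk1 hk2 F x hF hT hc hx⟩

end Pool.Agent.Lib.MP_b0b8df_co.Lin
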