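import Pool.Agent.Lib.MP_b0b8df_co.Lin.Stm

set_option autoImplicit false

namespace Pool.Agent.Lib.MP_b0b8df_co.Lin

open Finset

private theorem miss_pre {N : ℕ} (x : Fin (N + 1)) (A : Finset (Fin (N + 1))) :
    (univ.filter (fun j : Fin N => x.succAboveEmb j ∈ A)).map x.succAboveEmb = A.erase x := by
  ext a
  simp only [mem_map, mem_filter, mem_univ, true_and, mem_erase, Fin.coe_succAboveEmb]
  constructor
  · rintro ⟨j, hj, rfl⟩
    exact ⟨Fin.succAbove_ne x j, hj⟩
  · rintro ⟨hne, ha⟩
    obtain ⟨j, hj⟩ := Fin.exists_succAbove_eq hne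
    exact ⟨j, by rw [hj]; exact ha, hj⟩

private theorem miss_notMem {N : ℕ} (x : Fin (N + 1)) (B : Finset (Fin N)) :
    x ∉ B.map x.succAboveEmb := by
  simp only [mem_map, Fin.coe_succAboveEmb, not_exists, not_and]
  intro j _ h
  exact Fin.succAbove_ne x j h

theorem p_miss : S_miss := by
  classical
  intro N k F x hk hF
  refine ⟨univ.filter (fun B => B.map x.succAboveEmb ∈ F),
    (univ.powersetCard (k - 1)).filter (fun B => insert x (B.map x.succAboveEmb) ∉ F), ?_, ?_, ?_, ?_⟩
  · intro B
    simp
  · intro B
    simp [mem_powersetCard]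
  · -- members not containing x
    apply card_bij (fun B _ => B.map x.succAboveEmb)
    · intro B hB
      rw [mem_filter] at hB ⊢
      exact ⟨hB.2, miss_notMem x B⟩
    · intro B _ B' _ h
      exact map_injective _ h
    · intro A hA
      rw [mem_filter] at hA
      refine ⟨univ.filter (fun j : Fin N => x.succAboveEmb j ∈ A), ?_, ?_⟩
      · rw [mem_filter, miss_pre, erase_eq_of_notMem hA.2]
        exact ⟨mem_univ _, hA.1⟩
      · rw [miss_pre, erase_eq_of_notMem hA.2]
  · have h1 : (univ.filter (fun B : Finset (Fin N) => B.map x.succAboveEmb ∈ F)).card =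
        (F.filter fun A => x ∉ A).card := by
      apply card_bij (fun B _ => B.map x.succAboveEmb)
      · intro B hB
        rw [mem_filter] at hB ⊢
        exact ⟨hB.2, miss_notMem x B⟩
      · intro B _ B' _ h
        exact map_injective _ h
      · intro A hA
        rw [mem_filter] at hA
        refine ⟨univ.filter (fun j : Fin N => x.succAboveEmb j ∈ A), ?_, ?_⟩
        · rw [mem_filter, miss_pre, erase_eq_of_notMem hA.2]
          exact ⟨mem_univ _, hA.1⟩
        · rw [miss_pre, erase_eq_of_notMem hA.2]
    have h2 : (((univ : Finset (Fin N)).powersetCard (k - 1)).filter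
        (fun B => insert x (B.map x.succAboveEmb) ∈ F)).card = (F.filter fun A => x ∈ A).card := by
      apply card_bij (fun B _ => insert x (B.map x.succAboveEmb))
      · intro B hB
        rw [mem_filter] at hB ⊢
        exact ⟨hB.2, mem_insert_self _ _⟩
      · intro B _ B' _ h
        apply map_injective x.succAboveEmb
        have h' : (insert x (B.map x.succAboveEmb)).erase x =
            (insert x (B'.map x.succAboveEmb)).erase x := congrArg (fun A => A.erase x) h
        rwa [erase_insert (miss_notMem x B), erase_insert (miss_notMem x B')] at h'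
      · intro A hA
        rw [mem_filter] at hA
        refine ⟨univ.filter (fun j : Fin N => x.succAboveEmb j ∈ A), ?_, ?_⟩
        · rw [mem_filter, mem_powersetCard, miss_pre, insert_erase hA.2]
          refine ⟨⟨subset_univ _, ?_⟩, hA.1⟩
          rw [← card_map x.succAboveEmb, miss_pre, card_erase_of_mem hA.2, hF A hA.1]
        · rw [miss_pre, insert_erase hA.2]
    have h3 := card_filter_add_card_filter_not (s := (univ : Finset (Fin N)).powersetCard (k - 1))
      (fun B => insert x (B.map x.succAboveEmb) ∈ F)
    have h4 := card_filter_add_card_filter_not (s := F) (fun A => x ∈ A)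
    rw [card_powersetCard, card_univ, Fintype.card_fin] at h3
    omega

end Pool.Agent.Lib.MP_b0b8df_co.Lin
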