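import Pool.Agent.Lib.MP_b0b8df_co.Lin.Stm

/-!
# monop: monotonicity of the expectation in p
-/

set_option autoImplicit false

namespace Pool.Agent.Lib.MP_b0b8df_co.Lin

open Finset

theorem p_monop : S_monop := by
  intro α _ U
  induction U using Finset.induction_on with
  | empty =>
    intro φ p q _ _ _ _
    rw [ex_empty, ex_empty]
  | insert x U hx ih =>
    intro φ p q hφ hp hpq hq
    have hm : Monotone (fun S => φ (insert x S)) := fun S T h =>
      hφ (Finset.insert_subset_insert x h)
    have h1 := ih (fun S => φ (insert x S)) p q hm hp hpq hq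
    have h2 := ih φ p q hφ hp hpq hq
    have h3 : ex q U φ ≤ ex q U (fun S => φ (insert x S)) :=
      ex_mono (hp.trans hpq) hq fun S _ => hφ (Finset.subset_insert x S)
    rw [ex_insert hx, ex_insert hx]
    have h4 : 0 ≤ 1 - p := by linarith
    have h5 := mul_le_mul_of_nonneg_left h1 hp
    have h6 := mul_le_mul_of_nonneg_left h2 h4
    have h7 := mul_le_mul_of_nonneg_right hpq (sub_nonneg.2 h3)
    nlinarith

end Pool.Agent.Lib.MP_b0b8df_co.Lin
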