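import Pool.Agent.Lib.MP_b0b8df_co.Lin.Stm

/-!
# MP_b0b8df_co, linear range: mean value theorem for `ex`
-/

set_option autoImplicit false

namespace Pool.Agent.Lib.MP_b0b8df_co.Lin

open Finset

theorem p_mvt (hrusso : S_russo) : S_mvt := by
  intro α _ U φ a b hab
  obtain ⟨c, hc, h⟩ := exists_hasDerivAt_eq_slope (fun q => ex q U φ)
    (fun q => ∑ i ∈ U, ex q U (D i φ)) hab
    (fun x _ => (hrusso α U φ x).continuousAt.continuousWithinAt) (fun x _ => hrusso α U φ x)
  refine ⟨c, hc, ?_⟩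
  have hne : b - a ≠ 0 := sub_ne_zero.mpr hab.ne'
  rw [eq_div_iff hne] at h
  exact h

end Pool.Agent.Lib.MP_b0b8df_co.Lin
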