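import Pool.Agent.Lib.MP_b0b8df_co.Lin.Stm

/-!
# MP_b0b8df_co, linear range, piece `parseval`
-/

set_option autoImplicit false

namespace Pool.Agent.Lib.MP_b0b8df_co.Lin

open Finset

theorem p_parseval : S_parseval := by
  intro α _ U p
  induction U using Finset.induction_on with
  | empty =>
    intro c
    simp [pl, sqs]
  | insert x U hx ih =>
    intro c
    have h0 : ex p (insert x U) (fun S => pl p c (insert x U) S ^ 2) =
        ex p (insert x U) (fun S => ps p x S ^ 0 * pl p c U S ^ 2) +
        (2 * ex p (insert x U) (fun S => ps p x S ^ 1 *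
            (pl p c U S * pl p (fun T => c (insert x T)) U S)) +
          ex p (insert x U) (fun S => ps p x S ^ 2 *
            pl p (fun T => c (insert x T)) U S ^ 2)) := by
      rw [← ex_mul_left, ← ex_add, ← ex_add]
      apply ex_congr
      intro S _
      rw [pl_insert hx]
      ring
    rw [h0, ex_insert_ps hx 0, ex_insert_ps hx 1, ex_insert_ps hx 2, ih c,
      ih (fun T => c (insert x T)), sqs_insert hx]
    · ring
    · intro S _
      rw [pl_insert_right hx]
    · intro S _
      rw [pl_insert_right hx, pl_insert_right hx]
    · intro S _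
      rw [pl_insert_right hx]

end Pool.Agent.Lib.MP_b0b8df_co.Lin
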