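import Pool.Agent.Lib.MP_b0b8df_co.Lin.Stm

/-!
# MP_b0b8df_co, linear range: [LIN perm], counting permutations
-/

set_option autoImplicit false

namespace Pool.Agent.Lib.MP_b0b8df_co.Lin

open Finset

private theorem perm_ex {α : Type*} [Fintype α] [DecidableEq α] (Q1 Q2 : Finset α)
    (h : Q1.card = Q2.card) : ∃ π : Equiv.Perm α, Q1.map π.toEmbedding = Q2 := by
  have e : {a // a ∈ Q1} ≃ {a // a ∈ Q2} := Finset.equivOfCardEq h
  refine ⟨e.extendSubtype, ?_⟩
  apply Finset.eq_of_subset_of_card_le
  · intro y hy
    rw [Finset.mem_map] at hy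
    obtain ⟨a, ha, rfl⟩ := hy
    exact e.extendSubtype_mem a ha
  · rw [Finset.card_map, h]

theorem p_perm : S_perm := by
  classical
  intro N r A 𝒜 hA h𝒜
  let c : Finset (Fin N) → ℕ := fun B =>
    (univ.filter fun σ : Equiv.Perm (Fin N) => A.map σ.toEmbedding = B).card
  have hle : ∀ B B' : Finset (Fin N), B.card = B'.card → c B ≤ c B' := by
    intro B B' h
    obtain ⟨π, hπ⟩ := perm_ex B B' h
    apply Finset.card_le_card_of_injOn (fun τ => τ.trans π)
    · intro τ hτ
      simp only [Finset.coe_filter, Finset.mem_univ, true_and, Set.mem_ofPred_eq] at hτ ⊢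
      rw [← hπ, ← hτ, Finset.map_map]
      rfl
    · intro τ1 _ τ2 _ h12
      ext1 a
      have := congrArg (fun (σ : Equiv.Perm _) => σ a) h12
      simpa using this
  have htot : ∑ B ∈ powersetCard r (univ : Finset (Fin N)), c B = N.factorial := by
    have h1 : (univ : Finset (Equiv.Perm (Fin N))).card
        = ∑ B ∈ powersetCard r (univ : Finset (Fin N)), c B := by
      apply Finset.card_eq_sum_card_fiberwise
      intro τ _
      rw [Finset.mem_coe, Finset.mem_powersetCard]
      exact ⟨Finset.subset_univ _, by rw [Finset.card_map, hA]⟩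
    rw [← h1, Finset.card_univ, Fintype.card_perm]
    simp
  have hval : ∀ B : Finset (Fin N), B.card = r → c B * N.choose r = N.factorial := by
    intro B hB
    rw [← htot]
    have h1 : ∑ B' ∈ powersetCard r (univ : Finset (Fin N)), c B'
        = ∑ _B' ∈ powersetCard r (univ : Finset (Fin N)), c B := by
      apply Finset.sum_congr rfl
      intro B' hB'
      rw [Finset.mem_powersetCard] at hB'
      exact le_antisymm (hle B' B (by rw [hB'.2, hB])) (hle B B' (by rw [hB'.2, hB]))
    rw [h1, Finset.sum_const, Finset.card_powersetCard, Finset.card_univ, smul_eq_mul]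
    simp only [Fintype.card_fin]
    ring
  have hcount : (univ.filter fun σ : Equiv.Perm (Fin N) => A.map σ.toEmbedding ∈ 𝒜).card
      = ∑ B ∈ 𝒜, c B := by
    rw [Finset.card_eq_sum_card_fiberwise (f := fun σ : Equiv.Perm (Fin N) => A.map σ.toEmbedding)
      (t := 𝒜)]
    · refine Finset.sum_congr rfl fun B hB => ?_
      congr 1
      ext σ
      simp only [Finset.mem_filter, Finset.mem_univ, true_and]
      constructor
      · exact fun h => h.2
      · exact fun h => ⟨by rw [h]; exact hB, h⟩
    · intro σ hσ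
      simpa using hσ
  have hfin : (∑ B ∈ 𝒜, c B) * N.choose r = 𝒜.card * N.factorial := by
    rw [Finset.sum_mul, Finset.sum_congr rfl (fun B hB => hval B (h𝒜 B hB)), Finset.sum_const,
      smul_eq_mul]
  rw [← hfin, ← hcount]

end Pool.Agent.Lib.MP_b0b8df_co.Lin
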