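import Pool.Agent.Lib.MP_b0b8df_co.Lin.Stm

/-!
# MP_b0b8df_co, linear range: the law of the set of coordinates with a given property
-/

set_option autoImplicit false

namespace Pool.Agent.Lib.MP_b0b8df_co.Lin

open Finset

private lemma push_prod {α : Type} [DecidableEq α] [Fintype α] (W S : Finset α) (hS : S ⊆ W)
    (P Q : ℝ) :
    ∏ e : α, (if e ∈ S then P else if e ∈ W then Q else 1) =
      P ^ S.card * Q ^ (W.card - S.card) := by
  have h1 : ∀ e : α, (if e ∈ S then P else if e ∈ W then Q else 1) =
      (if e ∈ S then P else 1) * (if e ∈ W \ S then Q else 1) := by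
    intro e
    by_cases h : e ∈ S
    · simp [h]
    · by_cases h' : e ∈ W <;> simp [h, h']
  rw [Finset.prod_congr rfl fun e _ => h1 e, Finset.prod_mul_distrib, Finset.prod_ite_mem,
    Finset.prod_ite_mem, Finset.univ_inter, Finset.univ_inter, Finset.prod_const,
    Finset.prod_const, Finset.card_sdiff_of_subset hS]

theorem p_push : S_push := by
  intro α _ _ O _ _ w b _ W φ hw
  have hQ : ∑ o with ¬ b o, w o = 1 - ∑ o with b o, w o := by
    rw [← hw, ← Finset.sum_filter_add_sum_filter_not Finset.univ b w]
    ring
  unfold ex
  rw [← Finset.sum_fiberwise_of_maps_to (s := (Finset.univ : Finset (α → O)))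
    (t := W.powerset) (g := fun c => W.filter fun e => b (c e))
    (fun c _ => Finset.mem_powerset.2 (Finset.filter_subset _ _))]
  apply Finset.sum_congr rfl
  intro S hS
  rw [Finset.mem_powerset] at hS
  have h1 : ∑ c ∈ Finset.univ.filter (fun c : α → O => (W.filter fun e => b (c e)) = S),
      (∏ e, w (c e)) * φ (W.filter fun e => b (c e)) =
      (∑ c ∈ Finset.univ.filter (fun c : α → O => (W.filter fun e => b (c e)) = S),
        ∏ e, w (c e)) * φ S := by
    rw [Finset.sum_mul]
    apply Finset.sum_congr rfl
    intro c hc
    rw [(Finset.mem_filter.1 hc).2]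
  rw [h1]
  congr 1
  have h2 : Finset.univ.filter (fun c : α → O => (W.filter fun e => b (c e)) = S) =
      Fintype.piFinset (fun e : α => if e ∈ S then Finset.univ.filter b else
        if e ∈ W then Finset.univ.filter (fun o => ¬ b o) else Finset.univ) := by
    ext c
    rw [Finset.mem_filter, Fintype.mem_piFinset]
    constructor
    · rintro ⟨_, h⟩ e
      by_cases he : e ∈ S
      · rw [if_pos he, Finset.mem_filter]
        rw [← h, Finset.mem_filter] at he
        exact ⟨Finset.mem_univ _, he.2⟩
      · rw [if_neg he]
        by_cases heW : e ∈ W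
        · rw [if_pos heW, Finset.mem_filter]
          refine ⟨Finset.mem_univ _, fun hb => he ?_⟩
          rw [← h, Finset.mem_filter]
          exact ⟨heW, hb⟩
        · rw [if_neg heW]
          exact Finset.mem_univ _
    · intro h
      refine ⟨Finset.mem_univ _, ?_⟩
      ext e
      rw [Finset.mem_filter]
      have he := h e
      constructor
      · rintro ⟨heW, hb⟩
        by_contra heS
        rw [if_neg heS, if_pos heW, Finset.mem_filter] at he
        exact he.2 hb
      · intro heS
        rw [if_pos heS, Finset.mem_filter] at he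
        exact ⟨hS heS, he.2⟩
  rw [h2, ← Finset.prod_univ_sum]
  have h3 : ∀ e : α, ∑ o ∈ (if e ∈ S then Finset.univ.filter b else
        if e ∈ W then Finset.univ.filter (fun o => ¬ b o) else Finset.univ), w o =
      (if e ∈ S then (∑ o with b o, w o) else if e ∈ W then 1 - (∑ o with b o, w o) else 1) := by
    intro e
    split_ifs
    · rfl
    · exact hQ
    · exact hw
  rw [Finset.prod_congr rfl fun e _ => h3 e]
  exact push_prod W S hS _ _

end Pool.Agent.Lib.MP_b0b8df_co.Lin
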