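import Pool.Agent.Lib.MP_b0b8df_co.Lin.Stm

/-!
# MP_b0b8df_co, linear range: proof of `S_reg`
-/

set_option autoImplicit false

namespace Pool.Agent.Lib.MP_b0b8df_co.Lin

open Finset

/-- The number of `r`-sets of `M` containing a given `s`-set. -/
private theorem reg_above {α : Type} [DecidableEq α] (M D : Finset α) (r s : ℕ)
    (hM : M.card = r + s) (hD : D ⊆ M) (hDs : D.card = s) :
    ((M.powersetCard r).filter (fun A => D ⊆ A)).card = r.choose s := by
  have h : ((M.powersetCard r).filter (fun A => D ⊆ A)).card = ((M \ D).powersetCard s).card := by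
    refine Finset.card_nbij' (fun A => M \ A) (fun B => M \ B) ?_ ?_ ?_ ?_
    · intro A hA
      simp only [coe_filter, mem_powersetCard, Set.mem_ofPred_eq] at hA
      simp only [mem_coe, mem_powersetCard]
      obtain ⟨⟨hAM, hAr⟩, hDA⟩ := hA
      refine ⟨Finset.sdiff_subset_sdiff subset_rfl hDA, ?_⟩
      rw [Finset.card_sdiff_of_subset hAM]; omega
    · intro B hB
      simp only [mem_coe, mem_powersetCard] at hB
      simp only [coe_filter, mem_powersetCard, Set.mem_ofPred_eq]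
      obtain ⟨hBM, hBs⟩ := hB
      have hBM' : B ⊆ M := hBM.trans Finset.sdiff_subset
      refine ⟨⟨Finset.sdiff_subset, ?_⟩, ?_⟩
      · rw [Finset.card_sdiff_of_subset hBM']; omega
      · intro x hx
        rw [Finset.mem_sdiff]
        refine ⟨hD hx, fun hxB => ?_⟩
        exact (Finset.mem_sdiff.1 (hBM hxB)).2 hx
    · intro A hA
      simp only [coe_filter, mem_powersetCard, Set.mem_ofPred_eq] at hA
      exact Finset.sdiff_sdiff_eq_self hA.1.1
    · intro B hB
      simp only [mem_coe, mem_powersetCard] at hB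
      exact Finset.sdiff_sdiff_eq_self (hB.1.trans Finset.sdiff_subset)
  rw [h, Finset.card_powersetCard, Finset.card_sdiff_of_subset hD, hM, hDs, Nat.add_sub_cancel]

/-- A nonempty family of `r`-sets closed under exchanges is everything. -/
private theorem reg_conn {α : Type} [DecidableEq α] (M : Finset α) (r : ℕ)
    (𝒜 : Finset (Finset α)) (hA : 𝒜 ⊆ M.powersetCard r)
    (hex : ∀ A ∈ 𝒜, ∀ a ∈ A, ∀ b ∈ M, b ∉ A → insert b (A.erase a) ∈ 𝒜)
    (A'' : Finset α) (hA'' : A'' ∈ M.powersetCard r) :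
    ∀ (n : ℕ) (A : Finset α), A ∈ 𝒜 → (A'' \ A).card = n → A'' ∈ 𝒜 := by
  rw [mem_powersetCard] at hA''
  intro n
  induction n with
  | zero =>
    intro A hAA h0
    have h1 : A'' ⊆ A := by
      rw [Finset.card_eq_zero, Finset.sdiff_eq_empty_iff_subset] at h0; exact h0
    have h2 := mem_powersetCard.1 (hA hAA)
    have h3 : A'' = A := Finset.eq_of_subset_of_card_le h1 (by rw [h2.2, hA''.2])
    rw [h3]; exact hAA
  | succ n ih =>
    intro A hAA hn
    have h2 := mem_powersetCard.1 (hA hAA)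
    obtain ⟨b, hb⟩ : (A'' \ A).Nonempty := by
      rw [← Finset.card_pos, hn]; omega
    have hcard : (A \ A'').card = (A'' \ A).card := by
      have e1 := Finset.card_sdiff_add_card_inter A A''
      have e2 := Finset.card_sdiff_add_card_inter A'' A
      rw [Finset.inter_comm] at e2
      omega
    obtain ⟨a, ha⟩ : (A \ A'').Nonempty := by
      rw [← Finset.card_pos, hcard, hn]; omega
    rw [Finset.mem_sdiff] at ha hb
    have h3 := hex A hAA a ha.1 b (hA''.1 hb.1) hb.2
    refine ih _ h3 ?_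
    have h4 : A'' \ insert b (A.erase a) = (A'' \ A).erase b := by
      ext x
      simp only [Finset.mem_sdiff, Finset.mem_insert, Finset.mem_erase, not_or, not_and]
      constructor
      · rintro ⟨h5, h6, h7⟩
        refine ⟨h6, h5, fun hxA => ?_⟩
        exact h7 (fun hxa => ha.2 (hxa ▸ h5)) hxA
      · rintro ⟨h5, h6, h7⟩
        exact ⟨h6, h5, fun _ => h7⟩
    rw [h4, Finset.card_erase_of_mem (Finset.mem_sdiff.2 hb), hn]
    rfl

theorem p_reg : S_reg := by
  intro α _ M r s 𝒜 hM hs hsr hA hne hneq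
  have hcard : ∀ A ∈ 𝒜, A ⊆ M ∧ A.card = r := fun A hA' => mem_powersetCard.1 (hA hA')
  obtain ⟨𝒟, h𝒟⟩ : ∃ 𝒟, 𝒟 = (M.powersetCard s).filter fun D => ∃ A ∈ 𝒜, D ⊆ A := ⟨_, rfl⟩
  rw [← h𝒟]
  have h1 : ∀ A ∈ 𝒜, (𝒟.filter (fun D => D ⊆ A)).card = r.choose s := by
    intro A hA'
    have : 𝒟.filter (fun D => D ⊆ A) = A.powersetCard s := by
      ext D
      simp only [h𝒟, mem_filter, mem_powersetCard]
      constructor
      · rintro ⟨⟨⟨_, h2⟩, _⟩, h3⟩
        exact ⟨h3, h2⟩
      · rintro ⟨h3, h2⟩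
        exact ⟨⟨⟨h3.trans (hcard A hA').1, h2⟩, A, hA', h3⟩, h3⟩
    rw [this, card_powersetCard, (hcard A hA').2]
  have h2 : ∀ D ∈ 𝒟, ((M.powersetCard r).filter (fun A => D ⊆ A)).card = r.choose s := by
    intro D hD
    rw [h𝒟, mem_filter, mem_powersetCard] at hD
    exact reg_above M D r s hM hD.1.1 hD.1.2
  have h3 : ∀ D ∈ 𝒟, (𝒜.filter (fun A => D ⊆ A)).card ≤ r.choose s := by
    intro D hD
    rw [← h2 D hD]
    exact Finset.card_le_card (Finset.filter_subset_filter _ hA)
  -- a strict inequality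
  have h4 : ∃ D ∈ 𝒟, (𝒜.filter (fun A => D ⊆ A)).card < r.choose s := by
    by_contra hcon
    push Not at hcon
    have h5 : ∀ D ∈ 𝒟, ∀ A ∈ M.powersetCard r, D ⊆ A → A ∈ 𝒜 := by
      intro D hD A hAM hDA
      have h6 : 𝒜.filter (fun A => D ⊆ A) = (M.powersetCard r).filter (fun A => D ⊆ A) :=
        Finset.eq_of_subset_of_card_le (Finset.filter_subset_filter _ hA)
          (by rw [h2 D hD]; exact hcon D hD)
      have h7 : A ∈ (M.powersetCard r).filter (fun A => D ⊆ A) := mem_filter.2 ⟨hAM, hDA⟩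
      rw [← h6] at h7
      exact (mem_filter.1 h7).1
    have hex : ∀ A ∈ 𝒜, ∀ a ∈ A, ∀ b ∈ M, b ∉ A → insert b (A.erase a) ∈ 𝒜 := by
      intro A hAA a ha b hb hbA
      have hc : (A.erase a).card = r - 1 := by
        rw [Finset.card_erase_of_mem ha, (hcard A hAA).2]
      obtain ⟨D, hD, hDs⟩ := Finset.exists_subset_card_eq (show s ≤ (A.erase a).card by omega)
      have hDA : D ⊆ A := hD.trans (Finset.erase_subset a A)
      refine h5 D ?_ _ ?_ (hD.trans (Finset.subset_insert _ _))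
      · rw [h𝒟, mem_filter, mem_powersetCard]
        exact ⟨⟨hDA.trans (hcard A hAA).1, hDs⟩, A, hAA, hDA⟩
      · rw [mem_powersetCard]
        constructor
        · rw [Finset.insert_subset_iff]
          exact ⟨hb, (Finset.erase_subset a A).trans (hcard A hAA).1⟩
        · rw [Finset.card_insert_of_notMem (fun h => hbA (Finset.mem_of_mem_erase h)), hc]
          omega
    obtain ⟨A, hAA⟩ := hne
    exact hneq (Finset.Subset.antisymm hA fun A'' hA'' =>
      reg_conn M r 𝒜 hA hex A'' hA'' _ A hAA rfl)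
  have hdc := Finset.sum_card_bipartiteAbove_eq_sum_card_bipartiteBelow
    (s := 𝒜) (t := 𝒟) (fun A D => D ⊆ A)
  have hl : ∑ A ∈ 𝒜, (𝒟.bipartiteAbove (fun A D => D ⊆ A) A).card = 𝒜.card * r.choose s := by
    have h8 : ∑ A ∈ 𝒜, (𝒟.bipartiteAbove (fun A D => D ⊆ A) A).card = ∑ A ∈ 𝒜, r.choose s :=
      Finset.sum_congr rfl h1
    rw [h8, Finset.sum_const, smul_eq_mul]
  have hr : ∑ D ∈ 𝒟, (𝒜.bipartiteBelow (fun A D => D ⊆ A) D).card < 𝒟.card * r.choose s := by
    rw [← smul_eq_mul, ← Finset.sum_const]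
    exact Finset.sum_lt_sum h3 h4
  rw [← hdc, hl] at hr
  exact lt_of_mul_lt_mul_right hr (Nat.zero_le _)

end Pool.Agent.Lib.MP_b0b8df_co.Lin
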