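import Pool.Agent.Lib.MP_b0b8df_co.Lin.Stm

/-!
# MP_b0b8df_co, linear range: [LIN shadow]
-/

set_option autoImplicit false

namespace Pool.Agent.Lib.MP_b0b8df_co.Lin

open Finset
open scoped FinsetFamily

theorem p_shadow (hreg : S_reg) (hinit : S_init) : S_shadow := by
  intro r s ℬ h1 h2 hB hne hlt
  obtain ⟨hex, hloc⟩ := hinit (r + s + 1) r
  obtain ⟨𝒞, hI, hc⟩ := hex ℬ.card (hlt.le.trans (Nat.choose_le_choose r (by omega)))
  have hloc := hloc (r + s) 𝒞 (by omega) hI (by rw [hc]; exact hlt.le)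
  have hM : ((univ : Finset (Fin (r + s + 1))).erase (Fin.last (r + s))).card = r + s := by
    rw [Finset.card_erase_of_mem (Finset.mem_univ _), Finset.card_univ, Fintype.card_fin]
    omega
  have hsub : 𝒞 ⊆ ((univ : Finset (Fin (r + s + 1))).erase (Fin.last (r + s))).powersetCard r := by
    intro A hA
    rw [Finset.mem_powersetCard]
    refine ⟨fun a ha => ?_, hI.1 hA⟩
    rw [Finset.mem_erase]
    refine ⟨?_, Finset.mem_univ _⟩
    rintro rfl
    have := hloc A hA _ ha
    simp at this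
  have hne' : 𝒞.Nonempty := by
    rw [← Finset.card_pos, hc]
    exact Finset.card_pos.2 hne
  have hneq : 𝒞 ≠ ((univ : Finset (Fin (r + s + 1))).erase (Fin.last (r + s))).powersetCard r := by
    intro h
    have := congrArg Finset.card h
    rw [Finset.card_powersetCard, hM, hc] at this
    omega
  have hkey := hreg (Fin (r + s + 1)) _ r s 𝒞 hM h1 h2 hsub hne' hneq
  rw [hc] at hkey
  have hsz : (ℬ : Set (Finset (Fin (r + s + 1)))).Sized r := fun A hA => hB A hA
  have hkk : (∂^[r - s] 𝒞).card ≤ (∂^[r - s] ℬ).card := iterated_kk hsz hc.le hI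
  refine lt_of_lt_of_le hkey (le_trans (Finset.card_le_card ?_) (hkk.trans
    (Finset.card_le_card ?_)))
  · intro D hD
    rw [Finset.mem_filter, Finset.mem_powersetCard] at hD
    obtain ⟨⟨-, hDc⟩, A, hA, hDA⟩ := hD
    rw [Finset.mem_shadow_iterate_iff_exists_mem_card_add]
    refine ⟨A, hA, hDA, ?_⟩
    rw [hI.1 hA, hDc]
    omega
  · intro D hD
    rw [Finset.mem_shadow_iterate_iff_exists_mem_card_add] at hD
    obtain ⟨A, hA, hDA, hAc⟩ := hD
    rw [Finset.mem_filter, Finset.mem_powersetCard]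
    refine ⟨⟨Finset.subset_univ _, ?_⟩, A, hA, hDA⟩
    have := hB A hA
    omega

end Pool.Agent.Lib.MP_b0b8df_co.Lin
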