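import Pool.Agent.Lib.MP_b0b8df_co.Lin.Stm

/-!
# MP_b0b8df_co, linear range: the square of a polynomial of degree one
-/

set_option autoImplicit false

namespace Pool.Agent.Lib.MP_b0b8df_co.Lin

open Finset

variable {α : Type} [DecidableEq α]

theorem sqdeg1_const (p a : ℝ) (U S : Finset α) :
    pl p (fun T => if T = ∅ then a else 0) U S = a := by
  unfold pl
  rw [Finset.sum_eq_single ∅]
  · simp
  · intro T _ hT
    simp only
    rw [if_neg hT, zero_mul]
  · intro h
    exact absurd (Finset.empty_mem_powerset U) h

theorem sqdeg1_one (p : ℝ) (c : Finset α → ℝ) (S : Finset α) : ∀ U : Finset α,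
    pl p (fun T => if T.card ≤ 1 then c T else 0) U S = c ∅ + ∑ i ∈ U, c {i} * ps p i S := by
  intro U
  induction U using Finset.induction_on with
  | empty => simp [pl]
  | insert x U hx ih =>
    rw [pl_insert hx, ih, Finset.sum_insert hx]
    have h : pl p (fun T => if (insert x T).card ≤ 1 then c (insert x T) else 0) U S =
        pl p (fun T => if T = ∅ then c {x} else 0) U S := by
      apply pl_congr
      intro T hT
      have hxT : x ∉ T := fun h => hx (hT h)
      rw [Finset.card_insert_of_notMem hxT]
      by_cases h0 : T = ∅
      · subst h0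
        simp
      · have : 0 < T.card := Finset.card_pos.2 (Finset.nonempty_iff_ne_empty.2 h0)
        rw [if_neg h0, if_neg (by omega)]
    rw [h, sqdeg1_const]
    ring

theorem sqdeg1_two (p a : ℝ) (c : Finset α → ℝ) (S : Finset α) : ∀ U : Finset α,
    pl p (fun T => if T.card = 1 then a * ∏ i ∈ T, c {i} else 0) U S =
      a * ∑ i ∈ U, c {i} * ps p i S := by
  intro U
  induction U using Finset.induction_on with
  | empty => simp [pl]
  | insert x U hx ih =>
    rw [pl_insert hx, ih, Finset.sum_insert hx]
    have h : pl p (fun T => if (insert x T).card = 1 then a * ∏ i ∈ insert x T, c {i} else 0) U S =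
        pl p (fun T => if T = ∅ then a * c {x} else 0) U S := by
      apply pl_congr
      intro T hT
      have hxT : x ∉ T := fun h => hx (hT h)
      rw [Finset.card_insert_of_notMem hxT]
      by_cases h0 : T = ∅
      · subst h0
        simp
      · have : 0 < T.card := Finset.card_pos.2 (Finset.nonempty_iff_ne_empty.2 h0)
        rw [if_neg h0, if_neg (by omega)]
    rw [h, sqdeg1_const]
    ring

theorem sqdeg1_ps (p : ℝ) (x : α) (S : Finset α) :
    ps p x S ^ 2 = p * (1 - p) + (1 - 2 * p) * ps p x S := by
  unfold ps
  split_ifs <;> ring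

theorem sqdeg1_aux (p : ℝ) (c : Finset α → ℝ) : ∀ U : Finset α,
    ∃ e : Finset α → ℝ, (∀ T, 2 ≤ T.card → e T = 0) ∧ ∀ S,
      (pl p (fun T => if T.card ≤ 1 then c T else 0) U S) ^ 2 =
        pl p e U S + pl p (fun T => if T.card = 2 then 2 * ∏ i ∈ T, c {i} else 0) U S := by
  intro U
  induction U using Finset.induction_on with
  | empty =>
    refine ⟨fun T => if T = ∅ then c ∅ ^ 2 else 0, ?_, ?_⟩
    · intro T hT
      simp only
      rw [if_neg]
      rintro rfl
      simp at hT
    · intro S
      simp [pl]
  | insert x U hx ih =>
    obtain ⟨e, he, h⟩ := ih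
    refine ⟨fun T => if T = {x} then 2 * c {x} * c ∅ + (1 - 2 * p) * c {x} ^ 2 else
      if T = ∅ then e ∅ + p * (1 - p) * c {x} ^ 2 else if x ∈ T then 0 else e T, ?_, ?_⟩
    · intro T hT
      have h1 : T ≠ {x} := by
        rintro rfl
        simp at hT
      have h2 : T ≠ ∅ := by
        rintro rfl
        simp at hT
      simp only
      rw [if_neg h1, if_neg h2]
      split_ifs
      · rfl
      · exact he T hT
    · intro S
      have hl := sqdeg1_one p c S (insert x U)
      have hl0 := sqdeg1_one p c S U
      rw [Finset.sum_insert hx] at hl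
      have hS := h S
      have e1 : pl p (fun T => if T = {x} then 2 * c {x} * c ∅ + (1 - 2 * p) * c {x} ^ 2 else
          if T = ∅ then e ∅ + p * (1 - p) * c {x} ^ 2 else if x ∈ T then 0 else e T) (insert x U) S =
          pl p e U S + p * (1 - p) * c {x} ^ 2 +
            ps p x S * (2 * c {x} * c ∅ + (1 - 2 * p) * c {x} ^ 2) := by
        rw [pl_insert hx]
        congr 1
        · rw [← sqdeg1_const p (p * (1 - p) * c {x} ^ 2) U S, ← pl_add]
          apply pl_congr
          intro T hT
          have hxT : x ∉ T := fun h => hx (hT h)
          have h1 : T ≠ {x} := by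
            rintro rfl
            simp at hxT
          rw [if_neg h1]
          by_cases h0 : T = ∅
          · subst h0
            simp [sqdeg1_const]
          · rw [if_neg h0, if_neg h0, if_neg hxT, add_zero]
        · congr 1
          rw [← sqdeg1_const p (2 * c {x} * c ∅ + (1 - 2 * p) * c {x} ^ 2) U S]
          apply pl_congr
          intro T hT
          have hxT : x ∉ T := fun h => hx (hT h)
          by_cases h0 : T = ∅
          · subst h0
            simp [sqdeg1_const]
          · have h1 : insert x T ≠ {x} := by
              intro h1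
              apply h0
              rw [Finset.eq_empty_iff_forall_notMem]
              intro y hy
              have h2 : y ∈ insert x T := Finset.mem_insert_of_mem hy
              rw [h1, Finset.mem_singleton] at h2
              exact hxT (h2 ▸ hy)
            rw [if_neg h1, if_neg (Finset.insert_ne_empty x T), if_pos (Finset.mem_insert_self x T),
              if_neg h0]
      have e2 : pl p (fun T => if T.card = 2 then 2 * ∏ i ∈ T, c {i} else 0) (insert x U) S =
          pl p (fun T => if T.card = 2 then 2 * ∏ i ∈ T, c {i} else 0) U S +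
            ps p x S * ((2 * c {x}) * ∑ i ∈ U, c {i} * ps p i S) := by
        rw [pl_insert hx]
        congr 2
        rw [← sqdeg1_two]
        apply pl_congr
        intro T hT
        have hxT : x ∉ T := fun h => hx (hT h)
        rw [Finset.card_insert_of_notMem hxT, Finset.prod_insert hxT]
        by_cases h0 : T.card = 1
        · rw [if_pos h0, if_pos (by omega)]
          ring
        · rw [if_neg h0, if_neg (by omega)]
      rw [e1, e2]
      have e3 := sqdeg1_ps p x S
      rw [hl]
      rw [hl0] at hS
      linear_combination hS + c {x} ^ 2 * e3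

theorem p_sqdeg1 : S_sqdeg1 := by
  intro α _ U p c
  obtain ⟨e, he, h⟩ := sqdeg1_aux p c U
  exact ⟨e, he, fun S _ => h S⟩

end Pool.Agent.Lib.MP_b0b8df_co.Lin
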