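import Pool.Agent.Lib.MP_b0b8df_co.Lin.Stm

set_option autoImplicit false

namespace Pool.Agent.Lib.MP_b0b8df_co.Lin

open Finset

theorem p_stab (hstab1 : S_stab1) (hstab2 : S_stab2) (hmonop : S_monop) : S_stab := by
  intro d lam η hd hlam hη
  have hd' : (1 : ℝ) ≤ d := by exact_mod_cast hd
  have hd1 : (0 : ℝ) < (d : ℝ) + 1 := by linarith
  set lam' : ℝ := min (min lam (1 / ((d : ℝ) + 1))) (1 / 2) with hlam'
  have hl0 : 0 < lam' := by
    rw [hlam']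
    exact lt_min (lt_min hlam (by positivity)) (by norm_num)
  have hl1 : lam' ≤ lam := (min_le_left _ _).trans (min_le_left _ _)
  have hl2 : lam' ≤ 1 / ((d : ℝ) + 1) := (min_le_left _ _).trans (min_le_right _ _)
  have hl3 : lam' ≤ 1 / 2 := min_le_right _ _
  obtain ⟨δ0, hδ0, H2⟩ := hstab2 lam' η hl0 hl3 hη
  set δ : ℝ := min (min δ0 lam) 1 with hδ
  have hδp : 0 < δ := lt_min (lt_min hδ0 hlam) one_pos
  have hδ1 : δ ≤ δ0 := (min_le_left _ _).trans (min_le_left _ _)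
  have hδ2 : δ ≤ lam := (min_le_left _ _).trans (min_le_right _ _)
  have hδ3 : δ ≤ 1 := min_le_right _ _
  refine ⟨δ ^ 2, by positivity, ?_⟩
  intro α _ _ J g p hp1 hp2 hg hmon hwi hex
  have hp0 : 0 < p := by linarith
  have hpd : ((d : ℝ) + 1) * (p + δ) ≤ d := by nlinarith
  obtain ⟨r, hr1, hr2, hr3, hr4, hr5⟩ := hstab1 α d J g p δ hd hp0 hδp hδ3 hpd hg hmon hwi hex
  have hrd : r ≤ (d : ℝ) / ((d : ℝ) + 1) := by
    rw [le_div_iff₀ hd1]
    nlinarith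
  have hr1' : r ≤ 1 - lam' := by
    have h3 : (d : ℝ) / ((d : ℝ) + 1) = 1 - 1 / ((d : ℝ) + 1) := by
      field_simp
      ring
    linarith
  obtain ⟨x, hx, hxe⟩ := H2 α J g r δ (by linarith) hr1' hδp hδ1 hg hmon hr3 hr4 hr5
  refine ⟨x, hx, ?_⟩
  exact (hmonop α (J.erase x) g p r hmon hp0.le hr1 (by linarith)).trans hxe

end Pool.Agent.Lib.MP_b0b8df_co.Lin
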