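import Pool.Agent.Lib.MP_b0b8df_co.Lin.Stm

set_option autoImplicit false

namespace Pool.Agent.Lib.MP_b0b8df_co.Lin

open Finset

theorem p_stab1 (hmvt : S_mvt) (hmonop : S_monop) (hF7 : S_F7) : S_stab1 := by
  intro α _ _ d J g p δ hd hp hδ hδ1 hpd hb hm hw hex
  have hd0 : (0 : ℝ) ≤ (d : ℝ) := Nat.cast_nonneg d
  have hd1 : (0 : ℝ) < (d : ℝ) + 1 := by linarith
  have hple : p + δ ≤ 1 := by
    by_contra h
    push Not at h
    have : (d : ℝ) + 1 < ((d : ℝ) + 1) * (p + δ) := by nlinarith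
    linarith
  obtain ⟨r, ⟨hr1, hr2⟩, hr⟩ := hmvt α J g p (p + δ) (by linarith)
  have hr0 : 0 < r := by linarith
  have hdr : ((d : ℝ) + 1) * r ≤ d :=
    le_trans (mul_le_mul_of_nonneg_left hr2.le hd1.le) hpd
  have h1 : ex (p + δ) J g ≤ p + δ := hF7 α d J g (p + δ) hd (by linarith) hpd hb hm hw
  have h2 : ex r J g ≤ r := hF7 α d J g r hd hr0 hdr hb hm hw
  have h3 : ex p J g ≤ ex r J g := hmonop α J g p r hm hp.le hr1.le (by linarith)
  refine ⟨r, hr1.le, hr2.le, ?_, ?_, h2⟩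
  · have h4 : (∑ i ∈ J, ex r J (D i g)) * δ ≤ (1 + δ) * δ := by
      have : (∑ i ∈ J, ex r J (D i g)) * δ = ex (p + δ) J g - ex p J g := by
        rw [← hr]; ring
      rw [this]
      nlinarith
    exact le_of_mul_le_mul_right h4 hδ
  · nlinarith

end Pool.Agent.Lib.MP_b0b8df_co.Lin
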