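import Pool.Agent.Lib.MP_b0b8df_co.Lin.Stm

/-!
# MP_b0b8df_co, linear range: functions which almost attain the bound
-/

set_option autoImplicit false
set_option linter.unusedSectionVars false

namespace Pool.Agent.Lib.MP_b0b8df_co.Lin

open Finset

variable {α : Type} [DecidableEq α]

private lemma stab2_term {s : ℝ} (hs : 0 ≤ s) (U : Finset α) (c : Finset α → ℝ) :
    sqs s U (fun T => ¬ T ⊆ ∅) c + sqs s U (fun T => 2 ≤ T.card) c ≤
      ∑ T ∈ U.powerset, (T.card : ℝ) * (c T ^ 2 * s ^ T.card) := by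
  classical
  unfold sqs
  rw [Finset.sum_filter, Finset.sum_filter, ← Finset.sum_add_distrib]
  apply Finset.sum_le_sum
  intro T _
  have h0 : 0 ≤ c T ^ 2 * s ^ T.card := by positivity
  by_cases h2 : 2 ≤ T.card
  · have h1 : ¬ T ⊆ ∅ := by
      intro h
      rw [Finset.subset_empty] at h
      rw [h] at h2
      simp at h2
    rw [if_pos h1, if_pos h2]
    have : (2 : ℝ) ≤ T.card := by exact_mod_cast h2
    nlinarith
  · by_cases h1 : ¬ T ⊆ ∅
    · rw [if_pos h1, if_neg h2]
      have h3 : 1 ≤ T.card := by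
        rw [Nat.one_le_iff_ne_zero]
        intro h
        exact h1 (by rw [Finset.card_eq_zero.1 h])
      have : (1 : ℝ) ≤ T.card := by exact_mod_cast h3
      nlinarith
    · rw [if_neg h1, if_neg h2, add_zero]
      positivity

theorem p_stab2 (hcomplete : S_complete) (hinfl : S_infl) (hcond : S_cond) (hfkn : S_fkn) :
    S_stab2 := by
  intro lam η hlam hlam2 hη
  have hκ0 : 0 < 4 / lam := by positivity
  refine ⟨min (lam / 20) (η * lam ^ 2 / (3 * (8 * (4 / lam) ^ 3 / lam + 1))), ?_, ?_⟩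
  · apply lt_min
    · positivity
    · positivity
  intro α _ J g r δ hr1 hr2 hδ hδ0 hbool hmono hsum hm1 hm2
  have hδ1 : δ ≤ lam / 20 := hδ0.trans (min_le_left _ _)
  have hδ2 : δ ≤ η * lam ^ 2 / (3 * (8 * (4 / lam) ^ 3 / lam + 1)) := hδ0.trans (min_le_right _ _)
  have hr0 : 0 < r := by linarith
  have hr3 : r < 1 := by linarith
  have hs0 : 0 < r * (1 - r) := mul_pos hr0 (by linarith)
  have hs1 : lam / 2 ≤ r * (1 - r) := by nlinarith
  have hs2 : r * (1 - r) ≤ 1 / 4 := by nlinarith [sq_nonneg (r - 1 / 2)]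
  have hκ4 : 4 ≤ 4 / lam := by rw [le_div_iff₀ hlam]; linarith
  have hκs : 3 ≤ (4 / lam) ^ 2 * (r * (1 - r)) := by
    have h1 : (4 / lam) ^ 2 * (lam / 2) ≤ (4 / lam) ^ 2 * (r * (1 - r)) :=
      mul_le_mul_of_nonneg_left hs1 (by positivity)
    have h2 : (4 / lam) ^ 2 * (lam / 2) = 2 * (4 / lam) := by
      field_simp
      try ring
    rw [h2] at h1
    linarith
  obtain ⟨c, hc⟩ := hcomplete α J r g
  have hgg : ∀ S, g S ^ 2 = g S := by
    intro S
    rcases hbool S with h0 | h0 <;> rw [h0] <;> norm_num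
  have hg0 : ∀ S, 0 ≤ g S := by
    intro S
    rcases hbool S with h0 | h0 <;> rw [h0] <;> norm_num
  have hg1 : ∀ S, g S ≤ 1 := by
    intro S
    rcases hbool S with h0 | h0 <;> rw [h0] <;> norm_num
  have hDD : ∀ i S, D i g S ^ 2 = D i g S := by
    intro i S
    have h1 : g (S.erase i) ≤ g (insert i S) :=
      hmono ((Finset.erase_subset i S).trans (Finset.subset_insert i S))
    unfold D
    rcases hbool (insert i S) with h2 | h2 <;> rcases hbool (S.erase i) with h3 | h3
    · rw [h2, h3]; norm_num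
    · rw [h2, h3] at h1; norm_num at h1
    · rw [h2, h3]; norm_num
    · rw [h2, h3]; norm_num
  have hm0 : 0 ≤ ex r J g := ex_nonneg hr0.le hr3.le fun S _ => hg0 S
  -- total variance
  have hvar : ex r J g - (ex r J g) ^ 2 = sqs (r * (1 - r)) J (fun T => ¬ T ⊆ ∅) c := by
    have h1 := hcond α J ∅ r c g (Finset.empty_subset J) hc
    rw [← h1, ex_empty, mm, Finset.sdiff_empty]
    simp only [Finset.empty_union]
    congr 1
    exact ex_congr fun S _ => (hgg S).symm
  have hinf : ∑ T ∈ J.powerset, (T.card : ℝ) * (c T ^ 2 * (r * (1 - r)) ^ T.card) ≤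
      (r * (1 - r)) * (1 + δ) := by
    rw [← (hinfl α J r c g hc).2]
    apply mul_le_mul_of_nonneg_left _ hs0.le
    refine le_trans (le_of_eq ?_) hsum
    apply Finset.sum_congr rfl
    intro i _
    exact ex_congr fun S _ => hDD i S
  have hterm := stab2_term hs0.le J c
  have hkey : -(2 * δ) ≤ (ex r J g - (ex r J g) ^ 2) - r * (1 - r) := by
    have h1 : (ex r J g - (ex r J g) ^ 2) - r * (1 - r) =
        (ex r J g - r) * (1 - ex r J g - r) := by ring
    rw [h1]
    have h2 : -(2 * δ) ≤ ex r J g - r := by linarith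
    have h3 : ex r J g - r ≤ 0 := by linarith
    have h4 : 1 - ex r J g - r ≤ 1 := by linarith
    have h5 : (ex r J g - r) * 1 ≤ (ex r J g - r) * (1 - ex r J g - r) :=
      mul_le_mul_of_nonpos_left h4 h3
    linarith
  have hhigh : sqs (r * (1 - r)) J (fun T => 2 ≤ T.card) c ≤ 3 * δ := by
    have h1 : (r * (1 - r)) * δ ≤ 1 / 4 * δ := mul_le_mul_of_nonneg_right hs2 hδ.le
    nlinarith
  have hlow : lam / 4 ≤ sqs (r * (1 - r)) J (fun T => T.card = 1) c := by
    have h1 := sqs_add_not (r * (1 - r)) J (fun T => ¬ T ⊆ ∅) (fun T => 2 ≤ T.card) c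
    have h2 : sqs (r * (1 - r)) J (fun T => ¬ T ⊆ ∅ ∧ 2 ≤ T.card) c ≤
        sqs (r * (1 - r)) J (fun T => 2 ≤ T.card) c :=
      sqs_mono hs0.le J (fun T _ h => h.2) c
    have h3 : sqs (r * (1 - r)) J (fun T => ¬ T ⊆ ∅ ∧ ¬ 2 ≤ T.card) c ≤
        sqs (r * (1 - r)) J (fun T => T.card = 1) c := by
      apply sqs_mono hs0.le J
      intro T _ h
      have h4 : T.card ≠ 0 := by
        intro h5
        exact h.1 (by rw [Finset.card_eq_zero.1 h5])
      have h6 := h.2
      omega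
    linarith
  obtain ⟨x, hx, hxs⟩ := hfkn α J r (4 / lam) (3 * δ) (lam / 4) c g hr0 hr3 hκ4 hκs
    (by positivity) hbool hc hhigh hlow
  refine ⟨x, hx, ?_⟩
  have hε1 : sqs (r * (1 - r)) J (fun T => ¬ T ⊆ {x}) c ≤ η * lam ^ 2 := by
    refine hxs.trans ?_
    have h1 : 2 * (4 / lam) ^ 3 / (lam / 4) + 1 = 8 * (4 / lam) ^ 3 / lam + 1 := by
      field_simp; ring
    rw [h1]
    have h2 : 0 < 8 * (4 / lam) ^ 3 / lam + 1 := by positivity
    rw [le_div_iff₀ (by positivity)] at hδ2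
    calc (8 * (4 / lam) ^ 3 / lam + 1) * (3 * δ) = δ * (3 * (8 * (4 / lam) ^ 3 / lam + 1)) := by ring
      _ ≤ _ := hδ2
  -- the conditional variances
  have hcx := hcond α J {x} r c g (Finset.singleton_subset_iff.2 hx) hc
  rw [← hcx] at hε1
  have hJx : J \ {x} = J.erase x := Finset.sdiff_singleton_eq_erase x J
  have h0 : ∀ ψ : Finset α → ℝ, ex r {x} ψ = r * ψ {x} + (1 - r) * ψ ∅ := by
    intro ψ
    have h := ex_insert (p := r) (U := (∅ : Finset α)) (x := x) (Finset.notMem_empty x) ψ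
    simpa using h
  rw [h0] at hε1
  have hvar1 : 0 ≤ ex r (J \ {x}) (fun S => g ({x} ∪ S) ^ 2) - mm r J {x} g {x} ^ 2 := by
    have h1 : ex r (J \ {x}) (fun S => g ({x} ∪ S) ^ 2) = mm r J {x} g {x} := by
      unfold mm
      exact ex_congr fun S _ => hgg _
    rw [h1]
    have h2 : 0 ≤ mm r J {x} g {x} := ex_nonneg hr0.le hr3.le fun S _ => hg0 _
    have h3 : mm r J {x} g {x} ≤ 1 := ex_le_one hr0.le hr3.le fun S _ => hg1 _
    nlinarith
  have hvar0 : ex r (J \ {x}) (fun S => g (∅ ∪ S) ^ 2) - mm r J {x} g ∅ ^ 2 =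
      ex r (J.erase x) g * (1 - ex r (J.erase x) g) := by
    have h1 : ex r (J \ {x}) (fun S => g (∅ ∪ S) ^ 2) = ex r (J.erase x) g := by
      rw [hJx]
      exact ex_congr fun S _ => by rw [Finset.empty_union, hgg]
    have h2 : mm r J {x} g ∅ = ex r (J.erase x) g := by
      unfold mm
      rw [hJx]
      exact ex_congr fun S _ => by rw [Finset.empty_union]
    rw [h1, h2]; ring
  rw [hvar0] at hε1
  have hm0' : 0 ≤ ex r (J.erase x) g := ex_nonneg hr0.le hr3.le fun S _ => hg0 S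
  have hle : ex r (J.erase x) g ≤ r := by
    refine le_trans ?_ hm2
    rw [ex_erase hx]
    have h1 : ex r (J.erase x) g ≤ ex r (J.erase x) (fun S => g (insert x S)) :=
      ex_mono hr0.le hr3.le fun S _ => hmono (Finset.subset_insert x S)
    nlinarith
  have h5 : (1 - r) * (ex r (J.erase x) g * (1 - ex r (J.erase x) g)) ≤ η * lam ^ 2 := by
    have : 0 ≤ r * (ex r (J \ {x}) (fun S => g ({x} ∪ S) ^ 2) - mm r J {x} g {x} ^ 2) :=
      mul_nonneg hr0.le hvar1
    linarith
  have h6 : lam * (ex r (J.erase x) g * lam) ≤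
      (1 - r) * (ex r (J.erase x) g * (1 - ex r (J.erase x) g)) := by
    apply mul_le_mul (by linarith) _ (by positivity) (by linarith)
    exact mul_le_mul_of_nonneg_left (by linarith) hm0'
  have h7 : ex r (J.erase x) g * lam ^ 2 ≤ η * lam ^ 2 := by
    calc ex r (J.erase x) g * lam ^ 2 = lam * (ex r (J.erase x) g * lam) := by ring
      _ ≤ _ := h6.trans h5
  exact le_of_mul_le_mul_right h7 (by positivity)

end Pool.Agent.Lib.MP_b0b8df_co.Lin
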