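import Pool.Agent.Lib.MP_b0b8df_co.Lin.Stm

/-! piece tail (helper83) -/

set_option autoImplicit false

namespace Pool.Agent.Lib.MP_b0b8df_co.Lin

open Finset

theorem p_tail (hcheb : S_cheb) : S_tail := by
  intro α _ U k p hp0 hp1 hk
  have ht : 0 < p * U.card - k := by linarith
  have h := (hcheb α U p).2 (p * U.card - k) hp0 hp1 ht
  have h1 : 1 - ex p U (fun S => if p * U.card - k ≤ |(S.card : ℝ) - p * U.card| then 1 else 0) =
      ex p U (fun S => 1 - (if p * U.card - k ≤ |(S.card : ℝ) - p * U.card| then (1 : ℝ) else 0)) := by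
    rw [ex_sub, ex_const]
  have h2 : ex p U (fun S => 1 - (if p * U.card - k ≤ |(S.card : ℝ) - p * U.card| then (1 : ℝ) else 0)) ≤
      ex p U (fun S => if k ≤ S.card then 1 else 0) := by
    apply ex_mono hp0 hp1
    intro S _
    by_cases hS : k ≤ S.card
    · rw [if_pos hS]
      split_ifs <;> norm_num
    · rw [if_neg hS]
      push Not at hS
      have hS' : (S.card : ℝ) < k := by exact_mod_cast hS
      have h3 : p * U.card - k ≤ |(S.card : ℝ) - p * U.card| := by
        rw [abs_sub_comm]
        exact le_trans (by linarith) (le_abs_self _)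
      rw [if_pos h3]
      norm_num
  linarith

end Pool.Agent.Lib.MP_b0b8df_co.Lin
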