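import Pool.Agent.Lib.MP_b0b8df_co.Lin.Stm

/-!
# MP_b0b8df_co, linear range: the piece `block`
-/

set_option autoImplicit false

namespace Pool.Agent.Lib.MP_b0b8df_co.Lin

open Finset

private lemma block_card (N a b : ℕ) (hb : b ≤ N) :
    ((univ : Finset (Fin N)).filter fun e => a ≤ e.val ∧ e.val < b).card = b - a := by
  have h : ((univ : Finset (Fin N)).filter fun e => a ≤ e.val ∧ e.val < b).map
      Fin.valEmbedding = Finset.Ico a b := by
    ext x
    simp only [Finset.mem_map, Finset.mem_filter, Finset.mem_univ, true_and,
      Fin.valEmbedding_apply, Finset.mem_Ico]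
    constructor
    · rintro ⟨e, he, rfl⟩
      exact he
    · intro hx
      exact ⟨⟨x, lt_of_lt_of_le hx.2 hb⟩, hx, rfl⟩
  rw [← Finset.card_map Fin.valEmbedding, h, Nat.card_Ico]

private lemma block_card2 (N l q w : ℕ) (hw : w ≤ N) (hl : l + q ≤ w) :
    ((univ : Finset (Fin N)).filter fun e =>
      e.val < w ∧ ¬ (l ≤ e.val ∧ e.val < l + q)).card = w - q := by
  have h1 := block_card N 0 w hw
  have h2 := block_card N l (l + q) (hl.trans hw)
  have h3 := Finset.card_filter_add_card_filter_not
    (s := (univ : Finset (Fin N)).filter fun e => 0 ≤ e.val ∧ e.val < w)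
    (fun e : Fin N => l ≤ e.val ∧ e.val < l + q)
  rw [Finset.filter_filter, Finset.filter_filter] at h3
  have e1 : ((univ : Finset (Fin N)).filter fun e =>
      (0 ≤ e.val ∧ e.val < w) ∧ (l ≤ e.val ∧ e.val < l + q)) =
      (univ : Finset (Fin N)).filter fun e => l ≤ e.val ∧ e.val < l + q := by
    ext e
    simp only [Finset.mem_filter, Finset.mem_univ, true_and]
    omega
  have e2 : ((univ : Finset (Fin N)).filter fun e =>
      (0 ≤ e.val ∧ e.val < w) ∧ ¬ (l ≤ e.val ∧ e.val < l + q)) =
      (univ : Finset (Fin N)).filter fun e =>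
        e.val < w ∧ ¬ (l ≤ e.val ∧ e.val < l + q) := by
    ext e
    simp only [Finset.mem_filter, Finset.mem_univ, true_and]
    omega
  rw [e1, e2, h1, h2] at h3
  omega

theorem p_block : S_block := by
  intro N k' m d w hk hm hw hkd
  obtain ⟨q, rfl⟩ : ∃ q, w = m + q := ⟨w - m, by omega⟩
  refine ⟨univ.filter fun e => 0 ≤ e.val ∧ e.val < k', fun i => univ.filter fun e =>
    e.val < m + q ∧ ¬ ((if (i.val + 1) * q ≤ m + q then i.val * q else m) ≤ e.val ∧
      e.val < (if (i.val + 1) * q ≤ m + q then i.val * q else m) + q), ?_, ?_, ?_, ?_, ?_⟩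
  · rw [block_card N 0 k' (hk.trans hw)]
    omega
  · intro i
    rw [block_card2 N _ q (m + q) hw ?_]
    · omega
    · split_ifs with h
      · have : (i.val + 1) * q = i.val * q + q := by ring
        omega
      · exact le_rfl
  · intro e
    by_cases he : e.val < k'
    · right
      have hkq : k' ≤ d * q := by
        have : d * (m + q) = d * m + d * q := by ring
        omega
      have hq : 0 < q := by
        rcases Nat.eq_zero_or_pos q with h | h
        · rw [h, Nat.mul_zero] at hkq
          omega
        · exact h
      have hid : e.val / q < d := by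
        rw [Nat.div_lt_iff_lt_mul hq]
        omega
      have hdm := Nat.div_add_mod e.val q
      have hml := Nat.mod_lt e.val hq
      refine ⟨⟨e.val / q, hid⟩, ?_⟩
      simp only [Finset.mem_filter, Finset.mem_univ, true_and]
      have h1 : e.val / q * q ≤ e.val := Nat.div_mul_le_self _ _
      have h2 : e.val < e.val / q * q + q := by
        rw [Nat.mul_comm]
        omega
      have h3 : (e.val / q + 1) * q = e.val / q * q + q := by ring
      intro hc
      apply hc.2
      split_ifs with h
      · exact ⟨h1, h2⟩
      · constructor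
        · omega
        · omega
    · left
      simp only [Finset.mem_filter, Finset.mem_univ, true_and]
      omega
  · intro e he
    simp only [Finset.mem_filter, Finset.mem_univ, true_and] at he
    omega
  · intro i e he
    simp only [Finset.mem_filter, Finset.mem_univ, true_and] at he
    exact he.1

end Pool.Agent.Lib.MP_b0b8df_co.Lin
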