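import Pool.Agent.Lib.MP_b0b8df_co.Lin.Stm

/-!
# MP_b0b8df_co, linear range, piece [LIN complete]
-/

set_option autoImplicit false

namespace Pool.Agent.Lib.MP_b0b8df_co.Lin

open Finset

private lemma complete_lin {α : Type} [DecidableEq α] (p a b : ℝ) (c c' : Finset α → ℝ)
    (U S : Finset α) :
    pl p (fun T => a * c T + b * c' T) U S = a * pl p c U S + b * pl p c' U S := by
  unfold pl
  rw [Finset.mul_sum, Finset.mul_sum, ← Finset.sum_add_distrib]
  exact Finset.sum_congr rfl fun T _ => by ring

theorem p_complete : S_complete := by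
  intro α _ U p φ
  induction U using Finset.induction_on generalizing φ with
  | empty =>
    refine ⟨fun _ => φ ∅, fun S hS => ?_⟩
    rw [Finset.subset_empty.1 hS]
    simp [pl]
  | insert x U hx ih =>
    obtain ⟨c0, h0⟩ := ih φ
    obtain ⟨c1, h1⟩ := ih (fun S => φ (insert x S))
    refine ⟨fun T => if x ∈ T then c1 (T.erase x) - c0 (T.erase x) else
      p * c1 T + (1 - p) * c0 T, fun S hS => ?_⟩
    rw [pl_insert hx]
    have e1 : ∀ R, pl p (fun T => if x ∈ T then c1 (T.erase x) - c0 (T.erase x) else
        p * c1 T + (1 - p) * c0 T) U R = p * pl p c1 U R + (1 - p) * pl p c0 U R := by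
      intro R
      rw [← complete_lin]
      apply pl_congr
      intro T hT
      rw [if_neg (fun h => hx (hT h))]
    have e2 : ∀ R, pl p (fun T => if x ∈ insert x T then c1 ((insert x T).erase x) -
        c0 ((insert x T).erase x) else p * c1 (insert x T) + (1 - p) * c0 (insert x T)) U R =
        1 * pl p c1 U R + (-1) * pl p c0 U R := by
      intro R
      rw [← complete_lin]
      apply pl_congr
      intro T hT
      rw [if_pos (Finset.mem_insert_self x T), Finset.erase_insert (fun h => hx (hT h))]
      ring
    rw [e1, e2]
    by_cases hxS : x ∈ S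
    · have hR : S.erase x ⊆ U := by
        intro y hy
        rw [Finset.mem_erase] at hy
        exact (Finset.mem_insert.1 (hS hy.2)).resolve_left hy.1
      have hS' : S = insert x (S.erase x) := (Finset.insert_erase hxS).symm
      have g0 := h0 _ hR
      have g1 := h1 _ hR
      rw [← pl_insert_right hx, Finset.insert_erase hxS] at g0
      rw [← pl_insert_right hx, Finset.insert_erase hxS] at g1
      have hps : ps p x S = 1 - p := by simp [ps, hxS]
      rw [hps, ← g0, ← g1]
      ring
    · have hR : S ⊆ U := by
        intro y hy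
        exact (Finset.mem_insert.1 (hS hy)).resolve_left (fun h => hxS (h ▸ hy))
      have g0 := h0 _ hR
      have g1 := h1 _ hR
      have hps : ps p x S = -p := by simp [ps, hxS]
      rw [hps, ← g0, ← g1]
      ring

end Pool.Agent.Lib.MP_b0b8df_co.Lin
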