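import Pool.Agent.Lib.MP_b0b8df_co.Lin.Stm

/-!
# MP_b0b8df_co, linear range: the FKN theorem
-/

set_option autoImplicit false

namespace Pool.Agent.Lib.MP_b0b8df_co.Lin

open Finset

/-- [LIN fkn] -/
theorem p_fkn (hW : S_fknW) (hsum : S_fknsum) : S_fkn := by
  intro α _ U p κ δ v c f hp0 hp1 hκ hκs hv hB hf hδ hv1
  obtain ⟨h1, h2⟩ := hsum α U (p * (1 - p)) c
  have hw := hW α U p κ δ c f hp0 hp1 hκ hκs hB hf hδ
  have hs0 : 0 ≤ p * (1 - p) := mul_nonneg hp0.le (by linarith)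
  rw [h2] at hw
  set a : α → ℝ := fun i => c {i} ^ 2 * (p * (1 - p)) with ha
  have ha0 : ∀ i, 0 ≤ a i := fun i => by rw [ha]; positivity
  have hA1 : sqs (p * (1 - p)) U (fun T => T.card = 1) c = ∑ i ∈ U, a i := h1
  have hA : v ≤ ∑ i ∈ U, a i := by rw [← hA1]; exact hv1
  have hw' : 2 * ((∑ i ∈ U, a i) ^ 2 - ∑ i ∈ U, a i ^ 2) ≤ 4 * κ ^ 3 * δ := hw
  have hne : U.Nonempty := by
    by_contra hU
    rw [Finset.not_nonempty_iff_eq_empty] at hU
    rw [hU, Finset.sum_empty] at hA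
    linarith
  obtain ⟨x, hx, hmax⟩ := Finset.exists_max_image U a hne
  refine ⟨x, hx, ?_⟩
  set A : ℝ := ∑ i ∈ U, a i with hAdef
  have hsq : ∑ i ∈ U, a i ^ 2 ≤ a x * A := by
    rw [hAdef, Finset.mul_sum]
    apply Finset.sum_le_sum
    intro i hi
    rw [pow_two]
    exact mul_le_mul_of_nonneg_right (hmax i hi) (ha0 i)
  have hax : a x ≤ A := Finset.single_le_sum (fun i _ => ha0 i) hx
  have h3 : v * (A - a x) ≤ 2 * κ ^ 3 * δ := by
    have : v * (A - a x) ≤ A * (A - a x) := mul_le_mul_of_nonneg_right hA (by linarith)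
    nlinarith
  have h4 : A - a x ≤ 2 * κ ^ 3 / v * δ := by
    rw [div_mul_eq_mul_div, le_div_iff₀ hv]
    linarith
  -- the sum over the `T` not contained in `{x}`
  have e1 := sqs_add_not (p * (1 - p)) U (fun T => ¬ T ⊆ {x}) (fun T => 2 ≤ T.card) c
  have e2 : sqs (p * (1 - p)) U (fun T => ¬ T ⊆ {x} ∧ 2 ≤ T.card) c ≤ δ :=
    (sqs_mono hs0 U (fun T _ h => h.2) c).trans hδ
  have e3 := sqs_add_not (p * (1 - p)) U (fun T => T.card = 1) (fun T => T = {x}) c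
  have e4 : a x ≤ sqs (p * (1 - p)) U (fun T => T.card = 1 ∧ T = {x}) c := by
    classical
    unfold sqs
    have hmem : ({x} : Finset α) ∈ U.powerset.filter (fun T => T.card = 1 ∧ T = {x}) := by
      rw [Finset.mem_filter, Finset.mem_powerset, Finset.singleton_subset_iff]
      exact ⟨hx, Finset.card_singleton x, rfl⟩
    have := Finset.single_le_sum (f := fun T : Finset α => c T ^ 2 * (p * (1 - p)) ^ T.card)
      (fun T _ => by positivity) hmem
    simpa [ha] using this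
  have e5 : sqs (p * (1 - p)) U (fun T => ¬ T ⊆ {x} ∧ ¬ 2 ≤ T.card) c ≤
      sqs (p * (1 - p)) U (fun T => T.card = 1 ∧ ¬ T = {x}) c := by
    apply sqs_mono hs0 U _ c
    rintro T - ⟨hT1, hT2⟩
    have hT0 : T.card ≠ 0 := by
      intro h0
      rw [Finset.card_eq_zero] at h0
      exact hT1 (h0 ▸ Finset.empty_subset _)
    exact ⟨by omega, fun h => hT1 (h ▸ Finset.Subset.refl _)⟩
  calc sqs (p * (1 - p)) U (fun T => ¬ T ⊆ {x}) c
      = sqs (p * (1 - p)) U (fun T => ¬ T ⊆ {x} ∧ 2 ≤ T.card) c +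
        sqs (p * (1 - p)) U (fun T => ¬ T ⊆ {x} ∧ ¬ 2 ≤ T.card) c := e1.symm
    _ ≤ δ + (A - a x) := by linarith
    _ ≤ (2 * κ ^ 3 / v + 1) * δ := by linarith

end Pool.Agent.Lib.MP_b0b8df_co.Lin
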