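import Pool.Agent.Lib.MP_b0b8df_co.Lin.Stm

set_option autoImplicit false

namespace Pool.Agent.Lib.MP_b0b8df_co.Lin

open Finset

theorem p_init : S_init := by
  classical
  intro N r
  refine ⟨?_, ?_⟩
  · intro b
    induction b with
    | zero =>
      intro _
      exact ⟨∅, Finset.Colex.isInitSeg_empty, by simp⟩
    | succ b ih =>
      intro hb
      obtain ⟨𝒞, hC, hcard⟩ := ih (by omega)
      have hsub : 𝒞 ⊆ (Finset.univ : Finset (Fin N)).powersetCard r := by
        intro s hs
        rw [Finset.mem_powersetCard]
        exact ⟨Finset.subset_univ _, hC.1 hs⟩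
      have hlt : 𝒞.card < ((Finset.univ : Finset (Fin N)).powersetCard r).card := by
        rw [Finset.card_powersetCard, Finset.card_univ, Fintype.card_fin]
        omega
      have hne : (((Finset.univ : Finset (Fin N)).powersetCard r) \ 𝒞).Nonempty := by
        rw [← Finset.card_pos, Finset.card_sdiff_of_subset hsub]
        omega
      obtain ⟨A, hA, hmin⟩ := Finset.exists_min_image _ (fun s : Finset (Fin N) => toColex s) hne
      rw [Finset.mem_sdiff, Finset.mem_powersetCard] at hA
      refine ⟨insert A 𝒞, ⟨?_, ?_⟩, ?_⟩
      · intro s hs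
        rw [Finset.coe_insert, Set.mem_insert_iff] at hs
        rcases hs with rfl | hs
        · exact hA.1.2
        · exact hC.1 hs
      · intro s t hs ht
        rw [Finset.mem_insert] at hs ⊢
        by_cases htC : t ∈ 𝒞
        · right; exact htC
        · exfalso
          have htm : t ∈ (((Finset.univ : Finset (Fin N)).powersetCard r) \ 𝒞) := by
            rw [Finset.mem_sdiff, Finset.mem_powersetCard]
            exact ⟨⟨Finset.subset_univ _, ht.2⟩, htC⟩
          rcases hs with rfl | hs
          · exact absurd (hmin t htm) (not_le.2 ht.1)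
          · exact htC (hC.2 hs ht)
      · rw [Finset.card_insert_of_notMem hA.2, hcard]
  · intro m 𝒞 hm hC hcard A hA a ha
    set ℐ : Finset (Finset (Fin N)) :=
      ((Finset.univ : Finset (Fin N)).filter (fun a => a.val < m)).powersetCard r with hI
    have hIm : ∀ s : Finset (Fin N), s ∈ ℐ ↔ (∀ a ∈ s, a.val < m) ∧ s.card = r := by
      intro s
      rw [hI, Finset.mem_powersetCard]
      constructor
      · rintro ⟨h1, h2⟩
        exact ⟨fun a ha => (Finset.mem_filter.1 (h1 ha)).2, h2⟩
      · rintro ⟨h1, h2⟩
        exact ⟨fun a ha => Finset.mem_filter.2 ⟨Finset.mem_univ _, h1 a ha⟩, h2⟩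
    have hIcard : ℐ.card = m.choose r := by
      rw [hI, Finset.card_powersetCard]
      congr 1
      rw [Fin.card_filter_val_lt]
      omega
    have hIinit : Finset.Colex.IsInitSeg ℐ r := by
      refine ⟨fun s hs => ((hIm s).1 hs).2, ?_⟩
      intro s t hs ht
      rw [hIm] at hs ⊢
      refine ⟨?_, ht.2⟩
      intro a ha
      by_contra hcon
      push Not at hcon
      have hlt := Finset.Colex.forall_lt_mono (a := a) (s := t) (t := s) ht.1.le (fun b hb => by
        have := hs.1 b hb
        rw [Fin.lt_def]
        omega)
      exact absurd (hlt a ha) (lt_irrefl a)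
    rcases hC.total hIinit with h | h
    · exact ((hIm A).1 (h hA)).1 a ha
    · have : ℐ = 𝒞 := Finset.eq_of_subset_of_card_le h (by rw [hIcard]; exact hcard)
      rw [← this] at hA
      exact ((hIm A).1 hA).1 a ha

end Pool.Agent.Lib.MP_b0b8df_co.Lin
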