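import Pool.Agent.Lib.MP_b0b8df_co.Lin.Stm

/-!
# MP_b0b8df_co, linear range: the Russo formula
-/

set_option autoImplicit false

namespace Pool.Agent.Lib.MP_b0b8df_co.Lin

open Finset

theorem p_russo : S_russo := by
  intro α _ U
  induction U using Finset.induction_on with
  | empty =>
    intro φ p
    simp only [ex_empty, Finset.sum_empty]
    exact hasDerivAt_const p (φ ∅)
  | insert x U hx ih =>
    intro φ p
    have hA := ih (fun S => φ (insert x S)) p
    have hB := ih φ p
    have h1 : HasDerivAt (fun q => q * ex q U (fun S => φ (insert x S)) + (1 - q) * ex q U φ)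
        ((1 * ex p U (fun S => φ (insert x S)) + p * ∑ i ∈ U, ex p U (D i fun S => φ (insert x S))) +
          ((0 - 1) * ex p U φ + (1 - p) * ∑ i ∈ U, ex p U (D i φ))) p :=
      ((hasDerivAt_id' p).mul hA).add (((hasDerivAt_const p (1 : ℝ)).sub (hasDerivAt_id' p)).mul hB)
    have h2 : (fun q => ex q (insert x U) φ) =
        fun q => q * ex q U (fun S => φ (insert x S)) + (1 - q) * ex q U φ :=
      funext fun q => ex_insert hx φ
    have h3 : ex p (insert x U) (D x φ) = ex p U (fun S => φ (insert x S)) - ex p U φ := by
      rw [ex_insert hx]
      have e1 : ex p U (fun S => D x φ (insert x S)) =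
          ex p U (fun S => φ (insert x S)) - ex p U φ := by
        rw [← ex_sub]
        apply ex_congr
        intro S hS
        have hxS : x ∉ S := fun h => hx (hS h)
        unfold D
        rw [Finset.insert_idem, Finset.erase_insert hxS]
      have e2 : ex p U (D x φ) = ex p U (fun S => φ (insert x S)) - ex p U φ := by
        rw [← ex_sub]
        apply ex_congr
        intro S hS
        have hxS : x ∉ S := fun h => hx (hS h)
        unfold D
        rw [Finset.erase_eq_of_notMem hxS]
      rw [e1, e2]
      ring
    have h4 : ∀ i ∈ U, ex p (insert x U) (D i φ) =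
        p * ex p U (D i fun S => φ (insert x S)) + (1 - p) * ex p U (D i φ) := by
      intro i hi
      rw [ex_insert hx]
      congr 2
      apply ex_congr
      intro S hS
      have hix : x ≠ i := fun h => hx (h ▸ hi)
      unfold D
      rw [Finset.insert_comm, Finset.erase_insert_of_ne hix]
    rw [h2, Finset.sum_insert hx, h3, Finset.sum_congr rfl h4, Finset.sum_add_distrib,
      ← Finset.mul_sum, ← Finset.mul_sum]
    convert h1 using 1
    ring

end Pool.Agent.Lib.MP_b0b8df_co.Lin
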